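import Pool.Agent.Helper87.QN.Defs

set_option autoImplicit false

/-! Scaling by units. -/

namespace QN

open QD

namespace UNTm

/-- A rational which is integral at all primes is an integer. -/
theorem int_of {x : ℚ} (h : ∀ q : ℕ, q.Prime → padicNorm q x ≤ 1) : (x.num : ℚ) = x := by
  by_cases hd : x.den = 1
  · exact (Rat.den_eq_one_iff x).1 hd
  · exfalso
    obtain ⟨q, hq, hqd⟩ := Nat.exists_prime_and_dvd hd
    have : Fact q.Prime := ⟨hq⟩
    have h1 : padicNorm q (x.den : ℚ) < 1 := (padicNorm.nat_lt_one_iff _).2 hqd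
    have h2 : padicNorm q (x.num : ℚ) = 1 := by
      refine (padicNorm.int_eq_one_iff _).2 fun hn => ?_
      have h3 : q ∣ x.num.natAbs := Int.natCast_dvd.1 hn
      have h4 := Nat.dvd_gcd h3 hqd
      rw [Nat.Coprime.gcd_eq_one x.reduced] at h4
      exact hq.one_lt.ne' (Nat.dvd_one.1 h4)
    have h0 : (0 : ℚ) < padicNorm q (x.den : ℚ) := by
      refine lt_of_le_of_ne (padicNorm.nonneg _) (Ne.symm ?_)
      exact padicNorm.nonzero (Nat.cast_ne_zero.2 x.den_nz)
    have h3 := h q hq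
    rw [← Rat.num_div_den x, padicNorm.div, h2, div_le_one h0] at h3
    linarith

theorem one_le_abs {x : ℚ} (h : ∀ q : ℕ, q.Prime → padicNorm q x ≤ 1) (h0 : x ≠ 0) :
    1 ≤ |x| := by
  have h1 := int_of h
  have h2 : x.num ≠ 0 := Rat.num_ne_zero.2 h0
  rw [← h1]
  exact_mod_cast Int.one_le_abs h2

theorem norm_u (m : ℕ) (a : ℚ) (q : ℕ) (hq : q.Prime) :
    padicNorm q (∏ p ∈ m.primeFactors, (p : ℚ) ^ (-(padicValRat p a))) =
      if q ∈ m.primeFactors then (q : ℚ) ^ (padicValRat q a) else 1 := by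
  have : Fact q.Prime := ⟨hq⟩
  have h1 : padicNorm q (∏ p ∈ m.primeFactors, (p : ℚ) ^ (-(padicValRat p a))) =
      ∏ p ∈ m.primeFactors, padicNorm q ((p : ℚ) ^ (-(padicValRat p a))) :=
    map_prod (padicAV q) _ _
  have h2 : ∀ p ∈ m.primeFactors, padicNorm q ((p : ℚ) ^ (-(padicValRat p a))) =
      if p = q then (q : ℚ) ^ (padicValRat q a) else 1 := by
    intro p hp
    have hz : padicNorm q ((p : ℚ) ^ (-(padicValRat p a))) =
        (padicNorm q (p : ℚ)) ^ (-(padicValRat p a)) := map_zpow₀ (padicAV q) _ _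
    rw [hz]
    split_ifs with h
    · subst h
      rw [padicNorm.padicNorm_p_of_prime, inv_zpow', neg_neg]
    · have : Fact p.Prime := ⟨Nat.prime_of_mem_primeFactors hp⟩
      rw [padicNorm.padicNorm_of_prime_of_ne (Ne.symm h), one_zpow]
  rw [h1, Finset.prod_congr rfl h2, Finset.prod_ite_eq']

end UNTm

open UNTm in
theorem st_UNT : ST_UNT := by
  intro m a hm ha ha0
  have hu0 : (∏ p ∈ m.primeFactors, (p : ℚ) ^ (-(padicValRat p a))) ≠ 0 :=
    Finset.prod_ne_zero_iff.2 fun p hp => zpow_ne_zero _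
      (Nat.cast_ne_zero.2 (Nat.prime_of_mem_primeFactors hp).ne_zero)
  have hN := norm_u m a
  set u : ℚ := ∏ p ∈ m.primeFactors, (p : ℚ) ^ (-(padicValRat p a)) with hu
  have hout : ∀ q : ℕ, q.Prime → ¬ q ∣ m → padicNorm q u = 1 := by
    intro q hq hqm
    rw [hN q hq, if_neg]
    intro h
    exact hqm (Nat.dvd_of_mem_primeFactors h)
  have hin : ∀ q : ℕ, q ∈ m.primeFactors → padicNorm q (a * u) = 1 := by
    intro q hqm
    have hq := Nat.prime_of_mem_primeFactors hqm
    have : Fact q.Prime := ⟨hq⟩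
    rw [padicNorm.mul, hN q hq, if_pos hqm, padicNorm.eq_zpow_of_nonzero ha0,
      ← zpow_add₀ (Nat.cast_ne_zero.2 hq.ne_zero), neg_add_cancel, zpow_zero]
  have hall : ∀ q : ℕ, q.Prime → padicNorm q (a * u) ≤ 1 := by
    intro q hq
    have : Fact q.Prime := ⟨hq⟩
    by_cases hqm : q ∣ m
    · exact (hin q (Nat.mem_primeFactors.2 ⟨hq, hqm, hm.ne'⟩)).le
    · rw [padicNorm.mul, hout q hq hqm, mul_one]
      exact ha q hq hqm
  refine ⟨u, ?_, ?_, hu0, ?_⟩
  · intro q hq hqm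
    exact (hout q hq hqm).le
  · intro q hq hqm
    have : Fact q.Prime := ⟨hq⟩
    have h1 : padicNorm q (u⁻¹) = (padicNorm q u)⁻¹ := map_inv₀ (padicAV q) u
    rw [h1, hout q hq hqm, inv_one]
  · intro v
    rcases v with _ | p
    · exact one_le_abs hall (mul_ne_zero ha0 hu0)
    · exact (hin p.1 p.2).ge

end QN
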