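import Pool.Agent.Helper87.QN.Defs

set_option autoImplicit false

/-! Row SUPR: a larger generating set. -/

namespace QN

open QD

theorem subst_words {G : Type} [Group G] {S₁ T S : Set G} (f : G → List G) {l : ℕ}
    (h1 : S₁ ⊆ S) (h2 : T ⊆ S) (hf : ∀ t ∈ T, (∀ s ∈ f t, s ∈ S₁) ∧ (f t).prod = t ∧
      (f t).length ≤ l) :
    ∀ u : List G, (∀ t ∈ u, t ∈ T) → (∀ s ∈ u.flatMap f, s ∈ S₁) ∧ (u.flatMap f).prod = u.prod ∧
      (u.flatMap f).length ≤ l * u.length ∧ Ar S (max 1 l) u.length u (u.flatMap f)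
  | [], _ => by
      refine ⟨?_, ?_, ?_, ?_⟩
      · simp
      · simp
      · simp
      · simpa using Ar.refl _ _
  | t :: u, hu => by
      obtain ⟨i1, i2, i3, i4⟩ := subst_words f h1 h2 hf u (fun x hx => hu x (by simp [hx]))
      obtain ⟨j1, j2, j3⟩ := hf t (hu t (by simp))
      refine ⟨?_, ?_, ?_, ?_⟩
      · intro s hs
        rw [List.flatMap_cons, List.mem_append] at hs
        rcases hs with hs | hs
        · exact j1 s hs
        · exact i1 s hs
      · rw [List.flatMap_cons, List.prod_append, i2, j2, List.prod_cons]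
      · rw [List.flatMap_cons, List.length_append, List.length_cons]
        nlinarith
      · have e1 : Ar S (max 1 l) 1 [t] (f t) := by
          refine Ar.whole ?_ ?_ ?_ ?_ ?_
          · simp [j2]
          · simp
          · exact j3.trans (le_max_right _ _)
          · intro g hg
            rw [List.mem_singleton] at hg
            subst hg
            exact h2 (hu _ (by simp))
          · intro g hg
            exact h1 (j1 g hg)
        have e2 := e1.append i4
        rw [List.flatMap_cons, List.length_cons]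
        simp only [List.cons_append, List.nil_append] at e2
        exact e2.mono_k (by omega)

theorem st_SUPR : ST_SUPR := by
  intro G _ S₁ T S c A hQ h1T h1S hTS hfin hgen
  classical
  choose! f hf using hgen
  obtain ⟨l, hl⟩ : ∃ l : ℕ, ∀ t ∈ T, (f t).length ≤ l := by
    obtain ⟨l, hl⟩ := (hfin.image (fun t => (f t).length)).bddAbove
    exact ⟨l, fun t ht => hl ⟨t, ht, rfl⟩⟩
  refine ⟨max c (max 1 l), A * l ^ 2 + 1 + A, ?_⟩
  intro u v hu hv huv
  obtain ⟨i1, i2, i3, i4⟩ := subst_words f h1S hTS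
    (fun t ht => ⟨(hf t ht).1, (hf t ht).2, hl t ht⟩) u hu
  obtain ⟨j1, j2, j3, j4⟩ := subst_words f h1S hTS
    (fun t ht => ⟨(hf t ht).1, (hf t ht).2, hl t ht⟩) v hv
  have h := hQ (u.flatMap f) (v.flatMap f) i1 j1 (by rw [i2, j2, huv])
  have k1 := i4.mono (le_max_right c (max 1 l)) (le_refl S)
  have k2 := h.mono (le_max_left c (max 1 l)) h1S
  have k3 := (j4.mono (le_max_right c (max 1 l)) (le_refl S)).symm
  refine ((k1.trans k2).trans k3).mono_k ?_
  set s := u.length + v.length with hs
  have e1 : (u.flatMap f).length + (v.flatMap f).length ≤ l * s := by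
    rw [hs, Nat.mul_add]
    exact Nat.add_le_add i3 j3
  have e2 : ((u.flatMap f).length + (v.flatMap f).length) ^ 2 ≤ (l * s) ^ 2 :=
    Nat.pow_le_pow_left e1 2
  have e3 : A * ((u.flatMap f).length + (v.flatMap f).length) ^ 2 ≤ A * l ^ 2 * s ^ 2 := by
    calc A * ((u.flatMap f).length + (v.flatMap f).length) ^ 2 ≤ A * (l * s) ^ 2 :=
          Nat.mul_le_mul_left _ e2
      _ = A * l ^ 2 * s ^ 2 := by ring
  have e4 : s ≤ s ^ 2 := by
    rcases Nat.eq_zero_or_pos s with h0 | h0
    · rw [h0]; exact Nat.zero_le _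
    · nlinarith
  calc u.length + (A * ((u.flatMap f).length + (v.flatMap f).length) ^ 2 + A) + v.length
      = s + A * ((u.flatMap f).length + (v.flatMap f).length) ^ 2 + A := by rw [hs]; ring
    _ ≤ s ^ 2 + A * l ^ 2 * s ^ 2 + A := by omega
    _ ≤ (A * l ^ 2 + 1 + A) * s ^ 2 + (A * l ^ 2 + 1 + A) := by nlinarith [Nat.zero_le (A * s ^ 2), Nat.zero_le (A * l ^ 2)]

end QN
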