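import Pool.Agent.Helper87.QN.Defs

set_option autoImplicit false

/-! The induction on the dimension. -/

namespace QN

open QD

namespace MAINm

/-- Every matrix has some size. -/
theorem exists_size (m n : ℕ) (g : GL (Fin n) ℚ) : ∃ k, SizeLe m k g := by
  obtain ⟨M, hM⟩ := (Set.finite_range (fun k : Pl m × Fin n × Fin n =>
    max (av m k.1 (g.1 k.2.1 k.2.2)) (av m k.1 ((g⁻¹).1 k.2.1 k.2.2)))).bddAbove
  obtain ⟨k, hk⟩ := pow_unbounded_of_one_lt M (one_lt_two : (1 : ℚ) < 2)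
  refine ⟨k, fun v x y => ?_⟩
  have h := hM ⟨(v, x, y), rfl⟩
  exact ⟨(le_max_left _ _).trans (h.trans hk.le), (le_max_right _ _).trans (h.trans hk.le)⟩

variable {G : Type} [Group G]

/-- Replacing the letters of a word by words. -/
theorem repl {S S₁ T : Set G} {c l : ℕ} (hS₁ : S₁ ⊆ S) (hTS : T ⊆ S) (hc : 1 ≤ c) (hl : l ≤ c)
    (h : ∀ t ∈ T, ∃ w : List G, (∀ s ∈ w, s ∈ S₁) ∧ w.prod = t ∧ w.length ≤ l) (u : List G)
    (hu : ∀ s ∈ u, s ∈ T) : ∃ u' : List G, (∀ s ∈ u', s ∈ S₁) ∧ u'.prod = u.prod ∧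
      u'.length ≤ l * u.length ∧ Ar S c u.length u u' := by
  induction u with
  | nil => exact ⟨[], by simp, rfl, by simp, Ar.refl _ _⟩
  | cons t u ih =>
    obtain ⟨u', h1, h2, h3, h4⟩ := ih (fun s hs => hu s (List.mem_cons_of_mem _ hs))
    obtain ⟨w, hw1, hw2, hw3⟩ := h t (hu t List.mem_cons_self)
    refine ⟨w ++ u', ?_, ?_, ?_, ?_⟩
    · intro s hs
      rcases List.mem_append.1 hs with hs | hs
      exacts [hw1 s hs, h1 s hs]
    · rw [List.prod_append, hw2, h2, List.prod_cons]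
    · rw [List.length_append, List.length_cons, Nat.mul_succ]; omega
    · have h5 : Ar S c 1 [t] w := Ar.whole (by simp [hw2]) (by simpa using hc) (hw3.trans hl)
        (by
          intro g hg
          rw [List.mem_singleton] at hg
          subst hg
          exact hTS (hu _ List.mem_cons_self))
        (fun g hg => hS₁ (hw1 g hg))
      have h6 := (h4.cons t).trans (h5.right u')
      exact h6

/-- The inverse word. -/
def iw (v : List G) : List G := (v.map (fun x => x⁻¹)).reverse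

theorem iw_prod (v : List G) : (iw v).prod = v.prod⁻¹ := (List.prod_inv_reverse v).symm

theorem iw_length (v : List G) : (iw v).length = v.length := by simp [iw]

theorem iw_mem {S : Set G} {v : List G} (h : ∀ s ∈ v, s⁻¹ ∈ S) : ∀ s ∈ iw v, s ∈ S := by
  intro s hs
  simp only [iw, List.mem_reverse, List.mem_map] at hs
  obtain ⟨t, ht, rfl⟩ := hs
  exact h t ht

theorem cancel_iw {S : Set G} {c : ℕ} (hc : 2 ≤ c) (v : List G) (hv : ∀ s ∈ v, s ∈ S)
    (hv' : ∀ s ∈ v, s⁻¹ ∈ S) : Ar S c v.length (iw v ++ v) [] := by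
  induction v with
  | nil => exact Ar.refl _ _
  | cons g v ih =>
    have h1 : Ar S c 1 [g⁻¹, g] [] := by
      apply Ar.whole
      · simp
      · simpa using hc
      · simp
      · intro x hx
        simp only [List.mem_cons, List.not_mem_nil, or_false] at hx
        rcases hx with rfl | rfl
        · exact hv' g List.mem_cons_self
        · exact hv _ List.mem_cons_self
      · simp
    have h2 := h1.congr (iw v) v
    have h4 := ih (fun s hs => hv s (List.mem_cons_of_mem _ hs))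
      (fun s hs => hv' s (List.mem_cons_of_mem _ hs))
    rw [List.append_nil] at h2
    have h3 := h2.trans h4
    have e : iw (g :: v) ++ (g :: v) = iw v ++ [g⁻¹, g] ++ v := by simp [iw]
    rw [e, List.length_cons, Nat.add_comm]
    exact h3

theorem qar {S S₁ T : Set G} {c A l : ℕ} (hS₁ : S₁ ⊆ S) (hTS : T ⊆ S)
    (hinv : ∀ s ∈ S₁, s⁻¹ ∈ S₁)
    (hrep : ∀ t ∈ T, ∃ w : List G, (∀ s ∈ w, s ∈ S₁) ∧ w.prod = t ∧ w.length ≤ l)
    (hfil : ∀ w : List G, (∀ s ∈ w, s ∈ S₁) → w.prod = 1 →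
      Ar S c (A * w.length ^ 2 + A) w []) :
    QAr S T (c + l + 2) (A * l ^ 2 + A + l + 1) := by
  intro u v hu hv huv
  obtain ⟨u', hu1, hu2, hu3, hu4⟩ := repl (c := c + l + 2) hS₁ hTS (by omega) (by omega) hrep u hu
  obtain ⟨v', hv1, hv2, hv3, hv4⟩ := repl (c := c + l + 2) hS₁ hTS (by omega) (by omega) hrep v hv
  have hn1 : ∀ s ∈ u' ++ iw v', s ∈ S₁ := by
    intro s hs
    rcases List.mem_append.1 hs with hs | hs
    · exact hu1 s hs
    · exact iw_mem (fun s hs => hinv s (hv1 s hs)) s hs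
  have hn2 : (u' ++ iw v').prod = 1 := by
    rw [List.prod_append, iw_prod, hu2, hv2, huv, mul_inv_cancel]
  have h1 := (hfil _ hn1 hn2).mono (c' := c + l + 2) (by omega) (le_refl S)
  have h2 := cancel_iw (c := c + l + 2) (by omega) v' (fun s hs => hS₁ (hv1 s hs))
    (fun s hs => hS₁ (hinv s (hv1 s hs)))
  have h3 := (h2.left u').symm
  have h4 := h1.right v'
  rw [List.append_nil] at h3
  rw [List.append_assoc, List.nil_append] at h4
  have h5 := ((hu4.trans h3).trans h4).trans hv4.symm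
  refine h5.mono_k ?_
  rw [List.length_append, iw_length]
  set a := u.length
  set b := v.length
  have hab : a + b ≤ (a + b) ^ 2 := Nat.le_self_pow two_ne_zero _
  have h6 : A * (u'.length + v'.length) ^ 2 ≤ A * (l ^ 2 * (a + b) ^ 2) := by
    refine Nat.mul_le_mul_left _ ?_
    rw [← mul_pow]
    refine Nat.pow_le_pow_left ?_ 2
    rw [mul_add]
    omega
  have h7 : v'.length ≤ l * (a + b) ^ 2 :=
    hv3.trans (Nat.mul_le_mul_left _ ((Nat.le_add_left b a).trans hab))
  calc a + v'.length + (A * (u'.length + v'.length) ^ 2 + A) + b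
      ≤ (a + b) ^ 2 + l * (a + b) ^ 2 + (A * (l ^ 2 * (a + b) ^ 2) + A) := by omega
    _ ≤ (A * l ^ 2 + A + l + 1) * (a + b) ^ 2 + (A * l ^ 2 + A + l + 1) := by
      have e : (A * l ^ 2 + A + l + 1) * (a + b) ^ 2 = A * (l ^ 2 * (a + b) ^ 2) +
          A * (a + b) ^ 2 + l * (a + b) ^ 2 + (a + b) ^ 2 := by ring
      rw [e]
      omega

end MAINm

open MAINm in
theorem st_MAIN (hL : ST_LEN) (hF : ST_FIL) : ST_MAIN := by
  intro m n hm h6 hn
  induction n using Nat.strong_induction_on with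
  | _ n ih =>
    have ih' : ∀ n' < n, 0 < n' → MainAt m n' := fun n' h h0 => ih n' h h0
    obtain ⟨S₁, C, hfin, h1, hinv, hB, hM⟩ := hL m n hm h6 hn ih'
    obtain ⟨S, c, A, hSfin, hSS, hSinv, hSB, hnull⟩ :=
      hF m n hm h6 hn ih' S₁ C hfin h1 hinv hB hM
    have hrep : ∀ s ∈ S, ∃ w : List (GL (Fin n) ℚ), (∀ t ∈ w, t ∈ S₁) ∧ w.prod = s := by
      intro s hs
      obtain ⟨k, hk⟩ := exists_size m n s
      obtain ⟨w, hw1, hw2, hw3⟩ := hM k s (hSB s hs) hk
      exact ⟨w, fun t ht => (hw3 t ht).1, hw1⟩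
    choose! f hf using hrep
    obtain ⟨l, hl⟩ := (hSfin.image (fun s => (f s).length)).bddAbove
    have hq : QAr S S (c + l + 2) (A * l ^ 2 + A + l + 1) :=
      qar hSS (le_refl S) hinv (fun t ht => ⟨f t, (hf t ht).1, (hf t ht).2, hl ⟨t, ht, rfl⟩⟩) hnull
    refine ⟨S, C + (A * l ^ 2 + A + l + 1), c + l + 2, hSfin, hSS h1, hSinv, hSB, ?_, ?_⟩
    · intro k g hg hk
      obtain ⟨w, hw1, hw2, hw3⟩ := hM k g hg hk
      refine ⟨w, hw1, hw2.trans (Nat.mul_le_mul_right _ (Nat.le_add_right _ _)), fun s hs => ?_⟩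
      exact ⟨hSS (hw3 s hs).1, (hw3 s hs).2⟩
    · intro u v hu hv huv
      refine (hq u v hu hv huv).mono_k ?_
      exact Nat.add_le_add (Nat.mul_le_mul_right _ (Nat.le_add_left _ _)) (Nat.le_add_left _ _)

end QN
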