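import Pool.Agent.Helper87.QN.Defs
import Pool.Agent.Helper87.QN.MAIN

set_option autoImplicit false

/-! From words to presentations. -/

namespace QN

open QD

namespace QDm

variable {G : Type} [Group G] (Γ : Subgroup G)

open Classical in
/-- The retraction onto a subgroup. -/
noncomputable def rt (g : G) : Γ := if h : g ∈ Γ then ⟨g, h⟩ else 1

theorem rt_val {g : G} (h : g ∈ Γ) : (rt Γ g : G) = g := by
  unfold rt
  rw [dif_pos h]

theorem rt_coe (γ : Γ) : rt Γ (γ : G) = γ := Subtype.ext (rt_val Γ γ.2)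

theorem rt_prod {x : List G} (h : ∀ g ∈ x, g ∈ Γ) : ((x.map (rt Γ)).prod : G) = x.prod := by
  induction x with
  | nil => rfl
  | cons g x ih =>
    rw [List.map_cons, List.prod_cons, List.prod_cons, Subgroup.coe_mul,
      rt_val Γ (h g List.mem_cons_self), ih fun g hg => h g (List.mem_cons_of_mem _ hg)]

variable {Γ} {S : Set G} {c k : ℕ} {w w' : List G}

theorem step_rt (hS : ∀ s ∈ S, s ∈ Γ) (h : Step S c w w') :
    Step {γ : Γ | (γ : G) ∈ S} c (w.map (rt Γ)) (w'.map (rt Γ)) := by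
  obtain ⟨a, x, y, d, h1, h2, h3, h4, h5, h6, h7⟩ := h
  refine ⟨a.map (rt Γ), x.map (rt Γ), y.map (rt Γ), d.map (rt Γ), by simp [h1], by simp [h2],
    ?_, by simpa, by simpa, ?_, ?_⟩
  · refine Subtype.ext ?_
    rw [rt_prod Γ fun g hg => hS g (h6 g hg), rt_prod Γ fun g hg => hS g (h7 g hg), h3]
  · intro g hg
    obtain ⟨g', hg', rfl⟩ := List.mem_map.1 hg
    show (rt Γ g' : G) ∈ S
    rw [rt_val Γ (hS g' (h6 g' hg'))]
    exact h6 g' hg'
  · intro g hg
    obtain ⟨g', hg', rfl⟩ := List.mem_map.1 hg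
    show (rt Γ g' : G) ∈ S
    rw [rt_val Γ (hS g' (h7 g' hg'))]
    exact h7 g' hg'

theorem ar_rt (hS : ∀ s ∈ S, s ∈ Γ) (h : Ar S c k w w') :
    Ar {γ : Γ | (γ : G) ∈ S} c k (w.map (rt Γ)) (w'.map (rt Γ)) := by
  induction h with
  | refl k w => exact Ar.refl _ _
  | step hs _ ih => exact Ar.step (step_rt hS hs) ih

theorem map_rt_coe (u : List Γ) : (u.map (Subtype.val)).map (rt Γ) = u := by
  rw [List.map_map]
  conv_rhs => rw [← List.map_id u]
  exact List.map_congr_left fun γ _ => rt_coe Γ γ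

theorem coe_prod (u : List Γ) : (u.map Subtype.val).prod = (u.prod : G) :=
  (map_list_prod Γ.subtype u).symm

end QDm

open QDm in
/-- A subgroup with finitely many generators and quadratic areas is quadratic. -/
theorem quad_of (hP : ST_PRES) {G : Type} [Group G] (Γ : Subgroup G) (S : Set G) (c C : ℕ)
    (hfin : S.Finite) (hinv : ∀ s ∈ S, s⁻¹ ∈ S) (hS : ∀ s ∈ S, s ∈ Γ)
    (hgen : ∀ g ∈ Γ, ∃ w : List G, w.prod = g ∧ ∀ s ∈ w, s ∈ S) (hq : QAr S S c C) :
    QuadDehn Γ := by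
  have hQ : QPres 0 ∅ := by
    refine ⟨0, ?_⟩
    intro w _
    refine ⟨[], by simp, by simp, ?_⟩
    exact Subsingleton.elim _ _
  have hsub : Subsingleton (PresentedGroup ((∅ : Finset (FreeGroup (Fin 0))) :
      Set (FreeGroup (Fin 0)))) := by
    constructor
    intro x y
    obtain ⟨x, rfl⟩ := PresentedGroup.mk_surjective _ x
    obtain ⟨y, rfl⟩ := PresentedGroup.mk_surjective _ y
    rw [Subsingleton.elim x y]
  refine hP Γ {γ : Γ | (γ : G) ∈ S} (hfin.preimage Subtype.val_injective.injOn)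
    (fun s hs => hinv _ hs) ?_ 0 ∅ hQ 1 (Function.injective_of_subsingleton _)
    (fun i => i.elim0) ?_
  · intro γ _
    obtain ⟨w, hw1, hw2⟩ := hgen γ γ.2
    refine ⟨w.map (rt Γ), ?_, ?_⟩
    · intro g hg
      obtain ⟨g', hg', rfl⟩ := List.mem_map.1 hg
      show (rt Γ g' : G) ∈ S
      rw [rt_val Γ (hS g' (hw2 g' hg'))]
      exact hw2 g' hg'
    · refine Subtype.ext ?_
      rw [rt_prod Γ fun g hg => hS g (hw2 g hg), hw1]
  · have he : {g : Γ | ∃ i : Fin 0, g = (1 : PresentedGroup ((∅ : Finset (FreeGroup (Fin 0))) :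
        Set (FreeGroup (Fin 0))) →* Γ) (PresentedGroup.of i) ∨
        g = ((1 : PresentedGroup ((∅ : Finset (FreeGroup (Fin 0))) :
        Set (FreeGroup (Fin 0))) →* Γ) (PresentedGroup.of i))⁻¹} = ∅ := by
      ext g
      constructor
      · rintro ⟨i, _⟩; exact i.elim0
      · intro h; exact absurd h (Set.notMem_empty g)
    rw [he]
    refine ⟨c, C, fun w hw hw1 => ⟨[], by simp, Nat.zero_le _, ?_⟩⟩
    have h1 : (w.map Subtype.val).prod = ([] : List G).prod := by
      rw [coe_prod, hw1]; rfl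
    have h2 : ∀ g ∈ w.map Subtype.val, g ∈ S := by
      intro g hg
      obtain ⟨g', hg', rfl⟩ := List.mem_map.1 hg
      exact hw g' hg'
    have h3 := ar_rt hS (hq (w.map Subtype.val) [] h2 (by simp) h1)
    rw [map_rt_coe, List.length_map, List.length_nil, Nat.add_zero] at h3
    exact h3

open MAINm in
theorem st_QD (hM : ST_MAIN) (hP : ST_PRES) : ST_QD := by
  intro m n hm h6 hn
  obtain ⟨S, C, c, h1, _, h3, h4, h5, h6'⟩ := hM m n hm h6 hn
  refine quad_of hP _ S c C h1 h3 h4 (fun g hg => ?_) h6'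
  obtain ⟨k, hk⟩ := exists_size m n g
  obtain ⟨w, hw1, _, hw3⟩ := h5 k g hg hk
  exact ⟨w, hw1, fun s hs => (hw3 s hs).1⟩

end QN
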