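import Pool.Agent.Helper87.QN.Defs

set_option autoImplicit false

/-! Row GRD0: letters and products of the edge words. -/

namespace QN

open QD

theorem gd_self (x y : ℕ) : gd x y x y = 0 := by
  unfold gd; omega

theorem gd_add (x y a b : ℕ) : gd x y (x + a) (y + b) = a + b := by
  unfold gd; omega

theorem gd_edge (x y r dx dy : ℕ) (hd : dx + dy = 1) :
    gd x y (x + r * dx) (y + r * dy) = r := by
  rw [gd_add, ← Nat.mul_add, hd, mul_one]

theorem Grid.good_edge {G J : Type} [Group G] {S : Set G} {P : J → Set G} {W : G → List G}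
    {A C0 L : ℕ} {ρ : ℕ → ℕ → G} {D : ℕ → ℕ → ℕ} (h : Grid G J S P W A C0 L ρ D)
    (dx dy : ℕ) (hd : dx + dy = 1) (r : ℕ) (hr : 1 ≤ r) (x y : ℕ)
    (hg : E0 C0 L * r ≤ D x y) :
    ∃ j, (ρ x y)⁻¹ * ρ (x + r * dx) (y + r * dy) ∈ P j := by
  have h1 : C0 * (r + 1) ≤ D x y := by
    refine le_trans ?_ hg
    unfold E0
    nlinarith [Nat.zero_le C0, Nat.zero_le L, mul_le_mul_left hr C0]
  obtain ⟨j, hj⟩ := h.hP x y r h1
  exact ⟨j, hj x y _ _ (by rw [gd_self]; omega) (by rw [gd_edge _ _ _ _ _ hd])⟩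

theorem st_GRD0 : ST_GRD0 := by
  intro G J _ S P W A C0 L ρ D h dx dy hd k
  induction k with
  | zero =>
    intro x y
    have e1 : x + 2 ^ 0 * dx = x + dx := by ring
    have e2 : y + 2 ^ 0 * dy = y + dy := by ring
    rw [e1, e2]
    by_cases hg : E0 C0 L ≤ D x y
    · have hew : ew W (E0 C0 L) ρ D dx dy 0 x y = W ((ρ x y)⁻¹ * ρ (x + dx) (y + dy)) := by
        rw [ew, if_pos hg]
      obtain ⟨j, hj⟩ := h.good_edge dx dy hd 1 le_rfl x y (by simpa using hg)
      rw [one_mul, one_mul] at hj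
      have hW := h.hW _ ⟨j, hj⟩
      rw [hew]
      refine ⟨hW.1, hW.2.1, fun hc => ?_⟩
      have := hc 0 (by norm_num)
      simp only [zero_mul, add_zero] at this
      omega
    · have hew : ew W (E0 C0 L) ρ D dx dy 0 x y = [(ρ x y)⁻¹ * ρ (x + dx) (y + dy)] := by
        rw [ew, if_neg hg]
      rw [hew]
      refine ⟨by simp, ?_, fun _ => by simp⟩
      intro s hs
      rw [List.mem_singleton] at hs
      rw [hs]
      refine h.hS _ _ _ _ ?_ (by omega)
      rw [gd_add]; omega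
  | succ k ih =>
    intro x y
    by_cases hg : E0 C0 L * 2 ^ (k + 1) ≤ D x y
    · have hew : ew W (E0 C0 L) ρ D dx dy (k + 1) x y =
          W ((ρ x y)⁻¹ * ρ (x + 2 ^ (k + 1) * dx) (y + 2 ^ (k + 1) * dy)) := by
        rw [ew, if_pos hg]
      obtain ⟨j, hj⟩ := h.good_edge dx dy hd (2 ^ (k + 1)) Nat.one_le_two_pow x y hg
      have hW := h.hW _ ⟨j, hj⟩
      rw [hew]
      refine ⟨hW.1, hW.2.1, fun hc => ?_⟩
      have h1 := hc 0 (by positivity)
      simp only [zero_mul, add_zero] at h1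
      have h2 : E0 C0 L * 1 ≤ E0 C0 L * 2 ^ (k + 1) := Nat.mul_le_mul_left _ Nat.one_le_two_pow
      omega
    · have hew : ew W (E0 C0 L) ρ D dx dy (k + 1) x y =
          ew W (E0 C0 L) ρ D dx dy k x y ++
            ew W (E0 C0 L) ρ D dx dy k (x + 2 ^ k * dx) (y + 2 ^ k * dy) := by
        rw [ew, if_neg hg]
      obtain ⟨a1, a2, a3⟩ := ih x y
      obtain ⟨b1, b2, b3⟩ := ih (x + 2 ^ k * dx) (y + 2 ^ k * dy)
      have e1 : x + 2 ^ k * dx + 2 ^ k * dx = x + 2 ^ (k + 1) * dx := by rw [pow_succ]; ring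
      have e2 : y + 2 ^ k * dy + 2 ^ k * dy = y + 2 ^ (k + 1) * dy := by rw [pow_succ]; ring
      rw [hew]
      refine ⟨?_, ?_, fun hc => ?_⟩
      · rw [List.prod_append, a1, b1, e1, e2]
        group
      · intro s hs
        rcases List.mem_append.1 hs with hs | hs
        · exact a2 s hs
        · exact b2 s hs
      · have hp : 2 ^ (k + 1) = 2 ^ k + 2 ^ k := by rw [pow_succ]; ring
        have f1 : ∀ e, x + 2 ^ k * dx + e * dx = x + (2 ^ k + e) * dx := fun e => by ring
        have f2 : ∀ e, y + 2 ^ k * dy + e * dy = y + (2 ^ k + e) * dy := fun e => by ring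
        rw [a3 (fun e he => hc e (by omega)), b3 (fun e he => by
          rw [f1, f2]
          exact hc _ (by omega)), hp, List.range_add, List.map_append, List.map_map]
        congr 1
        refine List.map_congr_left fun e _ => ?_
        simp only [Function.comp]
        rw [f1, f2, f1 (e + 1), f2 (e + 1), add_assoc]

end QN
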