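import Pool.Agent.Helper87.QN.GRD0

set_option autoImplicit false

/-! Row GRD1: lengths of the edge words. -/

namespace QN

open QD

theorem st_GRD1 : ST_GRD1 := by
  intro A C0 L M0
  set M1 := max M0 (2 * E0 C0 L + L) with hM1
  refine ⟨A * (M1 + 2) + 1, ?_⟩
  intro G J _ S P W ρ D h dx dy hd
  have key : ∀ k x y, D x y ≤ M1 * 2 ^ k →
      (ew W (E0 C0 L) ρ D dx dy k x y).length ≤ (A * (M1 + 2) + 1) * 2 ^ k := by
    intro k
    induction k with
    | zero =>
      intro x y hxy
      simp only [pow_zero, mul_one] at hxy ⊢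
      by_cases hg : E0 C0 L ≤ D x y
      · rw [ew, if_pos hg]
        obtain ⟨j, hj⟩ := h.good_edge dx dy hd 1 le_rfl x y (by simpa using hg)
        rw [one_mul, one_mul] at hj
        have h1 := h.hlen _ _ _ _ ⟨j, hj⟩
        rw [gd_add, hd] at h1
        have h2 : A * (D x y + 1 + 1) ≤ A * (M1 + 2) := Nat.mul_le_mul_left _ (by omega)
        omega
      · rw [ew, if_neg hg]
        simp
    | succ k ih =>
      intro x y hxy
      by_cases hg : E0 C0 L * 2 ^ (k + 1) ≤ D x y
      · rw [ew, if_pos hg]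
        obtain ⟨j, hj⟩ := h.good_edge dx dy hd (2 ^ (k + 1)) Nat.one_le_two_pow x y hg
        have h1 := h.hlen _ _ _ _ ⟨j, hj⟩
        rw [gd_edge _ _ _ _ _ hd] at h1
        have hp : 1 ≤ 2 ^ (k + 1) := Nat.one_le_two_pow
        have h2 : A * (D x y + 2 ^ (k + 1) + 1) ≤ A * ((M1 + 2) * 2 ^ (k + 1)) :=
          Nat.mul_le_mul_left _ (by nlinarith)
        calc _ ≤ _ := h1
          _ ≤ _ := h2
          _ ≤ _ := by nlinarith
      · rw [ew, if_neg hg, List.length_append]
        have hE : 2 * E0 C0 L + L ≤ M1 := le_max_right _ _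
        have hp : 2 ^ (k + 1) = 2 * 2 ^ k := by rw [pow_succ]; ring
        rw [hp] at hg
        have h1 : D x y ≤ 2 * E0 C0 L * 2 ^ k := by nlinarith
        have h2 : D (x + 2 ^ k * dx) (y + 2 ^ k * dy) ≤ D x y + L * 2 ^ k := by
          have := h.hD x y (x + 2 ^ k * dx) (y + 2 ^ k * dy)
          rwa [gd_edge _ _ _ _ _ hd] at this
        have h3 : (2 * E0 C0 L + L) * 2 ^ k ≤ M1 * 2 ^ k := Nat.mul_le_mul_right _ hE
        have h3' : (2 * E0 C0 L + L) * 2 ^ k = 2 * E0 C0 L * 2 ^ k + L * 2 ^ k := by ring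
        have h4 := ih x y (by omega)
        have h5 := ih (x + 2 ^ k * dx) (y + 2 ^ k * dy) (by omega)
        rw [hp]
        nlinarith
  intro k x y hxy
  refine key k x y (hxy.trans (Nat.mul_le_mul_right _ (le_max_left _ _)))

end QN
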