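import Pool.Agent.Helper87.QN.Defs

set_option autoImplicit false

/-! Row GRD2: areas of squares. -/

namespace QN

open QD

namespace GRD2

theorem ar_len (A B L D g T : ℕ) (h1 : D ≤ B * T + L * T) (h2 : g ≤ T) (h3 : 1 ≤ T) :
    A * (D + g + 1) ≤ A * (B + L + 2) * T := by
  calc A * (D + g + 1) ≤ A * (B * T + L * T + T + T) := by
        refine Nat.mul_le_mul_left A ?_
        omega
    _ = _ := by ring

theorem ar_C0 (C0 E t D : ℕ) (h : 3 * C0 ≤ E) (ht : 1 ≤ t) (hD : E * t ≤ D) :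
    C0 * (2 * t + 1) ≤ D := by
  calc C0 * (2 * t + 1) ≤ C0 * (3 * t) := Nat.mul_le_mul_left _ (by omega)
    _ = 3 * C0 * t := by ring
    _ ≤ E * t := Nat.mul_le_mul_right _ h
    _ ≤ D := hD

/-- moving by `t` from a point of depth `≥ (E + 2 L) t` (or `2 E t`). -/
theorem ar_move (E L t D D' : ℕ) (h : (E + L) * t ≤ D) (h' : D ≤ D' + L * t) : E * t ≤ D' := by
  have : (E + L) * t = E * t + L * t := by ring
  omega

theorem ar_final (KG KS Q M q : ℕ) (hM : M = 4 * (4 * Q) + 4 * KS + KG + 1) :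
    4 * (KS * (4 * q)) + 4 * (Q * q) ≤ M * (4 * q) := by
  have e : M * (4 * q) = 16 * (KS * q) + 64 * (Q * q) + 4 * (KG * q) + 4 * q := by rw [hM]; ring
  have e2 : 4 * (KS * (4 * q)) = 16 * (KS * q) := by ring
  rw [e, e2]
  omega

theorem ar_child (E L t D D' g : ℕ) (hE : 6 * L + 1 ≤ E) (hg : g ≤ 2 * t)
    (hD : E * (2 * t) ≤ D + L * (2 * t)) (h' : D ≤ D' + L * g) : (E + 2 * L) * t ≤ D' := by
  have h2 : L * g ≤ L * (2 * t) := Nat.mul_le_mul_left _ hg
  have h4 : L * (2 * t) = 2 * (L * t) := by ring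
  have h3 : E * (2 * t) = 2 * (E * t) := by ring
  have h5 : (E + 2 * L) * t = E * t + 2 * (L * t) := by ring
  have h6 : 6 * (L * t) ≤ E * t := by
    calc 6 * (L * t) = 6 * L * t := by ring
      _ ≤ E * t := Nat.mul_le_mul_right _ (by omega)
  omega

section

variable {G J : Type} [Group G] {S : Set G} {P : J → Set G} {W : G → List G}
  {A C0 L : ℕ} {ρ : ℕ → ℕ → G} {D : ℕ → ℕ → ℕ}

/-- The word of a good edge. -/
theorem ew_good (dx dy k x y : ℕ) (h : E0 C0 L * 2 ^ k ≤ D x y) :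
    ew W (E0 C0 L) ρ D dx dy k x y = W ((ρ x y)⁻¹ * ρ (x + 2 ^ k * dx) (y + 2 ^ k * dy)) := by
  cases k with
  | zero =>
    rw [ew, if_pos (by simpa using h)]; simp
  | succ k => rw [ew, if_pos h]

theorem ew_split (dx dy k x y : ℕ) (h : D x y < E0 C0 L * 2 ^ (k + 1)) :
    ew W (E0 C0 L) ρ D dx dy (k + 1) x y = ew W (E0 C0 L) ρ D dx dy k x y ++
      ew W (E0 C0 L) ρ D dx dy k (x + 2 ^ k * dx) (y + 2 ^ k * dy) := by
  rw [ew, if_neg (by omega)]

theorem C0_le : 3 * C0 ≤ E0 C0 L := by unfold E0; omega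

theorem L_le : 6 * L + 1 ≤ E0 C0 L := by unfold E0; omega

theorem gd_edge (dx dy k x y : ℕ) (hd : dx + dy = 1) :
    gd x y (x + k * dx) (y + k * dy) = k := by
  unfold gd
  have : dx = 0 ∧ dy = 1 ∨ dx = 1 ∧ dy = 0 := by omega
  rcases this with ⟨rfl, rfl⟩ | ⟨rfl, rfl⟩
  · simp
  · simp

variable (hG : Grid G J S P W A C0 L ρ D)

include hG

/-- The words of the edges near a deep point: letters in a common `P j`. -/
theorem common (x y r : ℕ) (h : C0 * (r + 1) ≤ D x y) :
    ∃ j, ∀ x₁ y₁ x₂ y₂, gd x y x₁ y₁ ≤ r → gd x y x₂ y₂ ≤ r →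
      (ρ x₁ y₁)⁻¹ * ρ x₂ y₂ ∈ P j ∧
      (∀ s ∈ W ((ρ x₁ y₁)⁻¹ * ρ x₂ y₂), s ∈ S ∩ P j) ∧
      (W ((ρ x₁ y₁)⁻¹ * ρ x₂ y₂)).prod = (ρ x₁ y₁)⁻¹ * ρ x₂ y₂ ∧
      (W ((ρ x₁ y₁)⁻¹ * ρ x₂ y₂)).length ≤ A * (D x₁ y₁ + gd x₁ y₁ x₂ y₂ + 1) := by
  obtain ⟨j, hj⟩ := hG.hP x y r h
  refine ⟨j, fun x₁ y₁ x₂ y₂ h1 h2 => ?_⟩
  have h3 := hj x₁ y₁ x₂ y₂ h1 h2
  obtain ⟨h4, h5, h6⟩ := hG.hW _ ⟨j, h3⟩
  exact ⟨h3, fun s hs => ⟨h5 s hs, h6 j h3 s hs⟩, h4, hG.hlen _ _ _ _ ⟨j, h3⟩⟩

/-- Splitting an edge. -/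
theorem split (cq Aq B : ℕ) (hQ : ∀ j, QAr S (S ∩ P j) cq Aq) (dx dy : ℕ) (hd : dx + dy = 1)
    (k x y : ℕ) (hB : D x y ≤ B * 2 ^ (k + 1)) :
    Ar S cq (Aq * (3 * (A * (B + L + 2))) ^ 2 * 4 ^ (k + 1) + Aq * 4 ^ (k + 1))
      (ew W (E0 C0 L) ρ D dx dy (k + 1) x y)
      (ew W (E0 C0 L) ρ D dx dy k x y ++
        ew W (E0 C0 L) ρ D dx dy k (x + 2 ^ k * dx) (y + 2 ^ k * dy)) := by
  rcases lt_or_ge (D x y) (E0 C0 L * 2 ^ (k + 1)) with h | h
  · rw [ew_split dx dy k x y h]; exact Ar.refl _ _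
  · set t := 2 ^ k with ht
    have ht1 : 1 ≤ t := Nat.one_le_two_pow
    have h2t : 2 ^ (k + 1) = 2 * t := by rw [pow_succ]; ring
    rw [h2t] at h hB
    have hC := C0_le (C0 := C0) (L := L)
    have hL := L_le (C0 := C0) (L := L)
    -- the three points
    set x₁ := x + t * dx with hx₁
    set y₁ := y + t * dy with hy₁
    set x₂ := x + 2 ^ (k + 1) * dx with hx₂
    set y₂ := y + 2 ^ (k + 1) * dy with hy₂
    have g1 : gd x y x₁ y₁ = t := gd_edge dx dy t x y hd
    have g2 : gd x y x₂ y₂ = 2 * t := by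
      rw [hx₂, hy₂, h2t]; exact gd_edge dx dy (2 * t) x y hd
    have g0 : gd x y x y = 0 := by unfold gd; omega
    have g3 : gd x₁ y₁ x₂ y₂ = t := by
      have e1 : x₂ = x₁ + t * dx := by rw [hx₂, hx₁, h2t]; ring
      have e2 : y₂ = y₁ + t * dy := by rw [hy₂, hy₁, h2t]; ring
      rw [e1, e2]; exact gd_edge dx dy t x₁ y₁ hd
    have hD1 := hG.hD x₁ y₁ x y
    have g1' : gd x₁ y₁ x y = t := by rw [← g1]; unfold gd; omega
    rw [g1'] at hD1
    have hD2 := hG.hD x y x₁ y₁
    rw [g1] at hD2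
    have hgood0 : E0 C0 L * 2 ^ (k + 1) ≤ D x y := by rw [h2t]; exact h
    have hEt : E0 C0 L * (2 * t) = E0 C0 L * t + E0 C0 L * t := by ring
    have hLt : L * t ≤ E0 C0 L * t := Nat.mul_le_mul_right _ (by omega)
    have hgood1 : E0 C0 L * 2 ^ k ≤ D x y := by
      rw [← ht]; omega
    have hgood2 : E0 C0 L * 2 ^ k ≤ D x₁ y₁ := by
      rw [← ht]; omega
    have hB' : D x y ≤ B * (2 * t) + L * (2 * t) := hB.trans (Nat.le_add_right _ _)
    have hB1 : D x₁ y₁ ≤ B * (2 * t) + L * (2 * t) := by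
      have : L * (2 * t) = L * t + L * t := by ring
      omega
    rw [ew_good dx dy (k + 1) x y hgood0, ew_good dx dy k x y hgood1,
      ew_good dx dy k x₁ y₁ hgood2]
    have e1 : x₁ + 2 ^ k * dx = x₂ := by rw [hx₂, hx₁, h2t, ht]; ring
    have e2 : y₁ + 2 ^ k * dy = y₂ := by rw [hy₂, hy₁, h2t, ht]; ring
    rw [e1, e2]
    obtain ⟨j, hj⟩ := common hG x y (2 * t) (ar_C0 C0 _ t _ hC ht1 (by omega))
    obtain ⟨-, a1, a2, a3⟩ := hj x y x₂ y₂ (by omega) (by omega)
    obtain ⟨-, b1, b2, b3⟩ := hj x y x₁ y₁ (by omega) (by omega)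
    obtain ⟨-, c1, c2, c3⟩ := hj x₁ y₁ x₂ y₂ (by omega) (by omega)
    have hq := hQ j (W ((ρ x y)⁻¹ * ρ x₂ y₂))
      (W ((ρ x y)⁻¹ * ρ x₁ y₁) ++ W ((ρ x₁ y₁)⁻¹ * ρ x₂ y₂)) a1
      (by
        intro s hs
        rcases List.mem_append.mp hs with hs | hs
        · exact b1 s hs
        · exact c1 s hs)
      (by rw [List.prod_append, a2, b2, c2]; group)
    refine hq.mono_k ?_
    rw [List.length_append]
    have l1 : (W ((ρ x y)⁻¹ * ρ x₂ y₂)).length ≤ A * (B + L + 2) * (2 * t) := by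
      refine a3.trans ?_
      exact ar_len A B L _ _ _ hB' (by omega) (by omega)
    have l2 : (W ((ρ x y)⁻¹ * ρ x₁ y₁)).length ≤ A * (B + L + 2) * (2 * t) := by
      refine b3.trans ?_
      exact ar_len A B L _ _ _ hB' (by omega) (by omega)
    have l3 : (W ((ρ x₁ y₁)⁻¹ * ρ x₂ y₂)).length ≤ A * (B + L + 2) * (2 * t) := by
      refine c3.trans ?_
      exact ar_len A B L _ _ _ hB1 (by omega) (by omega)
    have h4 : 4 ^ (k + 1) = (2 * t) ^ 2 := by
      rw [← h2t, ← pow_mul, mul_comm (k + 1) 2, pow_mul]; norm_num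
    rw [h4]
    have h5 : (W ((ρ x y)⁻¹ * ρ x₂ y₂)).length + ((W ((ρ x y)⁻¹ * ρ x₁ y₁)).length +
        (W ((ρ x₁ y₁)⁻¹ * ρ x₂ y₂)).length) ≤ 3 * (A * (B + L + 2)) * (2 * t) := by
      have e : 3 * (A * (B + L + 2)) * (2 * t) = A * (B + L + 2) * (2 * t) +
        (A * (B + L + 2) * (2 * t) + A * (B + L + 2) * (2 * t)) := by ring
      omega
    have h6 := Nat.pow_le_pow_left h5 2
    have h7 : 1 ≤ (2 * t) ^ 2 := Nat.one_le_pow _ _ (by omega)
    calc _ ≤ Aq * (3 * (A * (B + L + 2)) * (2 * t)) ^ 2 + Aq * (2 * t) ^ 2 := by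
          refine Nat.add_le_add (Nat.mul_le_mul_left _ h6) ?_
          calc Aq = Aq * 1 := by ring
            _ ≤ Aq * (2 * t) ^ 2 := Nat.mul_le_mul_left _ h7
      _ = _ := by ring

/-- A good square. -/
theorem good (cq Aq B : ℕ) (hQ : ∀ j, QAr S (S ∩ P j) cq Aq) (k x y : ℕ)
    (h : (E0 C0 L + 2 * L) * 2 ^ k ≤ D x y) (hB : D x y ≤ B * 2 ^ k) :
    Ar S cq (Aq * (4 * (A * (B + L + 2))) ^ 2 * 4 ^ k + Aq * 4 ^ k)
      (ew W (E0 C0 L) ρ D 1 0 k x y ++ ew W (E0 C0 L) ρ D 0 1 k (x + 2 ^ k) y)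
      (ew W (E0 C0 L) ρ D 0 1 k x y ++ ew W (E0 C0 L) ρ D 1 0 k x (y + 2 ^ k)) := by
  set t := 2 ^ k with ht
  have ht1 : 1 ≤ t := Nat.one_le_two_pow
  have hC := C0_le (C0 := C0) (L := L)
  have hL := L_le (C0 := C0) (L := L)
  have q1 : gd x y (x + t) y = t := by unfold gd; omega
  have q2 : gd x y x (y + t) = t := by unfold gd; omega
  have q3 : gd x y (x + t) (y + t) = 2 * t := by unfold gd; omega
  have q0 : gd x y x y = 0 := by unfold gd; omega
  have q1' : gd (x + t) y x y = t := by unfold gd; omega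
  have q2' : gd x (y + t) x y = t := by unfold gd; omega
  have q4 : gd (x + t) y (x + t) (y + t) = t := by unfold gd; omega
  have q5 : gd x (y + t) (x + t) (y + t) = t := by unfold gd; omega
  have d1 := hG.hD (x + t) y x y
  have d2 := hG.hD x (y + t) x y
  have d1' := hG.hD x y (x + t) y
  have d2' := hG.hD x y x (y + t)
  rw [q1'] at d1
  rw [q2'] at d2
  rw [q1] at d1'
  rw [q2] at d2'
  have hEL : (E0 C0 L + 2 * L) * t = E0 C0 L * t + 2 * (L * t) := by ring
  have hg0 : E0 C0 L * 2 ^ k ≤ D x y := by rw [← ht]; omega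
  have hg1 : E0 C0 L * 2 ^ k ≤ D (x + t) y := by rw [← ht]; omega
  have hg2 : E0 C0 L * 2 ^ k ≤ D x (y + t) := by rw [← ht]; omega
  have hB0 : D x y ≤ B * t + L * t := hB.trans (Nat.le_add_right _ _)
  have hB1 : D (x + t) y ≤ B * t + L * t := by omega
  have hB2 : D x (y + t) ≤ B * t + L * t := by omega
  rw [ew_good 1 0 k x y hg0, ew_good 0 1 k (x + t) y hg1, ew_good 0 1 k x y hg0,
    ew_good 1 0 k x (y + t) hg2]
  rw [← ht]
  simp only [mul_one, mul_zero, add_zero]
  obtain ⟨j, hj⟩ := common hG x y (2 * t) (ar_C0 C0 _ t _ hC ht1 (by omega))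
  obtain ⟨-, a1, a2, a3⟩ := hj x y (x + t) y (by omega) (by omega)
  obtain ⟨-, b1, b2, b3⟩ := hj (x + t) y (x + t) (y + t) (by omega) (by omega)
  obtain ⟨-, c1, c2, c3⟩ := hj x y x (y + t) (by omega) (by omega)
  obtain ⟨-, e1, e2, e3⟩ := hj x (y + t) (x + t) (y + t) (by omega) (by omega)
  have hq := hQ j _ _
    (by
      intro s hs
      rcases List.mem_append.mp hs with hs | hs
      · exact a1 s hs
      · exact b1 s hs)
    (by
      intro s hs
      rcases List.mem_append.mp hs with hs | hs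
      · exact c1 s hs
      · exact e1 s hs)
    (show (W ((ρ x y)⁻¹ * ρ (x + t) y) ++ W ((ρ (x + t) y)⁻¹ * ρ (x + t) (y + t))).prod =
      (W ((ρ x y)⁻¹ * ρ x (y + t)) ++ W ((ρ x (y + t))⁻¹ * ρ (x + t) (y + t))).prod by
      rw [List.prod_append, List.prod_append, a2, b2, c2, e2]; group)
  refine hq.mono_k ?_
  rw [List.length_append, List.length_append]
  have l1 : (W ((ρ x y)⁻¹ * ρ (x + t) y)).length ≤ A * (B + L + 2) * t := by
    exact a3.trans (ar_len A B L _ _ _ hB0 (by omega) (by omega))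
  have l2 : (W ((ρ (x + t) y)⁻¹ * ρ (x + t) (y + t))).length ≤ A * (B + L + 2) * t := by
    exact b3.trans (ar_len A B L _ _ _ hB1 (by omega) (by omega))
  have l3 : (W ((ρ x y)⁻¹ * ρ x (y + t))).length ≤ A * (B + L + 2) * t := by
    exact c3.trans (ar_len A B L _ _ _ hB0 (by omega) (by omega))
  have l4 : (W ((ρ x (y + t))⁻¹ * ρ (x + t) (y + t))).length ≤ A * (B + L + 2) * t := by
    exact e3.trans (ar_len A B L _ _ _ hB2 (by omega) (by omega))
  have h4 : 4 ^ k = t ^ 2 := by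
    rw [ht, ← pow_mul, mul_comm k 2, pow_mul]; norm_num
  rw [h4]
  have h5 : (W ((ρ x y)⁻¹ * ρ (x + t) y)).length +
      (W ((ρ (x + t) y)⁻¹ * ρ (x + t) (y + t))).length +
      ((W ((ρ x y)⁻¹ * ρ x (y + t))).length +
      (W ((ρ x (y + t))⁻¹ * ρ (x + t) (y + t))).length) ≤ 4 * (A * (B + L + 2)) * t := by
    have e : 4 * (A * (B + L + 2)) * t = A * (B + L + 2) * t + A * (B + L + 2) * t +
      (A * (B + L + 2) * t + A * (B + L + 2) * t) := by ring
    omega
  have h6 := Nat.pow_le_pow_left h5 2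
  have h7 : 1 ≤ t ^ 2 := Nat.one_le_pow _ _ (by omega)
  calc _ ≤ Aq * (4 * (A * (B + L + 2)) * t) ^ 2 + Aq * t ^ 2 := by
        refine Nat.add_le_add (Nat.mul_le_mul_left _ h6) ?_
        calc Aq = Aq * 1 := by ring
          _ ≤ Aq * t ^ 2 := Nat.mul_le_mul_left _ h7
    _ = _ := by ring

end

end GRD2

open GRD2

theorem st_GRD2 (h0 : ST_GRD0) (h1 : ST_GRD1) : ST_GRD2 := by
  intro A C0 L M0 cq Aq
  set E := E0 C0 L with hE
  set B := max M0 (2 * (E + 2 * L) + 2 * L) with hBdef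
  obtain ⟨Ml, hMl⟩ := h1 A C0 L B
  set KG := Aq * (4 * (A * (B + L + 2))) ^ 2 + Aq with hKG
  set KS := Aq * (3 * (A * (B + L + 2))) ^ 2 + Aq with hKS
  set M := 4 * (4 * (Aq * (4 * (A * (2 * (B + L) + L + 2))) ^ 2 + Aq)) + 4 * KS + KG + 1 with hM
  set c := max cq (2 * Ml) with hc
  refine ⟨M, c, ?_⟩
  intro G J _ S P W ρ D hG hQ
  have hCle := C0_le (C0 := C0) (L := L)
  have hLle := L_le (C0 := C0) (L := L)
  rw [← hE] at hCle hLle
  have hB1 : M0 ≤ B := le_max_left _ _
  have hB2 : 2 * (E + 2 * L) + 2 * L ≤ B := le_max_right _ _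
  have claim : ∀ k x y, D x y ≤ B * 2 ^ k → Ar S c (M * 4 ^ k)
      (ew W E ρ D 1 0 k x y ++ ew W E ρ D 0 1 k (x + 2 ^ k) y)
      (ew W E ρ D 0 1 k x y ++ ew W E ρ D 1 0 k x (y + 2 ^ k)) := by
    intro k
    induction k with
    | zero =>
      intro x y hD
      rcases le_or_gt ((E + 2 * L) * 2 ^ 0) (D x y) with h | h
      · have hg := good hG cq Aq B hQ 0 x y h hD
        refine (hg.mono (le_max_left _ _) (le_refl S)).mono_k ?_
        have : Aq * (4 * (A * (B + L + 2))) ^ 2 * 4 ^ 0 + Aq * 4 ^ 0 = KG := by rw [hKG]; ring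
        rw [this, pow_zero, mul_one, hM]; omega
      · -- a bounded relator
        rw [pow_zero, mul_one] at h
        have hD0 : D x y ≤ B * 2 ^ 0 := hD
        have q1 : gd x y (x + 1) y = 1 := by unfold gd; omega
        have q2 : gd x y x (y + 1) = 1 := by unfold gd; omega
        have d1 := hG.hD x y (x + 1) y
        have d2 := hG.hD x y x (y + 1)
        rw [q1] at d1
        rw [q2] at d2
        have hD1 : D (x + 1) y ≤ B * 2 ^ 0 := by rw [pow_zero]; omega
        have hD2 : D x (y + 1) ≤ B * 2 ^ 0 := by rw [pow_zero]; omega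
        obtain ⟨p1, m1, -⟩ := h0 G J S P W A C0 L ρ D hG 1 0 rfl 0 x y
        obtain ⟨p2, m2, -⟩ := h0 G J S P W A C0 L ρ D hG 0 1 rfl 0 (x + 2 ^ 0) y
        obtain ⟨p3, m3, -⟩ := h0 G J S P W A C0 L ρ D hG 0 1 rfl 0 x y
        obtain ⟨p4, m4, -⟩ := h0 G J S P W A C0 L ρ D hG 1 0 rfl 0 x (y + 2 ^ 0)
        have l1 := hMl G J S P W ρ D hG 1 0 rfl 0 x y hD
        have l2 := hMl G J S P W ρ D hG 0 1 rfl 0 (x + 2 ^ 0) y hD1
        have l3 := hMl G J S P W ρ D hG 0 1 rfl 0 x y hD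
        have l4 := hMl G J S P W ρ D hG 1 0 rfl 0 x (y + 2 ^ 0) hD2
        rw [← hE] at p1 p2 p3 p4 m1 m2 m3 m4 l1 l2 l3 l4
        have hcM : 2 * Ml ≤ c := le_max_right _ _
        rw [pow_zero, mul_one] at l1 l2 l3 l4
        have hone : Ar S c 1 (ew W E ρ D 1 0 0 x y ++ ew W E ρ D 0 1 0 (x + 2 ^ 0) y)
            (ew W E ρ D 0 1 0 x y ++ ew W E ρ D 1 0 0 x (y + 2 ^ 0)) := by
          refine Ar.whole ?_ ?_ ?_ ?_ ?_
          · rw [List.prod_append, List.prod_append, p1, p2, p3, p4]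
            simp only [pow_zero, mul_one, mul_zero, add_zero]
            group
          · rw [List.length_append]; rw [pow_zero]; omega
          · rw [List.length_append]; rw [pow_zero]; omega
          · intro s hs
            rcases List.mem_append.mp hs with hs | hs
            · exact m1 s hs
            · exact m2 s hs
          · intro s hs
            rcases List.mem_append.mp hs with hs | hs
            · exact m3 s hs
            · exact m4 s hs
        refine hone.mono_k ?_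
        rw [pow_zero, mul_one, hM]; omega
    | succ k ih =>
      intro x y hD
      rcases le_or_gt ((E + 2 * L) * 2 ^ (k + 1)) (D x y) with h | h
      · have hg := good hG cq Aq B hQ (k + 1) x y h hD
        refine (hg.mono (le_max_left _ _) (le_refl S)).mono_k ?_
        have : Aq * (4 * (A * (B + L + 2))) ^ 2 * 4 ^ (k + 1) + Aq * 4 ^ (k + 1) =
          KG * 4 ^ (k + 1) := by rw [hKG]; ring
        rw [this]
        refine Nat.mul_le_mul_right _ ?_
        rw [hM]; omega
      · set t := 2 ^ k with ht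
        have ht1 : 1 ≤ t := Nat.one_le_two_pow
        have h2t : 2 ^ (k + 1) = 2 * t := by rw [pow_succ]; ring
        have h4k : 4 ^ (k + 1) = 4 * 4 ^ k := by rw [pow_succ]; ring
        -- depths of the corners and subcorners
        have hd : ∀ x' y', gd x y x' y' ≤ 2 * t → D x' y' ≤ B * t := by
          intro x' y' hg
          have h6 := hG.hD x y x' y'
          have h5 : L * gd x y x' y' ≤ L * (2 * t) := Nat.mul_le_mul_left _ hg
          rw [h2t] at h
          have h7 : (2 * (E + 2 * L) + 2 * L) * t ≤ B * t := Nat.mul_le_mul_right _ hB2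
          have h8 : (2 * (E + 2 * L) + 2 * L) * t = (E + 2 * L) * (2 * t) + L * (2 * t) := by ring
          omega
        have hd2 : ∀ x' y', gd x y x' y' ≤ 2 * t → D x' y' ≤ B * 2 ^ (k + 1) := by
          intro x' y' hg
          have h6 := hd x' y' hg
          rw [h2t]
          exact h6.trans (Nat.mul_le_mul_left _ (by omega))
        -- the splittings
        have sp : ∀ (dx dy : ℕ), dx + dy = 1 → ∀ x' y', gd x y x' y' ≤ 2 * t →
            Ar S c (KS * 4 ^ (k + 1)) (ew W E ρ D dx dy (k + 1) x' y')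
              (ew W E ρ D dx dy k x' y' ++
                ew W E ρ D dx dy k (x' + 2 ^ k * dx) (y' + 2 ^ k * dy)) := by
          intro dx dy hdd x' y' hg
          have := split hG cq Aq B hQ dx dy hdd k x' y' (hd2 x' y' hg)
          refine (this.mono (le_max_left _ _) (le_refl S)).mono_k ?_
          rw [hKS]
          exact le_of_eq (by ring)
        have sp0 : ∀ (dx dy : ℕ), ∀ x' y', D x' y' < E * 2 ^ (k + 1) →
            Ar S c 0 (ew W E ρ D dx dy (k + 1) x' y')
              (ew W E ρ D dx dy k x' y' ++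
                ew W E ρ D dx dy k (x' + 2 ^ k * dx) (y' + 2 ^ k * dy)) := by
          intro dx dy x' y' hg
          rw [hE, ew_split dx dy k x' y' (by rw [← hE]; exact hg)]
          exact Ar.refl _ _
        have g1 : gd x y (x + t) y = t := by unfold gd; omega
        have g2 : gd x y x (y + t) = t := by unfold gd; omega
        have g3 : gd x y (x + t) (y + t) = 2 * t := by unfold gd; omega
        have g0 : gd x y x y = 0 := by unfold gd; omega
        have g4 : gd x y (x + 2 * t) y = 2 * t := by unfold gd; omega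
        have g5 : gd x y x (y + 2 * t) = 2 * t := by unfold gd; omega
        -- assembling: from splittings of cost `a` and squares of cost `b`
        have asm : ∀ a b : ℕ,
            (∀ (dx dy : ℕ), dx + dy = 1 → ∀ x' y', (x' = x ∧ y' = y ∨ x' = x + 2 * t ∧ y' = y ∨
              x' = x ∧ y' = y + 2 * t) →
              Ar S c a (ew W E ρ D dx dy (k + 1) x' y')
              (ew W E ρ D dx dy k x' y' ++
                ew W E ρ D dx dy k (x' + 2 ^ k * dx) (y' + 2 ^ k * dy))) →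
            (∀ x' y', gd x y x' y' ≤ 2 * t → Ar S c b
              (ew W E ρ D 1 0 k x' y' ++ ew W E ρ D 0 1 k (x' + t) y')
              (ew W E ρ D 0 1 k x' y' ++ ew W E ρ D 1 0 k x' (y' + t))) →
            Ar S c (4 * a + 4 * b)
              (ew W E ρ D 1 0 (k + 1) x y ++ ew W E ρ D 0 1 (k + 1) (x + 2 ^ (k + 1)) y)
              (ew W E ρ D 0 1 (k + 1) x y ++ ew W E ρ D 1 0 (k + 1) x (y + 2 ^ (k + 1))) := by
          intro a b ha hb
          have r1 := ha 1 0 rfl x y (Or.inl ⟨rfl, rfl⟩)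
          have r2 := ha 0 1 rfl (x + 2 * t) y (Or.inr (Or.inl ⟨rfl, rfl⟩))
          have r3 := ha 0 1 rfl x y (Or.inl ⟨rfl, rfl⟩)
          have r4 := ha 1 0 rfl x (y + 2 * t) (Or.inr (Or.inr ⟨rfl, rfl⟩))
          simp only [mul_one, mul_zero, add_zero] at r1 r2 r3 r4
          rw [← ht] at r1 r2 r3 r4
          have s1 := hb x y (by omega)
          have s2 := hb (x + t) y (by omega)
          have s3 := hb x (y + t) (by omega)
          have s4 := hb (x + t) (y + t) (by omega)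
          have e1 : x + t + t = x + 2 * t := by ring
          have e2 : y + t + t = y + 2 * t := by ring
          rw [e1] at s2 s4
          rw [e2] at s3 s4
          rw [h2t]
          -- R(x) R(x+t) U(x+2t) U(x+2t, y+t)
          have a1 := r1.append r2
          have a2 := (s2.left (ew W E ρ D 1 0 k x y)).right (ew W E ρ D 0 1 k (x + 2 * t) (y + t))
          have a3 := s1.right (ew W E ρ D 1 0 k (x + t) (y + t) ++
            ew W E ρ D 0 1 k (x + 2 * t) (y + t))
          have a4 := s4.left (ew W E ρ D 0 1 k x y ++ ew W E ρ D 1 0 k x (y + t))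
          have a5 := (s3.left (ew W E ρ D 0 1 k x y)).right
            (ew W E ρ D 1 0 k (x + t) (y + 2 * t))
          have a6 := (r3.append r4).symm
          simp only [List.append_assoc] at a1 a2 a3 a4 a5 a6 ⊢
          have a7 := ((((a1.trans a2).trans a3).trans a4).trans a5).trans a6
          exact a7.mono_k (by omega)
        by_cases hgood : E * 2 ^ (k + 1) ≤ D x y ∨ E * 2 ^ (k + 1) ≤ D (x + 2 * t) y ∨
            E * 2 ^ (k + 1) ≤ D x (y + 2 * t)
        · -- the children are good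
          have hdeep : E * (2 * t) ≤ D x y + L * (2 * t) := by
            have d1 := hG.hD x y (x + 2 * t) y
            have d2 := hG.hD x y x (y + 2 * t)
            rw [g4] at d1
            rw [g5] at d2
            rw [h2t] at hgood
            omega
          have hchild : ∀ x' y', gd x y x' y' ≤ 2 * t →
              (E + 2 * L) * 2 ^ k ≤ D x' y' := by
            intro x' y' hg
            have d1 := hG.hD x' y' x y
            have hg' : gd x' y' x y = gd x y x' y' := by unfold gd; omega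
            rw [hg'] at d1
            rw [← ht]
            exact ar_child E L t (D x y) (D x' y') _ hLle hg hdeep d1
          have hres := asm (KS * 4 ^ (k + 1))
            ((Aq * (4 * (A * (2 * (B + L) + L + 2))) ^ 2 + Aq) * 4 ^ k)
            (fun dx dy hdd x' y' hxy => sp dx dy hdd x' y' (by
              rcases hxy with ⟨rfl, rfl⟩ | ⟨rfl, rfl⟩ | ⟨rfl, rfl⟩ <;> omega))
            (fun x' y' hg => by
              have hBB : D x' y' ≤ (2 * (B + L)) * 2 ^ k := by
                have := hd x' y' hg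
                rw [← ht]
                exact this.trans (Nat.mul_le_mul_right _ (by omega))
              have h5 := good hG cq Aq (2 * (B + L)) hQ k x' y' (hchild x' y' hg) hBB
              rw [← ht] at h5
              refine (h5.mono (le_max_left _ _) (le_refl S)).mono_k ?_
              exact le_of_eq (by ring))
          refine hres.mono_k ?_
          rw [h4k]
          exact ar_final KG KS _ M (4 ^ k) hM
        · simp only [not_or, not_le] at hgood
          obtain ⟨hn1, hn2, hn3⟩ := hgood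
          have hres := asm 0 (M * 4 ^ k)
            (fun dx dy hdd x' y' hxy => sp0 dx dy x' y' (by
              rcases hxy with ⟨rfl, rfl⟩ | ⟨rfl, rfl⟩ | ⟨rfl, rfl⟩
              · exact hn1
              · exact hn2
              · exact hn3))
            (fun x' y' hg => by
              exact ih x' y' (hd x' y' hg))
          refine hres.mono_k ?_
          rw [h4k]
          exact le_of_eq (by ring)
  intro k x y hD
  exact claim k x y (hD.trans (Nat.mul_le_mul_right _ hB1))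

end QN
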