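import Pool.Agent.Helper24.QD.ArB

set_option autoImplicit false

/-!
`GL_n(ℤ[1/m])` has quadratic Dehn function: definitions and statements of the modules.
-/

namespace QN

open QD

/-! ### Words -/

/-- Any two words in `T` with the same product are joined by quadratically many moves over `S`. -/
def QAr {G : Type} [Group G] (S T : Set G) (c A : ℕ) : Prop :=
  ∀ u v : List G, (∀ g ∈ u, g ∈ T) → (∀ g ∈ v, g ∈ T) → u.prod = v.prod →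
    Ar S c (A * (u.length + v.length) ^ 2 + A) u v

/-! ### Matrices -/

/-- `g` and `g⁻¹` have entries of absolute value at most `2 ^ k` at all places. -/
def SizeLe (m : ℕ) {n : ℕ} (k : ℕ) (g : GL (Fin n) ℚ) : Prop :=
  ∀ (v : Pl m) (x y : Fin n), av m v (g.1 x y) ≤ 2 ^ k ∧ av m v ((g⁻¹).1 x y) ≤ 2 ^ k

/-- The stabiliser of the span of the first `i` basis vectors. -/
def Pst {n : ℕ} (i : ℕ) : Subgroup (GL (Fin n) ℚ) where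
  carrier := {g | ∀ x y : Fin n, (y : ℕ) < i → i ≤ (x : ℕ) → g.1 x y = 0 ∧ (g⁻¹).1 x y = 0}
  one_mem' := by
    intro x y hy hx
    have h : x ≠ y := by rintro rfl; omega
    constructor
    · show (1 : Matrix (Fin n) (Fin n) ℚ) x y = 0
      exact Matrix.one_apply_ne h
    · rw [inv_one]
      show (1 : Matrix (Fin n) (Fin n) ℚ) x y = 0
      exact Matrix.one_apply_ne h
  mul_mem' := by
    intro g h hg hh x y hy hx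
    constructor
    · show (g.1 * h.1) x y = 0
      rw [Matrix.mul_apply]
      refine Finset.sum_eq_zero fun z _ => ?_
      rcases lt_or_ge (z : ℕ) i with hz | hz
      · rw [(hg x z hz hx).1, zero_mul]
      · rw [(hh z y hy hz).1, mul_zero]
    · rw [mul_inv_rev]
      show ((h⁻¹).1 * (g⁻¹).1) x y = 0
      rw [Matrix.mul_apply]
      refine Finset.sum_eq_zero fun z _ => ?_
      rcases lt_or_ge (z : ℕ) i with hz | hz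
      · rw [(hh x z hz hx).2, zero_mul]
      · rw [(hg z y hy hz).2, mul_zero]
  inv_mem' := by
    intro g hg x y hy hx
    refine ⟨(hg x y hy hx).2, ?_⟩
    rw [inv_inv]
    exact (hg x y hy hx).1

/-- Block diagonal matrices, as a homomorphism of monoids of matrices. -/
def bdM (i j : ℕ) : Matrix (Fin i) (Fin i) ℚ × Matrix (Fin j) (Fin j) ℚ →*
    Matrix (Fin (i + j)) (Fin (i + j)) ℚ where
  toFun p := (Matrix.fromBlocks p.1 0 0 p.2).submatrix finSumFinEquiv.symm finSumFinEquiv.symm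
  map_one' := by
    rw [Prod.fst_one, Prod.snd_one, Matrix.fromBlocks_one, Matrix.submatrix_one_equiv]
  map_mul' := by
    intro p q
    rw [Matrix.submatrix_mul_equiv, Matrix.fromBlocks_multiply]
    simp

/-- Block diagonal matrices `diag(a, d)`. -/
def bd (i j : ℕ) : GL (Fin i) ℚ × GL (Fin j) ℚ →* GL (Fin (i + j)) ℚ :=
  (Units.map (bdM i j)).comp MulEquiv.prodUnits.symm.toMonoidHom

/-! ### Norm families -/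

/-- The basic norm family: the sum of the absolute values of the coordinates. -/
noncomputable def N0 (m n : ℕ) : Pl m → (Fin n → ℚ) → ℚ := fun v x => ∑ j, av m v (x j)

/-- Norm families. -/
structure IsNF (m n : ℕ) (N : Pl m → (Fin n → ℚ) → ℚ) : Prop where
  smul : ∀ v (c : ℚ) x, N v (c • x) = av m v c * N v x
  add : ∀ v x y, N v (x + y) ≤ N v x + N v y
  bd : ∃ R : ℕ, ∀ v x, N0 m n v x ≤ 2 ^ R * N v x ∧ N v x ≤ 2 ^ R * N0 m n v x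

/-- The distance of `N` and `N'` is at most `r`. -/
def Close {m n : ℕ} (r : ℕ) (N N' : Pl m → (Fin n → ℚ) → ℚ) : Prop :=
  ∀ v x, N v x ≤ 2 ^ r * N' v x ∧ N' v x ≤ 2 ^ r * N v x

/-- The norm family `2 ^ t · N ∘ g⁻¹`. -/
noncomputable def actN {m n : ℕ} (t : ℤ) (g : GL (Fin n) ℚ) (N : Pl m → (Fin n → ℚ) → ℚ) :
    Pl m → (Fin n → ℚ) → ℚ := fun v x => 2 ^ t * N v ((g⁻¹).1.mulVec x)

/-- The maximum of two norm families. -/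
def maxN {m n : ℕ} (N N' : Pl m → (Fin n → ℚ) → ℚ) : Pl m → (Fin n → ℚ) → ℚ :=
  fun v x => max (N v x) (N' v x)

/-- The lattice `B ^ n`. -/
def Lam (m n : ℕ) : Set (Fin n → ℚ) := {x | ∀ j, x j ∈ Bm m}

/-- Lattice vectors of norm at most `2 ^ t` at all places. -/
def lev {m n : ℕ} (N : Pl m → (Fin n → ℚ) → ℚ) (t : ℤ) : Set (Fin n → ℚ) :=
  {x | x ∈ Lam m n ∧ ∀ v, N v x ≤ 2 ^ t}

/-- Their span. -/
def Wt {m n : ℕ} (N : Pl m → (Fin n → ℚ) → ℚ) (t : ℤ) : Submodule ℚ (Fin n → ℚ) :=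
  Submodule.span ℚ (lev N t)

/-! ### Statements: number theory and lattices -/

/-- a non-zero element of `B` is large somewhere -/
def ST_PF : Prop := ∀ (m : ℕ) (β : ℚ), 0 < m → β ∈ Bm m → β ≠ 0 → ∃ v, 1 ≤ av m v β

/-- unit scaling -/
def ST_UNT : Prop := ∀ (m : ℕ) (a : ℚ), 0 < m → a ∈ Bm m → a ≠ 0 →
  ∃ u : ℚ, u ∈ Bm m ∧ u⁻¹ ∈ Bm m ∧ u ≠ 0 ∧ ∀ v, 1 ≤ av m v (a * u)

/-- Hermite form: `GL_n(ℚ) = GL_n(ℤ) B_n(ℚ)` -/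
def ST_HNF : Prop := ∀ (n : ℕ) (X : GL (Fin n) ℚ), ∃ γ : GL (Fin n) ℚ,
  (∀ B : Subring ℚ, γ ∈ GLB B) ∧ ∀ x y : Fin n, y < x → (X⁻¹ * γ).1 x y = 0

/-- adapted bases of the lattice -/
def ST_BAS : Prop := ∀ (m n : ℕ), 0 < m → ∀ X : GL (Fin n) ℚ, (∀ x y, X.1 x y ∈ Bm m) →
  ∃ γ : GL (Fin n) ℚ, γ ∈ GLB (Bm m) ∧ (∀ x y : Fin n, y < x → (X⁻¹ * γ).1 x y = 0) ∧
    ∀ v x y, av m v ((X⁻¹ * γ).1 x y) ≤ 1

/-- levels -/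
def ST_LVL : Prop := ∀ (m n : ℕ), 0 < m → 0 < n → ∀ N, IsNF m n N →
  ∃ t₁ tn : ℤ, t₁ ≤ tn ∧ (∀ x ∈ lev N (t₁ - 1), x = 0) ∧ (∃ x ∈ lev N t₁, x ≠ 0) ∧
    Wt N tn = ⊤ ∧ Wt N (tn - 1) ≠ ⊤

/-- successive minima vectors, adapted to all levels -/
def ST_FLG : Prop := ∀ (m n : ℕ), 0 < m → ∀ N, IsNF m n N → ∀ tn : ℤ, Wt N tn = ⊤ →
  ∃ X : GL (Fin n) ℚ, (∀ j, (fun i => X.1 i j) ∈ lev N tn) ∧
    ∀ t : ℤ, ∃ i : ℕ, i ≤ n ∧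
      ∀ x, x ∈ Wt N t ↔ ∀ j : Fin n, i ≤ (j : ℕ) → ((X⁻¹).1.mulVec x) j = 0

/-- Dirichlet at the real place -/
def ST_MNKr : Prop := ∀ (m n : ℕ), 0 < m → 6 ∣ m → ∃ C : ℕ, ∀ N : Pl m → (Fin n → ℚ) → ℚ,
  (∀ v (c : ℚ) x, N v (c • x) = av m v c * N v x) → (∀ v x y, N v (x + y) ≤ N v x + N v y) →
  (∀ x ∈ Lam m n, x ≠ 0 → ∃ v, 1 < N v x) →
  ∀ k : ℕ, (∀ v j, N v (Pi.single j 1) ≤ 2 ^ k) → ∀ y ∈ Lam m n, (∀ v, N v y ≤ 2 ^ k) →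
    ∀ j, av m none (y j) ≤ 2 ^ (C * (k + 1))

/-- Dirichlet at a `p`-adic place -/
def ST_MNKp : Prop := ∀ (m n : ℕ), 0 < m → 6 ∣ m → ∃ C : ℕ, ∀ N : Pl m → (Fin n → ℚ) → ℚ,
  (∀ v (c : ℚ) x, N v (c • x) = av m v c * N v x) → (∀ v x y, N v (x + y) ≤ N v x + N v y) →
  (∀ x ∈ Lam m n, x ≠ 0 → ∃ v, 1 < N v x) →
  ∀ k : ℕ, (∀ v j, N v (Pi.single j 1) ≤ 2 ^ k) → ∀ y ∈ Lam m n, (∀ v, N v y ≤ 2 ^ k) →
    ∀ p j, av m (some p) (y j) ≤ 2 ^ (C * (k + 1))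

/-- sizes of changes of basis -/
def ST_SIZ : Prop := ∀ (m n : ℕ), 0 < m → 6 ∣ m → ∃ C : ℕ, ∀ N, IsNF m n N → ∀ (t₁ : ℤ) (a : ℕ),
  (∀ x ∈ lev N (t₁ - 1), x = 0) → ∀ γ γ' : GL (Fin n) ℚ, γ ∈ GLB (Bm m) → γ' ∈ GLB (Bm m) →
  (∀ v j, N v (fun i => γ.1 i j) ≤ 2 ^ (t₁ + a)) →
  (∀ v j, N v (fun i => γ'.1 i j) ≤ 2 ^ (t₁ + a)) → SizeLe m (C * (a + 1)) (γ⁻¹ * γ')

/-- the reduction map `ρ` and the depth `D` -/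
def ST_GEO : Prop := ∀ (m n : ℕ), 0 < m → 6 ∣ m → 0 < n →
  ∃ (C : ℕ) (ρ : (Pl m → (Fin n → ℚ) → ℚ) → GL (Fin n) ℚ)
    (D : (Pl m → (Fin n → ℚ) → ℚ) → ℕ),
    (∀ N, IsNF m n N → ρ N ∈ GLB (Bm m)) ∧
    (∀ N N' r, IsNF m n N → IsNF m n N' → Close r N N' → D N' ≤ D N + 2 * r) ∧
    (∀ N N' r, IsNF m n N → IsNF m n N' → Close r N N' →
      SizeLe m (C * (D N + r + 1)) ((ρ N)⁻¹ * ρ N')) ∧
    (∀ N r, IsNF m n N → C * (r + 1) ≤ D N → ∃ i, 0 < i ∧ i < n ∧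
      ∀ N' N'', IsNF m n N' → IsNF m n N'' → Close r N N' → Close r N N'' →
        (ρ N')⁻¹ * ρ N'' ∈ Pst i) ∧
    (∀ (g : GL (Fin n) ℚ) (t : ℤ), g ∈ GLB (Bm m) → D (actN t g (N0 m n)) = 0 ∧
      SizeLe m C (g⁻¹ * ρ (actN t g (N0 m n))))

/-- operations on norm families -/
def ST_NRM : Prop := ∀ (m n : ℕ), IsNF m n (N0 m n) ∧
  (∀ N (t : ℤ) (g : GL (Fin n) ℚ), IsNF m n N → IsNF m n (actN t g N)) ∧
  (∀ N N', IsNF m n N → IsNF m n N' → IsNF m n (maxN N N')) ∧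
  (∀ (N : Pl m → (Fin n → ℚ) → ℚ), Close 0 N N) ∧
  (∀ (N N' : Pl m → (Fin n → ℚ) → ℚ) r, Close r N N' → Close r N' N) ∧
  (∀ (N N' N'' : Pl m → (Fin n → ℚ) → ℚ) r s, Close r N N' → Close s N' N'' →
    Close (r + s) N N'') ∧
  (∀ (N₁ N₂ N₁' N₂' : Pl m → (Fin n → ℚ) → ℚ) r, Close r N₁ N₁' → Close r N₂ N₂' →
    Close r (maxN N₁ N₂) (maxN N₁' N₂')) ∧
  (∀ (N : Pl m → (Fin n → ℚ) → ℚ), IsNF m n N → ∀ (t : ℤ) (g : GL (Fin n) ℚ),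
    Close 1 (actN t g N) (actN (t + 1) g N)) ∧
  (∃ e : ℕ, ∀ (t : ℤ) (g h : GL (Fin n) ℚ) (k : ℕ), SizeLe m k h →
    Close (k + e) (actN t g (N0 m n)) (actN t (g * h) (N0 m n))) ∧
  (∀ (s t : ℤ) (g h : GL (Fin n) ℚ) (r : ℕ),
    Close r (actN (m := m) s g (N0 m n)) (actN s h (N0 m n)) → t + r ≤ s →
    maxN (actN (m := m) s g (N0 m n)) (actN t h (N0 m n)) = actN s g (N0 m n))

/-! ### Statements: the grid -/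

/-- The `ℓ¹` distance on `ℕ × ℕ`. -/
def gd (x y x' y' : ℕ) : ℕ := (x - x') + (x' - x) + ((y - y') + (y' - y))

/-- The threshold for good edges. -/
def E0 (C0 L : ℕ) : ℕ := 3 * C0 + 6 * L + 1

/-- The data for the filling. -/
structure Grid (G J : Type) [Group G] (S : Set G) (P : J → Set G) (W : G → List G)
    (A C0 L : ℕ) (ρ : ℕ → ℕ → G) (D : ℕ → ℕ → ℕ) : Prop where
  hW : ∀ g, (∃ j, g ∈ P j) → (W g).prod = g ∧ (∀ s ∈ W g, s ∈ S) ∧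
    ∀ j, g ∈ P j → ∀ s ∈ W g, s ∈ P j
  hlen : ∀ x y x' y', (∃ j, (ρ x y)⁻¹ * ρ x' y' ∈ P j) →
    (W ((ρ x y)⁻¹ * ρ x' y')).length ≤ A * (D x y + gd x y x' y' + 1)
  hD : ∀ x y x' y', D x' y' ≤ D x y + L * gd x y x' y'
  hP : ∀ x y r, C0 * (r + 1) ≤ D x y → ∃ j, ∀ x₁ y₁ x₂ y₂, gd x y x₁ y₁ ≤ r →
    gd x y x₂ y₂ ≤ r → (ρ x₁ y₁)⁻¹ * ρ x₂ y₂ ∈ P j
  hS : ∀ x y x' y', gd x y x' y' ≤ 1 → D x y < E0 C0 L → (ρ x y)⁻¹ * ρ x' y' ∈ S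

/-- The word of the edge of length `2 ^ k` in direction `(dx, dy)` starting at `(x, y)`. -/
noncomputable def ew {G : Type} [Group G] (W : G → List G) (E : ℕ) (ρ : ℕ → ℕ → G)
    (D : ℕ → ℕ → ℕ) (dx dy : ℕ) : ℕ → ℕ → ℕ → List G
  | 0, x, y => if E ≤ D x y then W ((ρ x y)⁻¹ * ρ (x + dx) (y + dy))
      else [(ρ x y)⁻¹ * ρ (x + dx) (y + dy)]
  | k + 1, x, y => if E * 2 ^ (k + 1) ≤ D x y then
      W ((ρ x y)⁻¹ * ρ (x + 2 ^ (k + 1) * dx) (y + 2 ^ (k + 1) * dy))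
      else ew W E ρ D dx dy k x y ++ ew W E ρ D dx dy k (x + 2 ^ k * dx) (y + 2 ^ k * dy)

/-- letters and products of the edge words -/
def ST_GRD0 : Prop := ∀ (G J : Type) [Group G] (S : Set G) (P : J → Set G) (W : G → List G)
  (A C0 L : ℕ) (ρ : ℕ → ℕ → G) (D : ℕ → ℕ → ℕ), Grid G J S P W A C0 L ρ D →
  ∀ (dx dy : ℕ), dx + dy = 1 → ∀ k x y,
    (ew W (E0 C0 L) ρ D dx dy k x y).prod = (ρ x y)⁻¹ * ρ (x + 2 ^ k * dx) (y + 2 ^ k * dy) ∧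
    (∀ s ∈ ew W (E0 C0 L) ρ D dx dy k x y, s ∈ S) ∧
    ((∀ e < 2 ^ k, D (x + e * dx) (y + e * dy) < E0 C0 L) →
      ew W (E0 C0 L) ρ D dx dy k x y = (List.range (2 ^ k)).map fun e =>
        (ρ (x + e * dx) (y + e * dy))⁻¹ * ρ (x + (e + 1) * dx) (y + (e + 1) * dy))

/-- lengths of the edge words -/
def ST_GRD1 : Prop := ∀ (A C0 L M0 : ℕ), ∃ M : ℕ,
  ∀ (G J : Type) [Group G] (S : Set G) (P : J → Set G) (W : G → List G)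
  (ρ : ℕ → ℕ → G) (D : ℕ → ℕ → ℕ), Grid G J S P W A C0 L ρ D →
  ∀ (dx dy : ℕ), dx + dy = 1 → ∀ k x y, D x y ≤ M0 * 2 ^ k →
    (ew W (E0 C0 L) ρ D dx dy k x y).length ≤ M * 2 ^ k

/-- areas of squares -/
def ST_GRD2 : Prop := ∀ (A C0 L M0 cq Aq : ℕ), ∃ M c : ℕ,
  ∀ (G J : Type) [Group G] (S : Set G) (P : J → Set G) (W : G → List G)
  (ρ : ℕ → ℕ → G) (D : ℕ → ℕ → ℕ), Grid G J S P W A C0 L ρ D →
  (∀ j, QAr S (S ∩ P j) cq Aq) →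
  ∀ k x y, D x y ≤ M0 * 2 ^ k →
    Ar S c (M * 4 ^ k)
      (ew W (E0 C0 L) ρ D 1 0 k x y ++ ew W (E0 C0 L) ρ D 0 1 k (x + 2 ^ k) y)
      (ew W (E0 C0 L) ρ D 0 1 k x y ++ ew W (E0 C0 L) ρ D 1 0 k x (y + 2 ^ k))

/-! ### Statements: the induction -/

/-- The main statement: a finite generating set `S` of `GL_n(B)`, words of logarithmic length
respecting the parabolic subgroups, and quadratic areas. -/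
def MainAt (m n : ℕ) : Prop := ∃ (S : Set (GL (Fin n) ℚ)) (C c : ℕ), S.Finite ∧ 1 ∈ S ∧
  (∀ s ∈ S, s⁻¹ ∈ S) ∧ (∀ s ∈ S, s ∈ GLB (Bm m)) ∧
  (∀ k g, g ∈ GLB (Bm m) → SizeLe m k g → ∃ w : List (GL (Fin n) ℚ), w.prod = g ∧
    w.length ≤ C * (k + 1) ∧ ∀ s ∈ w, s ∈ S ∧ ∀ i, g ∈ Pst i → s ∈ Pst i) ∧
  QAr S S c C

/-- elementary matrices -/
def ST_ELM : Prop := ∀ (m n : ℕ), 0 < m → 6 ∣ m → ∃ (S : Set (GL (Fin n) ℚ)) (C : ℕ),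
  S.Finite ∧ (∀ s ∈ S, s ∈ GLB (Bm m) ∧ ∀ i, s ∈ Pst i) ∧
  ∀ (k : ℕ) (x y : Fin n) (β : ℚ) (g : GL (Fin n) ℚ), x < y → β ∈ Bm m →
    (∀ v, av m v β ≤ 2 ^ k) → g.1 = 1 + Matrix.single x y β →
    ∃ w : List (GL (Fin n) ℚ), w.prod = g ∧ w.length ≤ C * (k + 1) ∧ ∀ s ∈ w, s ∈ S

/-- decomposition of the parabolic subgroup `P_i` of `GL_{i+j}(B)` -/
def ST_DEC : Prop := ∀ (m i j k : ℕ) (g : GL (Fin (i + j)) ℚ), g ∈ Pst i → g ∈ GLB (Bm m) →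
  SizeLe m k g → ∃ (a : GL (Fin i) ℚ) (d : GL (Fin j) ℚ) (v : GL (Fin (i + j)) ℚ),
    g = v * bd i j (a, d) ∧ a ∈ GLB (Bm m) ∧ d ∈ GLB (Bm m) ∧ SizeLe m k a ∧ SizeLe m k d ∧
    v ∈ GLB (Bm m) ∧ SizeLe m (2 * k + (i + j)) v ∧
    (∀ x y : Fin (i + j), ¬ ((x : ℕ) < i ∧ i ≤ (y : ℕ)) →
      v.1 x y = (1 : Matrix (Fin (i + j)) (Fin (i + j)) ℚ) x y) ∧
    (∀ l, g ∈ Pst (i + l) → d ∈ Pst l)

/-- block diagonal matrices: elementary facts -/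
def ST_BD : Prop := ∀ (m i j : ℕ) (a : GL (Fin i) ℚ) (d : GL (Fin j) ℚ),
  Function.Injective (bd i j) ∧
  (a ∈ GLB (Bm m) → d ∈ GLB (Bm m) → bd i j (a, d) ∈ GLB (Bm m)) ∧
  bd i j (a, d) ∈ Pst i ∧ (∀ l, d ∈ Pst l → bd i j (1, d) ∈ Pst (i + l)) ∧
  (∀ l, i ≤ l → bd i j (a, 1) ∈ Pst l)

/-- words in parabolic subgroups -/
def ST_MPAR : Prop := ∀ (m n : ℕ), 0 < m → 6 ∣ m → (∀ n' < n, 0 < n' → MainAt m n') →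
  ∃ (S : Set (GL (Fin n) ℚ)) (C : ℕ), S.Finite ∧ (∀ s ∈ S, s ∈ GLB (Bm m)) ∧
  ∀ k g, g ∈ GLB (Bm m) → SizeLe m k g → (∃ i, 0 < i ∧ i < n ∧ g ∈ Pst i) →
    ∃ w : List (GL (Fin n) ℚ), w.prod = g ∧ w.length ≤ C * (k + 1) ∧
      ∀ s ∈ w, s ∈ S ∧ ∀ i, g ∈ Pst i → s ∈ Pst i

/-- the block diagonal group is quadratic -/
def ST_LEV : Prop := ∀ (m i j : ℕ), MainAt m i → MainAt m j →
  ∀ F : Set (GL (Fin (i + j)) ℚ), F.Finite →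
  (∀ f ∈ F, ∃ a ∈ GLB (Bm m), ∃ d ∈ GLB (Bm m), f = bd i j (a, d)) →
  ∃ (T : Set (GL (Fin (i + j)) ℚ)) (c A : ℕ), T.Finite ∧ (∀ t ∈ T, t⁻¹ ∈ T) ∧ F ⊆ T ∧
    (∀ f ∈ T, ∃ a ∈ GLB (Bm m), ∃ d ∈ GLB (Bm m), f = bd i j (a, d)) ∧
    (∀ a ∈ GLB (Bm m), ∀ d ∈ GLB (Bm m), ∃ w : List (GL (Fin (i + j)) ℚ),
      (∀ s ∈ w, s ∈ T) ∧ w.prod = bd i j (a, d)) ∧ QAr T T c A

/-- the parabolic subgroups are quadratic -/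
def ST_PAR : Prop := ∀ (m n : ℕ), 0 < m → 6 ∣ m → (∀ n' < n, 0 < n' → MainAt m n') →
  ∀ i, 0 < i → i < n → ∃ S₁ : Set (GL (Fin n) ℚ), S₁.Finite ∧
    (∀ s ∈ S₁, s ∈ GLB (Bm m) ∧ s ∈ Pst i) ∧
    ∀ S : Set (GL (Fin n) ℚ), S.Finite → (∀ s ∈ S, s⁻¹ ∈ S) → S₁ ⊆ S →
      (∀ s ∈ S, s ∈ GLB (Bm m)) → ∃ c A : ℕ, QAr S (S ∩ {g | g ∈ Pst i}) c A

/-- a larger generating set -/
def ST_SUPR : Prop := ∀ (G : Type) [Group G] (S₁ T S : Set G) (c A : ℕ), QAr S₁ S₁ c A →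
  S₁ ⊆ T → S₁ ⊆ S → T ⊆ S → T.Finite →
  (∀ t ∈ T, ∃ w : List G, (∀ s ∈ w, s ∈ S₁) ∧ w.prod = t) →
  ∃ c' A' : ℕ, QAr S T c' A'

/-- product of two commuting groups -/
def ST_PRD : Prop := ∀ (G : Type) [Group G] (S T : Set G) (c A : ℕ), (1 : G) ∈ S →
  QAr S S c A → QAr T T c A → (∀ s ∈ S, ∀ t ∈ T, s * t = t * s) →
  (∀ u v : List G, (∀ s ∈ u, s ∈ S) → (∀ t ∈ v, t ∈ T) → u.prod = v.prod → u.prod = 1) →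
  (∀ s ∈ S, s⁻¹ ∈ S) → (∀ t ∈ T, t⁻¹ ∈ T) → ∃ c' A' : ℕ, QAr (S ∪ T) (S ∪ T) c' A'

/-- words of logarithmic length -/
def ST_LEN : Prop := ∀ (m n : ℕ), 0 < m → 6 ∣ m → 0 < n → (∀ n' < n, 0 < n' → MainAt m n') →
  ∃ (S : Set (GL (Fin n) ℚ)) (C : ℕ), S.Finite ∧ 1 ∈ S ∧ (∀ s ∈ S, s⁻¹ ∈ S) ∧
  (∀ s ∈ S, s ∈ GLB (Bm m)) ∧
  (∀ k g, g ∈ GLB (Bm m) → SizeLe m k g → ∃ w : List (GL (Fin n) ℚ), w.prod = g ∧
    w.length ≤ C * (k + 1) ∧ ∀ s ∈ w, s ∈ S ∧ ∀ i, g ∈ Pst i → s ∈ Pst i)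

/-- fillings -/
def ST_FIL : Prop := ∀ (m n : ℕ), 0 < m → 6 ∣ m → 0 < n → (∀ n' < n, 0 < n' → MainAt m n') →
  ∀ (S₁ : Set (GL (Fin n) ℚ)) (C : ℕ), S₁.Finite → 1 ∈ S₁ → (∀ s ∈ S₁, s⁻¹ ∈ S₁) →
  (∀ s ∈ S₁, s ∈ GLB (Bm m)) →
  (∀ k g, g ∈ GLB (Bm m) → SizeLe m k g → ∃ w : List (GL (Fin n) ℚ), w.prod = g ∧
    w.length ≤ C * (k + 1) ∧ ∀ s ∈ w, s ∈ S₁ ∧ ∀ i, g ∈ Pst i → s ∈ Pst i) →
  ∃ (S : Set (GL (Fin n) ℚ)) (c A : ℕ), S.Finite ∧ S₁ ⊆ S ∧ (∀ s ∈ S, s⁻¹ ∈ S) ∧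
    (∀ s ∈ S, s ∈ GLB (Bm m)) ∧
    ∀ w : List (GL (Fin n) ℚ), (∀ s ∈ w, s ∈ S₁) → w.prod = 1 → Ar S c (A * w.length ^ 2 + A) w []

/-- The group `GL_n(ℤ[1/m])` is quadratic. -/
def ST_MAIN : Prop := ∀ (m n : ℕ), 0 < m → 6 ∣ m → 0 < n → MainAt m n

/-- `GL_n(ℤ[1/m])` has a finite presentation with quadratic Dehn function. -/
def ST_QD : Prop := ∀ (m n : ℕ), 0 < m → 6 ∣ m → 0 < n →
  QuadDehn (GLB (ι := Fin n) (Bm m))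

end QN
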