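import Pool.Agent.Helper87.QN.Defs
import Pool.Agent.Helper24.QD.ONE

set_option autoImplicit false

/-! The parabolic subgroups are quadratic (from CORE). -/

namespace QN

open QD

namespace PARr

theorem par_exists_size (m : ℕ) {n : ℕ} (g : GL (Fin n) ℚ) : ∃ k, SizeLe m k g := by
  classical
  have h : ∀ q : ℚ, ∃ k : ℕ, q ≤ 2 ^ k := fun q => by
    obtain ⟨k, hk⟩ := pow_unbounded_of_one_lt q (one_lt_two)
    exact ⟨k, hk.le⟩
  choose f hf using h
  let F : Pl m × Fin n × Fin n → ℕ := fun p =>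
    max (f (av m p.1 (g.1 p.2.1 p.2.2))) (f (av m p.1 ((g⁻¹).1 p.2.1 p.2.2)))
  refine ⟨Finset.univ.sup F, fun v x y => ?_⟩
  have h1 : F (v, x, y) ≤ Finset.univ.sup F := Finset.le_sup (Finset.mem_univ _)
  constructor
  · exact (hf _).trans (pow_le_pow_right₀ one_le_two ((le_max_left _ _).trans h1))
  · exact (hf _).trans (pow_le_pow_right₀ one_le_two ((le_max_right _ _).trans h1))

/-! ### Inverse words -/

/-- the inverse word -/
def iw {G : Type} [Group G] (v : List G) : List G := (v.map (fun g => g⁻¹)).reverse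

theorem iw_prod {G : Type} [Group G] (v : List G) : (iw v).prod = v.prod⁻¹ :=
  (List.prod_inv_reverse v).symm

theorem iw_length {G : Type} [Group G] (v : List G) : (iw v).length = v.length := by
  simp [iw]

theorem iw_cons {G : Type} [Group G] (g : G) (v : List G) : iw (g :: v) = iw v ++ [g⁻¹] := by
  simp [iw]

theorem iw_mem {G : Type} [Group G] {S : Set G} (hinv : ∀ s ∈ S, s⁻¹ ∈ S) (v : List G)
    (hv : ∀ g ∈ v, g ∈ S) : ∀ g ∈ iw v, g ∈ S := by
  intro g hg
  rw [iw, List.mem_reverse] at hg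
  obtain ⟨h, hh, rfl⟩ := List.mem_map.1 hg
  exact hinv _ (hv h hh)

theorem iw_cancel {G : Type} [Group G] {S : Set G} {c : ℕ} (hc : 2 ≤ c)
    (hinv : ∀ s ∈ S, s⁻¹ ∈ S) (v : List G) (hv : ∀ g ∈ v, g ∈ S) :
    Ar S c v.length (iw v ++ v) [] := by
  induction v with
  | nil => exact Ar.refl _ _
  | cons g v ih =>
    have hg : g ∈ S := hv g (by simp)
    have h1 : Ar S c 1 [g⁻¹, g] [] := by
      apply Ar.whole
      · simp
      · simpa using hc
      · simp
      · intro x hx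
        simp only [List.mem_cons, List.not_mem_nil, or_false] at hx
        rcases hx with rfl | rfl
        · exact hinv _ hg
        · exact hg
      · intro x hx; exact absurd hx List.not_mem_nil
    have h2 := h1.congr (iw v) v
    have h3 := h2.trans (by simpa using ih (fun x hx => hv x (by simp [hx])))
    rw [iw_cons]
    simp only [List.append_assoc, List.cons_append, List.nil_append] at h3 ⊢
    exact h3.mono_k (by simp; omega)

theorem qar_of_red {G : Type} [Group G] {S : Set G} (hinv : ∀ s ∈ S, s⁻¹ ∈ S)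
    (h : Red S ∅) : ∃ c A : ℕ, QAr S S c A := by
  obtain ⟨c, C, h⟩ := h
  refine ⟨max c 2, C + 1, ?_⟩
  intro u v hu hv huv
  have hw : ∀ g ∈ u ++ iw v, g ∈ S := by
    intro g hg
    rcases List.mem_append.1 hg with hg | hg
    · exact hu g hg
    · exact iw_mem hinv v hv g hg
  obtain ⟨w₀, h1, -, h3⟩ := h (u ++ iw v) hw (by
    rw [List.prod_append, iw_prod, huv, mul_inv_cancel])
  have h0 : w₀ = [] := by
    cases w₀ with
    | nil => rfl
    | cons g w => exact absurd (h1 g (by simp)) (Set.notMem_empty g)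
  rw [h0] at h3
  have h4 : Ar S (max c 2) v.length (u ++ (iw v ++ v)) (u ++ []) :=
    (iw_cancel (le_max_right _ _) hinv v hv).left u
  have h5 := (h3.mono (le_max_left c 2) (le_refl S)).right v
  rw [List.append_nil] at h4
  rw [List.nil_append, List.append_assoc] at h5
  refine (h4.symm.trans h5).mono_k ?_
  rw [List.length_append, iw_length]
  have h6 : v.length ≤ (u.length + v.length) ^ 2 := by
    have : u.length + v.length ≤ (u.length + v.length) ^ 2 := Nat.le_self_pow (by norm_num) _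
    omega
  have h7 : (C + 1) * (u.length + v.length) ^ 2 =
      C * (u.length + v.length) ^ 2 + (u.length + v.length) ^ 2 := by ring
  omega

/-! ### Blocks -/

/-- the block function -/
def bb (i j : ℕ) : Fin (i + j) → ℕ := fun x => if (x : ℕ) < i then 0 else 1

theorem bb_left (i j : ℕ) (x : Fin i) : bb i j (Fin.castAdd j x) = 0 := by
  simp [bb]

theorem bb_right (i j : ℕ) (x : Fin j) : bb i j (Fin.natAdd i x) = 1 := by
  simp [bb]

theorem bd_val (i j : ℕ) (p : GL (Fin i) ℚ × GL (Fin j) ℚ) : (bd i j p).1 =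
    (Matrix.fromBlocks p.1.1 0 0 p.2.1).submatrix finSumFinEquiv.symm finSumFinEquiv.symm := rfl

theorem bd_apply_ne (i j : ℕ) (p : GL (Fin i) ℚ × GL (Fin j) ℚ) (x y : Fin (i + j))
    (h : bb i j x ≠ bb i j y) : (bd i j p).1 x y = 0 := by
  rw [bd_val]
  induction x using Fin.addCases with
  | left x =>
    induction y using Fin.addCases with
    | left y => rw [bb_left, bb_left] at h; exact absurd rfl h
    | right y => simp
  | right x =>
    induction y using Fin.addCases with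
    | left y => simp
    | right y => rw [bb_right, bb_right] at h; exact absurd rfl h

theorem dg_eq_bd (i j : ℕ) (α : ℚˣ) :
    dg (bb i j) α = bd i j (1, dg (fun _ => 1) α) := by
  apply Units.ext
  rw [bd_val]
  show Matrix.diagonal (fun x => ((α⁻¹ ^ bb i j x : ℚˣ) : ℚ)) =
    (Matrix.fromBlocks (1 : Matrix (Fin i) (Fin i) ℚ) 0 0
      (Matrix.diagonal fun _ => ((α⁻¹ ^ 1 : ℚˣ) : ℚ))).submatrix finSumFinEquiv.symm
      finSumFinEquiv.symm
  ext x y
  induction x using Fin.addCases with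
  | left x =>
    induction y using Fin.addCases with
    | left y => simp [Matrix.diagonal_apply, Matrix.one_apply, bb_left]
    | right y =>
      have : Fin.castAdd j x ≠ Fin.natAdd i y := by
        intro h; have := congrArg Fin.val h; simp at this; omega
      simp [this]
  | right x =>
    induction y using Fin.addCases with
    | left y =>
      have : Fin.natAdd i x ≠ Fin.castAdd j y := by
        intro h; have := congrArg Fin.val h; simp at this; omega
      simp [this]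
    | right y => simp [Matrix.diagonal_apply, bb_right]

theorem Vb_le_Pst (i j : ℕ) : (Vb (bb i j) : Subgroup (GL (Fin (i + j)) ℚ)) ≤ Pst i := by
  intro v hv x y hy hx
  have hxy : bb i j y ≤ bb i j x := by
    unfold bb; rw [if_pos hy]; exact Nat.zero_le _
  have hne : x ≠ y := by rintro rfl; omega
  refine ⟨?_, ?_⟩
  · rw [hv x y hxy, Matrix.one_apply_ne hne]
  · rw [(Vb (bb i j)).inv_mem hv x y hxy, Matrix.one_apply_ne hne]

/-- block diagonal and block unipotent -/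
theorem eq_one_of_Vb (i j : ℕ) (p : GL (Fin i) ℚ × GL (Fin j) ℚ)
    (h : bd i j p ∈ Vb (bb i j)) : bd i j p = 1 := by
  apply Units.ext
  ext x y
  rcases eq_or_ne (bb i j x) (bb i j y) with hxy | hxy
  · exact h x y hxy.ge
  · rw [bd_apply_ne i j p x y hxy]
    show (0 : ℚ) = (1 : Matrix (Fin (i + j)) (Fin (i + j)) ℚ) x y
    rw [Matrix.one_apply_ne]
    rintro rfl; exact hxy rfl

/-- the Levi subgroup -/
def Lv (m i j : ℕ) : Subgroup (GL (Fin (i + j)) ℚ) :=
  ((GLB (Bm m)).prod (GLB (Bm m))).map (bd i j)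

theorem mem_Lv (m i j : ℕ) (g : GL (Fin (i + j)) ℚ) :
    g ∈ Lv m i j ↔ ∃ a ∈ GLB (Bm m), ∃ d ∈ GLB (Bm m), g = bd i j (a, d) := by
  constructor
  · rintro ⟨⟨a, d⟩, ⟨ha, hd⟩, rfl⟩
    exact ⟨a, ha, d, hd, rfl⟩
  · rintro ⟨a, ha, d, hd, rfl⟩
    exact ⟨(a, d), ⟨ha, hd⟩, rfl⟩

end PARr

open PARr

theorem st_PAR (hLEV : ST_LEV) (hBD : ST_BD) (hDEC : ST_DEC) (hSUPR : ST_SUPR)
    (hCORE : ST_CORE) (hNTC : ST_NTC) : ST_PAR := by
  intro m n hm h6 hind i hi hin
  obtain ⟨j, rfl⟩ : ∃ j, n = i + j := ⟨n - i, by omega⟩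
  have hj : 0 < j := by omega
  choose α hα1 hα2 hα3 hα4 using hNTC m hm h6
  have hαU : ∀ l l', α l l' ∈ UB (Bm m) := fun l l' => ⟨hα1 l l', hα2 l l'⟩
  -- the letters of the Levi part
  obtain ⟨T, c₁, A₁, hTfin, hTinv, hFT, hTbd, hTgen, hTQ⟩ := hLEV m i j
    (hind i hin hi) (hind j (by omega) hj)
    (Set.range fun p : Pl m × Pl m => dg (bb i j) (α p.1 p.2)) (Set.finite_range _) (by
      rintro _ ⟨p, rfl⟩
      exact ⟨1, (GLB _).one_mem, dg (fun _ => 1) (α p.1 p.2), dg_mem _ _ _ (hαU _ _),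
        dg_eq_bd i j _⟩)
  have hTL : ∀ t ∈ T, t ∈ Lv m i j := fun t ht => (mem_Lv m i j t).2 (hTbd t ht)
  have hLne : ∀ t : Lv m i j, ∀ x y, bb i j x ≠ bb i j y → t.1.1 x y = 0 := by
    intro t x y hxy
    obtain ⟨a, _, d, _, h⟩ := (mem_Lv m i j t.1).1 t.2
    rw [h]; exact bd_apply_ne i j _ x y hxy
  have hLB : ∀ t : Lv m i j, t.1 ∈ GLB (Bm m) := by
    intro t
    obtain ⟨a, ha, d, hd, h⟩ := (mem_Lv m i j t.1).1 t.2
    rw [h]; exact (hBD m i j a d).2.1 ha hd
  have hLP : ∀ t : Lv m i j, t.1 ∈ Pst i := by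
    intro t
    obtain ⟨a, ha, d, hd, h⟩ := (mem_Lv m i j t.1).1 t.2
    rw [h]; exact (hBD m i j a d).2.2.1
  let D : Inst (Fin (i + j)) (bb i j) m (Lv m i j) :=
    { ρ := (Lv m i j).subtype
      T := {t | (t : GL (Fin (i + j)) ℚ) ∈ T}
      a := fun l l' => ⟨dg (bb i j) (α l l'), hTL _ (hFT ⟨(l, l'), rfl⟩)⟩
      α := α
      hm := hm
      hTfin := hTfin.preimage (Subtype.val_injective.injOn)
      hTinv := fun t ht => hTinv _ ht
      hTgen := by
        intro t _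
        obtain ⟨a, ha, d, hd, h⟩ := (mem_Lv m i j t.1).1 t.2
        obtain ⟨w, hw1, hw2⟩ := hTgen a ha d hd
        obtain ⟨w₁, h1, h2⟩ := list_lift (fun t : Lv m i j => (t : GL (Fin (i + j)) ℚ))
          {t | (t : GL (Fin (i + j)) ℚ) ∈ T} w
          (fun g hg => ⟨⟨g, hTL g (hw1 g hg)⟩, hw1 g hg, rfl⟩)
        refine ⟨w₁, h1, Subtype.ext ?_⟩
        rw [h, ← hw2, h2]
        exact map_list_prod (Lv m i j).subtype w₁
      haT := fun l l' => hFT ⟨(l, l'), rfl⟩
      hac := by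
        intro l l' t
        apply Subtype.ext
        exact dg_comm (bb i j) (α l l') t.1 (hLne t)
      hρ := hLne
      hρB := hLB
      hρa := fun l l' => rfl
      hα := fun l l' => ⟨hα3 l l', hα4 l l'⟩ }
  have hRed0 : Red D.T D.T := by
    refine ⟨0, 1, fun w hw _ => ⟨w, hw, by omega, Ar.refl _ _⟩⟩
  obtain ⟨S', e1, e2, e3, e4, e5⟩ := hCORE _ (bb i j) m _ D D.T (le_refl _) hRed0
  -- the projection
  let π : D.Gam →* GL (Fin (i + j)) ℚ :=
    { toFun := fun γ => γ.1.1 none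
      map_one' := rfl
      map_mul' := fun _ _ => rfl }
  have hπ : Function.Injective π := by
    rw [injective_iff_map_eq_one]
    intro γ hγ
    have h1 : γ.1.1 none = 1 := hγ
    have h2 := γ.2.2.2
    rw [h1, one_mul] at h2
    have h3 : D.ρ γ.1.2 ∈ Vb (bb i j) := by
      have := (Vb (bb i j)).inv_mem h2
      rwa [inv_inv] at this
    obtain ⟨a, ha, d, hd, h⟩ := (mem_Lv m i j γ.1.2.1).1 γ.1.2.2
    have h4 : D.ρ γ.1.2 = 1 := by
      have h5 : D.ρ γ.1.2 = bd i j (a, d) := h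
      rw [h5] at h3 ⊢
      exact eq_one_of_Vb i j _ h3
    have h6 : γ.1.2 = 1 := Subtype.ext h4
    apply Subtype.ext
    refine Prod.ext ?_ h6
    funext l
    rw [γ.2.1 l, h1]; rfl
  have hπP : ∀ γ, π γ ∈ GLB (Bm m) ∧ π γ ∈ Pst i := by
    intro γ
    refine ⟨γ.2.2.1, ?_⟩
    have h2 := Vb_le_Pst i j γ.2.2.2
    have h3 := (Pst i).mul_mem h2 (hLP γ.1.2)
    have h4 : γ.1.1 none * (D.ρ γ.1.2)⁻¹ * γ.1.2.1 = γ.1.1 none := by
      show γ.1.1 none * (γ.1.2.1)⁻¹ * γ.1.2.1 = γ.1.1 none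
      group
    rw [h4] at h3
    exact h3
  have hπs : ∀ g ∈ GLB (Bm m), g ∈ Pst i → ∃ γ, π γ = g := by
    intro g hgB hgP
    obtain ⟨k, hk⟩ := par_exists_size m g
    obtain ⟨a, d, v, h1, ha, hd, -, -, -, -, hv, -⟩ := hDEC m i j k g hgP hgB hk
    have hvV : v ∈ Vb (bb i j) := by
      intro x y hxy
      apply hv
      rintro ⟨hx, hy⟩
      unfold bb at hxy
      rw [if_pos hx, if_neg (by omega)] at hxy
      omega
    refine ⟨⟨(fun _ => g, ⟨bd i j (a, d), (mem_Lv m i j _).2 ⟨a, ha, d, hd, rfl⟩⟩),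
      fun _ => rfl, hgB, ?_⟩, rfl⟩
    show g * (bd i j (a, d))⁻¹ ∈ Vb (bb i j)
    rw [h1, mul_inv_cancel_right]
    exact hvV
  set S₁ : Set (GL (Fin (i + j)) ℚ) := π '' S' with hS₁
  have hS₁inv : ∀ s ∈ S₁, s⁻¹ ∈ S₁ := by
    rintro _ ⟨s, hs, rfl⟩
    exact ⟨s⁻¹, e2 s hs, map_inv _ _⟩
  have hgen : ∀ g ∈ GLB (Bm m), g ∈ Pst i → ∃ w : List (GL (Fin (i + j)) ℚ),
      (∀ s ∈ w, s ∈ S₁) ∧ w.prod = g := by
    intro g hgB hgP
    obtain ⟨γ, rfl⟩ := hπs g hgB hgP
    obtain ⟨w, h1, h2⟩ := e3 γ (Set.mem_univ _)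
    refine ⟨w.map π, ?_, by rw [← map_list_prod, h2]⟩
    intro s hs
    obtain ⟨t, ht, rfl⟩ := List.mem_map.1 hs
    exact ⟨t, h1 t ht, rfl⟩
  have himg : π '' {γ : D.Gam | (γ : (Pl m → GL (Fin (i + j)) ℚ) × Lv m i j) ∈ D.q '' D.T} =
      T := by
    ext t
    constructor
    · rintro ⟨γ, ⟨s, hs, hsγ⟩, rfl⟩
      have : π γ = s.1 := by
        show γ.1.1 none = s.1
        rw [← hsγ]; rfl
      rw [this]; exact hs
    · intro ht
      exact ⟨⟨D.q ⟨t, hTL t ht⟩, D.q_mem_Gam _⟩, ⟨⟨t, hTL t ht⟩, ht, rfl⟩, rfl⟩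
  have hTS : T ⊆ S₁ := by
    rw [← himg]
    rintro _ ⟨γ, hγ, rfl⟩
    exact ⟨γ, e4 γ hγ, rfl⟩
  have hRed1 : Red S₁ T := by
    have := e5.image π hπ
    rwa [himg] at this
  have hRed2 : Red T ∅ := by
    refine ⟨c₁, A₁, fun w hw hw1 => ⟨[], by simp, by simp, ?_⟩⟩
    have := hTQ w [] hw (by simp) (by simpa using hw1)
    simpa using this
  obtain ⟨c₂, A₂, hQ⟩ := qar_of_red hS₁inv (hRed1.trans hRed2 hTS)
  refine ⟨S₁, e1.image _, ?_, ?_⟩
  · rintro _ ⟨s, _, rfl⟩
    exact hπP s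
  · intro S hSfin _ hS₁S hSB
    refine hSUPR _ S₁ (S ∩ {g | g ∈ Pst i}) S c₂ A₂ hQ ?_ hS₁S Set.inter_subset_left
      (hSfin.subset Set.inter_subset_left) ?_
    · intro s hs
      refine ⟨hS₁S hs, ?_⟩
      obtain ⟨γ, _, rfl⟩ := hs
      exact (hπP γ).2
    · intro t ht
      exact hgen t (hSB t ht.1) ht.2

end QN
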