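import Pool.Agent.Helper87.QN.Defs

set_option autoImplicit false

/-! Row BD: block diagonal matrices. -/

namespace QN

open QD

theorem bd_val {i j : ℕ} (a : GL (Fin i) ℚ) (d : GL (Fin j) ℚ) (x y : Fin (i + j)) :
    (bd i j (a, d)).1 x y =
      Matrix.fromBlocks a.1 0 0 d.1 (finSumFinEquiv.symm x) (finSumFinEquiv.symm y) := rfl

theorem bd_inv {i j : ℕ} (a : GL (Fin i) ℚ) (d : GL (Fin j) ℚ) :
    (bd i j (a, d))⁻¹ = bd i j (a⁻¹, d⁻¹) := by
  rw [← map_inv]
  rfl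

theorem bd_mem_ring {i j : ℕ} (B : Subring ℚ) (a : GL (Fin i) ℚ) (d : GL (Fin j) ℚ)
    (ha : ∀ x y, a.1 x y ∈ B) (hd : ∀ x y, d.1 x y ∈ B) (x y : Fin (i + j)) :
    (bd i j (a, d)).1 x y ∈ B := by
  rw [bd_val]
  rcases finSumFinEquiv.symm x with u | u <;> rcases finSumFinEquiv.symm y with v | v
  · exact ha u v
  · exact B.zero_mem
  · exact B.zero_mem
  · exact hd u v

theorem bd_zero {i j : ℕ} (a : GL (Fin i) ℚ) (d : GL (Fin j) ℚ) (l : ℕ) (hl : i ≤ l)
    (h : ∀ u v : Fin j, i + (v : ℕ) < l → l ≤ i + (u : ℕ) → d.1 u v = 0) (x y : Fin (i + j))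
    (hy : (y : ℕ) < l) (hx : l ≤ (x : ℕ)) : (bd i j (a, d)).1 x y = 0 := by
  rw [bd_val]
  rcases hx' : finSumFinEquiv.symm x with u | u
  · exfalso
    rw [Equiv.symm_apply_eq, finSumFinEquiv_apply_left] at hx'
    have h1 : (x : ℕ) = u := by rw [hx']; rfl
    have := u.2
    omega
  · rcases hy' : finSumFinEquiv.symm y with v | v
    · rfl
    · rw [Equiv.symm_apply_eq, finSumFinEquiv_apply_right] at hx' hy'
      have h1 : (x : ℕ) = i + u := by rw [hx']; rfl
      have h2 : (y : ℕ) = i + v := by rw [hy']; rfl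
      exact h u v (by omega) (by omega)

theorem bd_injective (i j : ℕ) : Function.Injective (bd i j) := by
  rintro ⟨a, d⟩ ⟨a', d'⟩ h
  have h1 : ∀ s t : Fin i ⊕ Fin j,
      Matrix.fromBlocks a.1 0 0 d.1 s t = Matrix.fromBlocks a'.1 0 0 d'.1 s t := by
    intro s t
    have h2 := congrArg (fun g : GL (Fin (i + j)) ℚ => g.1 (finSumFinEquiv s) (finSumFinEquiv t)) h
    simp only [bd_val, Equiv.symm_apply_apply] at h2
    exact h2
  have ha : a = a' := by
    apply Units.ext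
    ext x y
    exact h1 (Sum.inl x) (Sum.inl y)
  have hd : d = d' := by
    apply Units.ext
    ext x y
    exact h1 (Sum.inr x) (Sum.inr y)
  rw [ha, hd]

theorem one_ne_zero_entry {j : ℕ} (i l : ℕ) (u v : Fin j) (h1 : i + (v : ℕ) < l)
    (h2 : l ≤ i + (u : ℕ)) : ((1 : GL (Fin j) ℚ)).1 u v = 0 := by
  have h : u ≠ v := by
    rintro rfl
    omega
  exact Matrix.one_apply_ne h

theorem st_BD : ST_BD := by
  intro m i j a d
  refine ⟨bd_injective i j, ?_, ?_, ?_, ?_⟩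
  · intro ha hd
    refine ⟨bd_mem_ring _ a d ha.1 hd.1, ?_⟩
    rw [bd_inv]
    exact bd_mem_ring _ a⁻¹ d⁻¹ ha.2 hd.2
  · intro x y hy hx
    have h : ∀ d' : GL (Fin j) ℚ, ∀ u v : Fin j, i + (v : ℕ) < i → i ≤ i + (u : ℕ) →
        d'.1 u v = 0 := by
      intro d' u v h1 _
      omega
    refine ⟨bd_zero a d i le_rfl (h d) x y hy hx, ?_⟩
    rw [bd_inv]
    exact bd_zero _ _ i le_rfl (h _) x y hy hx
  · intro l hd x y hy hx
    refine ⟨bd_zero _ _ (i + l) (by omega) ?_ x y hy hx, ?_⟩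
    · intro u v h1 h2
      exact (hd u v (by omega) (by omega)).1
    · rw [bd_inv]
      refine bd_zero _ _ (i + l) (by omega) ?_ x y hy hx
      intro u v h1 h2
      exact (hd u v (by omega) (by omega)).2
  · intro l hl x y hy hx
    refine ⟨bd_zero _ _ l hl (fun u v h1 h2 => one_ne_zero_entry i l u v h1 h2) x y hy hx, ?_⟩
    rw [bd_inv]
    refine bd_zero _ _ l hl ?_ x y hy hx
    intro u v h1 h2
    rw [inv_one]
    exact one_ne_zero_entry i l u v h1 h2

end QN
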