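import Pool.Agent.Helper87.QN.BD

set_option autoImplicit false

/-! Row DEC: decomposition of the parabolic subgroups. -/

namespace QN

open QD

theorem dec_bound {N : ℕ} (m k : ℕ) (M M' : Matrix (Fin N) (Fin N) ℚ) (v : Pl m)
    (h : ∀ x y, av m v (M x y) ≤ 2 ^ k) (h' : ∀ x y, av m v (M' x y) ≤ 2 ^ k) (x y : Fin N) :
    av m v ((M * M') x y) ≤ 2 ^ (2 * k + N) := by
  rw [Matrix.mul_apply]
  have h1 : ∀ z ∈ (Finset.univ : Finset (Fin N)), av m v (M x z * M' z y) ≤ (2 : ℚ) ^ (2 * k) := by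
    intro z _
    rw [map_mul, two_mul, pow_add]
    exact mul_le_mul (h x z) (h' z y) ((av m v).nonneg _) (by positivity)
  have h2 : (N : ℚ) ≤ 2 ^ N := by exact_mod_cast (Nat.lt_two_pow_self (n := N)).le
  calc av m v (∑ z, M x z * M' z y) ≤ ∑ z, av m v (M x z * M' z y) := (av m v).sum_le _ _
    _ ≤ ∑ _z : Fin N, (2 : ℚ) ^ (2 * k) := Finset.sum_le_sum h1
    _ = N * 2 ^ (2 * k) := by simp
    _ ≤ 2 ^ N * 2 ^ (2 * k) := by gcongr
    _ = 2 ^ (2 * k + N) := by rw [← pow_add]; congr 1; ring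

theorem dec_one_castAdd {i j : ℕ} (x y : Fin i) :
    (1 : Matrix (Fin (i + j)) (Fin (i + j)) ℚ) (Fin.castAdd j x) (Fin.castAdd j y) =
      (1 : Matrix (Fin i) (Fin i) ℚ) x y := by
  rw [Matrix.one_apply, Matrix.one_apply]
  congr 1
  simp

theorem dec_one_natAdd {i j : ℕ} (x y : Fin j) :
    (1 : Matrix (Fin (i + j)) (Fin (i + j)) ℚ) (Fin.natAdd i x) (Fin.natAdd i y) =
      (1 : Matrix (Fin j) (Fin j) ℚ) x y := by
  rw [Matrix.one_apply, Matrix.one_apply]
  congr 1
  simp

theorem dec_one_nc {i j : ℕ} (x : Fin j) (y : Fin i) :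
    (1 : Matrix (Fin (i + j)) (Fin (i + j)) ℚ) (Fin.natAdd i x) (Fin.castAdd j y) = 0 := by
  apply Matrix.one_apply_ne
  intro h
  have := congrArg Fin.val h
  simp only [Fin.val_natAdd, Fin.val_castAdd] at this
  have := y.2
  omega

theorem dec_blockA {i j : ℕ} (A B : Matrix (Fin (i + j)) (Fin (i + j)) ℚ)
    (hB : ∀ (x : Fin j) (y : Fin i), B (Fin.natAdd i x) (Fin.castAdd j y) = 0) (x y : Fin i) :
    (A.submatrix (Fin.castAdd j) (Fin.castAdd j) * B.submatrix (Fin.castAdd j) (Fin.castAdd j))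
      x y = (A * B) (Fin.castAdd j x) (Fin.castAdd j y) := by
  rw [Matrix.mul_apply, Matrix.mul_apply, Fin.sum_univ_add]
  rw [Finset.sum_eq_zero (s := (Finset.univ : Finset (Fin j)))
    (fun z _ => by rw [hB z y, mul_zero]), add_zero]
  rfl

theorem dec_blockD {i j : ℕ} (A B : Matrix (Fin (i + j)) (Fin (i + j)) ℚ)
    (hA : ∀ (x : Fin j) (y : Fin i), A (Fin.natAdd i x) (Fin.castAdd j y) = 0) (x y : Fin j) :
    (A.submatrix (Fin.natAdd i) (Fin.natAdd i) * B.submatrix (Fin.natAdd i) (Fin.natAdd i))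
      x y = (A * B) (Fin.natAdd i x) (Fin.natAdd i y) := by
  rw [Matrix.mul_apply, Matrix.mul_apply, Fin.sum_univ_add]
  rw [Finset.sum_eq_zero (s := (Finset.univ : Finset (Fin i)))
    (fun z _ => by rw [hA x z, zero_mul]), zero_add]
  rfl

theorem st_DEC : ST_DEC := by
  intro m i j k g hg hgB hk
  have hA0 : ∀ (x : Fin j) (y : Fin i), g.1 (Fin.natAdd i x) (Fin.castAdd j y) = 0 := by
    intro x y
    exact (hg _ _ (by simp) (by simp)).1
  have hB0 : ∀ (x : Fin j) (y : Fin i), (g⁻¹).1 (Fin.natAdd i x) (Fin.castAdd j y) = 0 := by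
    intro x y
    exact (hg _ _ (by simp) (by simp)).2
  have hAB : g.1 * (g⁻¹).1 = 1 := g.mul_inv
  have hBA : (g⁻¹).1 * g.1 = 1 := g.inv_mul
  let a : GL (Fin i) ℚ :=
    { val := g.1.submatrix (Fin.castAdd j) (Fin.castAdd j)
      inv := (g⁻¹).1.submatrix (Fin.castAdd j) (Fin.castAdd j)
      val_inv := by
        ext x y
        rw [dec_blockA _ _ hB0, hAB, dec_one_castAdd]
      inv_val := by
        ext x y
        rw [dec_blockA _ _ hA0, hBA, dec_one_castAdd] }
  let d : GL (Fin j) ℚ :=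
    { val := g.1.submatrix (Fin.natAdd i) (Fin.natAdd i)
      inv := (g⁻¹).1.submatrix (Fin.natAdd i) (Fin.natAdd i)
      val_inv := by
        ext x y
        rw [dec_blockD _ _ hA0, hAB, dec_one_natAdd]
      inv_val := by
        ext x y
        rw [dec_blockD _ _ hB0, hBA, dec_one_natAdd] }
  have ha1 : ∀ x y, a.1 x y = g.1 (Fin.castAdd j x) (Fin.castAdd j y) := fun _ _ => rfl
  have ha2 : ∀ x y, (a⁻¹).1 x y = (g⁻¹).1 (Fin.castAdd j x) (Fin.castAdd j y) := fun _ _ => rfl
  have hd1 : ∀ x y, d.1 x y = g.1 (Fin.natAdd i x) (Fin.natAdd i y) := fun _ _ => rfl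
  have hd2 : ∀ x y, (d⁻¹).1 x y = (g⁻¹).1 (Fin.natAdd i x) (Fin.natAdd i y) := fun _ _ => rfl
  have haG : a ∈ GLB (Bm m) := ⟨fun x y => hgB.1 _ _, fun x y => hgB.2 _ _⟩
  have hdG : d ∈ GLB (Bm m) := ⟨fun x y => hgB.1 _ _, fun x y => hgB.2 _ _⟩
  have hbdG : bd i j (a, d) ∈ GLB (Bm m) := (st_BD m i j a d).2.1 haG hdG
  -- entries of the block diagonal matrices
  have hbnd : ∀ (a' : GL (Fin i) ℚ) (d' : GL (Fin j) ℚ) (v : Pl m),
      (∀ x y, av m v (a'.1 x y) ≤ 2 ^ k) → (∀ x y, av m v (d'.1 x y) ≤ 2 ^ k) →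
      ∀ x y, av m v ((bd i j (a', d')).1 x y) ≤ 2 ^ k := by
    intro a' d' v h1 h2 x y
    rw [bd_val]
    rcases finSumFinEquiv.symm x with u | u <;> rcases finSumFinEquiv.symm y with w | w
    · exact h1 u w
    · show av m v (0 : ℚ) ≤ 2 ^ k
      rw [map_zero]; positivity
    · show av m v (0 : ℚ) ≤ 2 ^ k
      rw [map_zero]; positivity
    · exact h2 u w
  refine ⟨a, d, g * (bd i j (a, d))⁻¹, ?_, haG, hdG, ?_, ?_, ?_, ?_, ?_, ?_⟩
  · rw [inv_mul_cancel_right]
  · intro v x y
    exact ⟨(hk v _ _).1, (hk v _ _).2⟩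
  · intro v x y
    exact ⟨(hk v _ _).1, (hk v _ _).2⟩
  · exact mul_mem hgB (inv_mem hbdG)
  · intro v x y
    constructor
    · rw [bd_inv]
      exact dec_bound m k g.1 (bd i j (a⁻¹, d⁻¹)).1 v (fun x y => (hk v x y).1)
        (hbnd a⁻¹ d⁻¹ v (fun x y => (hk v _ _).2) (fun x y => (hk v _ _).2)) x y
    · rw [mul_inv_rev, inv_inv]
      exact dec_bound m k (bd i j (a, d)).1 (g⁻¹).1 v
        (hbnd a d v (fun x y => (hk v _ _).1) (fun x y => (hk v _ _).1))
        (fun x y => (hk v x y).2) x y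
  · intro x y hxy
    rw [bd_inv]
    show (g.1 * (bd i j (a⁻¹, d⁻¹)).1) x y = _
    induction x using Fin.addCases with
    | left x =>
      induction y using Fin.addCases with
      | left y =>
        rw [dec_one_castAdd, ← a.mul_inv, Matrix.mul_apply, Matrix.mul_apply, Fin.sum_univ_add]
        rw [Finset.sum_eq_zero (s := (Finset.univ : Finset (Fin j))), add_zero]
        · apply Finset.sum_congr rfl
          intro z _
          rw [bd_val, finSumFinEquiv_symm_apply_castAdd, finSumFinEquiv_symm_apply_castAdd]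
          rfl
        · intro z _
          rw [bd_val, finSumFinEquiv_symm_apply_castAdd, finSumFinEquiv_symm_apply_natAdd]
          show _ * (0 : ℚ) = 0
          rw [mul_zero]
      | right y =>
        exfalso
        apply hxy
        constructor
        · simp
        · simp
    | right x =>
      induction y using Fin.addCases with
      | left y =>
        rw [dec_one_nc, Matrix.mul_apply]
        apply Finset.sum_eq_zero
        intro z _
        induction z using Fin.addCases with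
        | left z => rw [hA0 x z, zero_mul]
        | right z =>
          rw [bd_val, finSumFinEquiv_symm_apply_castAdd, finSumFinEquiv_symm_apply_natAdd]
          show _ * (0 : ℚ) = 0
          rw [mul_zero]
      | right y =>
        rw [dec_one_natAdd, ← d.mul_inv, Matrix.mul_apply, Matrix.mul_apply, Fin.sum_univ_add]
        rw [Finset.sum_eq_zero (s := (Finset.univ : Finset (Fin i))), zero_add]
        · apply Finset.sum_congr rfl
          intro z _
          rw [bd_val, finSumFinEquiv_symm_apply_natAdd, finSumFinEquiv_symm_apply_natAdd]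
          rfl
        · intro z _
          rw [hA0 x z, zero_mul]
  · intro l hl x y hy hx
    have h := hl (Fin.natAdd i x) (Fin.natAdd i y) (by simp; omega) (by simp; omega)
    exact ⟨h.1, h.2⟩

end QN
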