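import Pool.Agent.Helper87.QN.Defs

set_option autoImplicit false

/-! Row ELM: elementary matrices are short words. -/

namespace QN

open QD

/-- elementary matrices as units -/
def elmE {n : ℕ} (x y : Fin n) (h : x ≠ y) (β : ℚ) : GL (Fin n) ℚ where
  val := Matrix.transvection x y β
  inv := Matrix.transvection x y (-β)
  val_inv := by
    rw [Matrix.transvection_mul_transvection_same _ _ h, add_neg_cancel,
      Matrix.transvection_zero]
  inv_val := by
    rw [Matrix.transvection_mul_transvection_same _ _ h, neg_add_cancel,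
      Matrix.transvection_zero]

theorem elmE_add {n : ℕ} (x y : Fin n) (h : x ≠ y) (β γ : ℚ) :
    elmE x y h (β + γ) = elmE x y h β * elmE x y h γ := by
  apply Units.ext
  show Matrix.transvection x y (β + γ) = Matrix.transvection x y β * Matrix.transvection x y γ
  rw [Matrix.transvection_mul_transvection_same _ _ h]

theorem elmE_zero {n : ℕ} (x y : Fin n) (h : x ≠ y) : elmE x y h 0 = 1 := by
  apply Units.ext
  show Matrix.transvection x y (0 : ℚ) = 1
  rw [Matrix.transvection_zero]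

theorem elmE_val {n : ℕ} (x y : Fin n) (h : x ≠ y) (β : ℚ) (a b : Fin n) :
    (elmE x y h β).1 a b = (1 : Matrix (Fin n) (Fin n) ℚ) a b + if x = a ∧ y = b then β else 0 := by
  show (Matrix.transvection x y β) a b = _
  rw [Matrix.transvection, Matrix.add_apply, Matrix.single_apply]

theorem elmE_inv {n : ℕ} (x y : Fin n) (h : x ≠ y) (β : ℚ) :
    (elmE x y h β)⁻¹ = elmE x y h (-β) := by
  rw [inv_eq_iff_mul_eq_one, ← elmE_add, add_neg_cancel, elmE_zero]

theorem elmE_GLB {n : ℕ} (B : Subring ℚ) (x y : Fin n) (h : x ≠ y) (β : ℚ) (hβ : β ∈ B) :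
    elmE x y h β ∈ GLB (ι := Fin n) B := by
  have key : ∀ (γ : ℚ), γ ∈ B → ∀ a b, (elmE x y h γ).1 a b ∈ B := by
    intro γ hγ a b
    rw [elmE_val, Matrix.one_apply]
    split_ifs
    · exact B.add_mem B.one_mem hγ
    · exact B.add_mem B.one_mem B.zero_mem
    · exact B.add_mem B.zero_mem hγ
    · exact B.add_mem B.zero_mem B.zero_mem
  refine ⟨key β hβ, ?_⟩
  rw [elmE_inv]
  exact key (-β) (B.neg_mem hβ)

theorem elmE_Pst {n : ℕ} (x y : Fin n) (h : x < y) (β : ℚ) (i : ℕ) :
    elmE x y h.ne β ∈ Pst (n := n) i := by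
  have key : ∀ (γ : ℚ) (a b : Fin n), (b : ℕ) < i → i ≤ (a : ℕ) →
      (elmE x y h.ne γ).1 a b = 0 := by
    intro γ a b hb ha
    have hab : a ≠ b := by rintro rfl; omega
    rw [elmE_val, Matrix.one_apply_ne hab, if_neg, add_zero]
    rintro ⟨rfl, rfl⟩
    have : (x : ℕ) < (y : ℕ) := h
    omega
  intro a b hb ha
  refine ⟨key β a b hb ha, ?_⟩
  rw [elmE_inv]
  exact key (-β) a b hb ha

/-- the diagonal matrix with entry `u` at `x` -/
def elmT {n : ℕ} (x : Fin n) (u : ℚˣ) : GL (Fin n) ℚ where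
  val := Matrix.diagonal (fun a => if a = x then (u : ℚ) else 1)
  inv := Matrix.diagonal (fun a => if a = x then ((u⁻¹ : ℚˣ) : ℚ) else 1)
  val_inv := by
    rw [Matrix.diagonal_mul_diagonal, ← Matrix.diagonal_one]
    congr 1
    funext a
    split_ifs <;> simp
  inv_val := by
    rw [Matrix.diagonal_mul_diagonal, ← Matrix.diagonal_one]
    congr 1
    funext a
    split_ifs <;> simp

theorem elmT_inv {n : ℕ} (x : Fin n) (u : ℚˣ) : (elmT x u)⁻¹ = elmT x u⁻¹ := by
  apply Units.ext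
  show (elmT x u).inv = _
  rfl

theorem elmT_GLB {n : ℕ} (B : Subring ℚ) (x : Fin n) (u : ℚˣ) (h1 : (u : ℚ) ∈ B)
    (h2 : ((u⁻¹ : ℚˣ) : ℚ) ∈ B) : elmT x u ∈ GLB (ι := Fin n) B := by
  have key : ∀ (v : ℚˣ), (v : ℚ) ∈ B → ∀ a b, (elmT x v).1 a b ∈ B := by
    intro v hv a b
    show Matrix.diagonal (fun a => if a = x then (v : ℚ) else 1) a b ∈ B
    rw [Matrix.diagonal_apply]
    split_ifs
    · exact hv
    · exact B.one_mem
    · exact B.zero_mem
  refine ⟨key u h1, ?_⟩
  rw [elmT_inv]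
  exact key u⁻¹ h2

theorem elmT_Pst {n : ℕ} (x : Fin n) (u : ℚˣ) (i : ℕ) : elmT x u ∈ Pst (n := n) i := by
  have key : ∀ (v : ℚˣ) (a b : Fin n), (b : ℕ) < i → i ≤ (a : ℕ) → (elmT x v).1 a b = 0 := by
    intro v a b hb ha
    have hab : a ≠ b := by rintro rfl; omega
    show Matrix.diagonal (fun a => if a = x then (v : ℚ) else 1) a b = 0
    exact Matrix.diagonal_apply_ne _ hab
  intro a b hb ha
  refine ⟨key u a b hb ha, ?_⟩
  rw [elmT_inv]
  exact key u⁻¹ a b hb ha

theorem elm_conj {n : ℕ} (x y : Fin n) (h : x ≠ y) (u : ℚˣ) (β : ℚ) :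
    elmT x u * elmE x y h β * (elmT x u)⁻¹ = elmE x y h ((u : ℚ) * β) := by
  apply Units.ext
  ext a b
  rw [elmT_inv]
  show (Matrix.diagonal (fun a => if a = x then (u : ℚ) else 1) * (elmE x y h β).1 *
    Matrix.diagonal (fun a => if a = x then ((u⁻¹ : ℚˣ) : ℚ) else 1)) a b = _
  rw [Matrix.mul_diagonal, Matrix.diagonal_mul, elmE_val, elmE_val, Matrix.one_apply]
  by_cases hab : a = b
  · subst hab
    have hno : ¬ (x = a ∧ y = a) := by rintro ⟨rfl, h2⟩; exact h h2.symm
    rw [if_neg hno, if_neg hno]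
    by_cases hax : a = x
    · simp [hax]
    · simp [hax]
  · by_cases hxy : x = a ∧ y = b
    · obtain ⟨rfl, rfl⟩ := hxy
      simp [h, Ne.symm h]
    · simp [hab, hxy]

theorem st_ELM (hA : ST_NTA) (hB : ST_NTB) (hC : ST_NTC) : ST_ELM := by
  classical
  intro m n hm h6
  -- large units
  have hu : ∀ v : Pl m, ∃ u : ℚˣ, (u : ℚ) ∈ Bm m ∧ ((u⁻¹ : ℚˣ) : ℚ) ∈ Bm m ∧
      4 ≤ av m v (u : ℚ) := by
    intro v
    obtain ⟨α, h1, h2, h3, _⟩ := hC m hm h6 v v
    obtain ⟨N, hN⟩ := pow_unbounded_of_one_lt (4 : ℚ) h3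
    refine ⟨α ^ N, ?_, ?_, ?_⟩
    · rw [Units.val_pow_eq_pow_val]
      exact pow_mem h1 N
    · rw [← inv_pow, Units.val_pow_eq_pow_val]
      exact pow_mem h2 N
    · rw [Units.val_pow_eq_pow_val, map_pow]
      exact hN.le
  choose u hu1 hu2 hu4 using hu
  obtain ⟨R0, hR0⟩ : ∃ R0 : ℕ, ∀ v w : Pl m, av m w (u v : ℚ) ≤ R0 := by
    obtain ⟨R, hR⟩ := exists_nat_ge (∑ p : Pl m × Pl m, av m p.2 (u p.1 : ℚ))
    refine ⟨R, fun v w => le_trans ?_ hR⟩
    exact Finset.single_le_sum (f := fun p : Pl m × Pl m => av m p.2 (u p.1 : ℚ))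
      (fun p _ => (av m p.2).nonneg _) (Finset.mem_univ (v, w))
  set R : ℕ := R0 + 2 + Fintype.card (Pl m) with hR
  set E : Set (GL (Fin n) ℚ) := {g | ∃ (x y : Fin n) (h : x < y) (β : ℚ), β ∈ Bm m ∧
    (∀ w, av m w β ≤ R) ∧ g = elmE x y h.ne β} with hE
  set T : Set (GL (Fin n) ℚ) := {g | ∃ (x : Fin n) (v : Pl m),
    g = elmT x (u v) ∨ g = (elmT x (u v))⁻¹} with hT
  have hEfin : E.Finite := by
    have h1 : ((Set.univ : Set (Fin n × Fin n)) ×ˢ {β : ℚ | β ∈ Bm m ∧ ∀ i, av m i β ≤ R}).Finite :=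
      Set.finite_univ.prod (hB m R hm)
    apply (h1.image (fun p : (Fin n × Fin n) × ℚ =>
      if h : p.1.1 ≠ p.1.2 then elmE p.1.1 p.1.2 h p.2 else 1)).subset
    rintro g ⟨x, y, h, β, hβ, hw, rfl⟩
    refine ⟨((x, y), β), ⟨Set.mem_univ _, hβ, hw⟩, ?_⟩
    simp only
    rw [dif_pos h.ne]
  have hTfin : T.Finite := by
    have h1 : (Set.range (fun p : Fin n × Pl m => elmT p.1 (u p.2))).Finite := Set.finite_range _
    have h2 : (Set.range (fun p : Fin n × Pl m => (elmT p.1 (u p.2))⁻¹)).Finite :=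
      Set.finite_range _
    apply (h1.union h2).subset
    rintro g ⟨x, v, rfl | rfl⟩
    · exact Or.inl ⟨(x, v), rfl⟩
    · exact Or.inr ⟨(x, v), rfl⟩
  refine ⟨E ∪ T, 3 * Fintype.card (Pl m) + 1, hEfin.union hTfin, ?_, ?_⟩
  · rintro s (⟨x, y, h, β, hβ, _, rfl⟩ | ⟨x, v, rfl | rfl⟩)
    · exact ⟨elmE_GLB _ _ _ _ _ hβ, fun i => elmE_Pst x y h β i⟩
    · exact ⟨elmT_GLB _ _ _ (hu1 v) (hu2 v), fun i => elmT_Pst _ _ _⟩
    · exact ⟨inv_mem (elmT_GLB _ _ _ (hu1 v) (hu2 v)), fun i => inv_mem (elmT_Pst _ _ _)⟩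
  -- one place
  have one : ∀ (v : Pl m) (x y : Fin n) (h : x < y) (k : ℕ) (β : ℚ), β ∈ Bm m →
      av m v β ≤ 2 ^ (k + 1) → (∀ w, w ≠ v → av m w β ≤ 1) →
      ∃ w : List (GL (Fin n) ℚ), w.prod = elmE x y h.ne β ∧ w.length ≤ 3 * k + 1 ∧
        ∀ s ∈ w, s ∈ E ∪ T := by
    intro v x y h k
    induction k with
    | zero =>
      intro β hβ hv hw
      refine ⟨[elmE x y h.ne β], by simp, by simp, ?_⟩
      intro s hs
      rw [List.mem_singleton] at hs
      subst hs
      refine Or.inl ⟨x, y, h, β, hβ, ?_, rfl⟩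
      intro w
      have hc : (2 : ℚ) ≤ (R : ℚ) := by
        rw [hR]; push_cast
        have : (0 : ℚ) ≤ (R0 : ℚ) := by positivity
        have : (0 : ℚ) ≤ (Fintype.card (Pl m) : ℚ) := by positivity
        linarith
      by_cases hwv : w = v
      · subst hwv
        have : (2 : ℚ) ^ (0 + 1) = 2 := by norm_num
        rw [this] at hv
        linarith
      · have := hw w hwv
        linarith
    | succ k ih =>
      intro β hβ hv hw
      obtain ⟨β1, hβ1, h1⟩ := hA m hm (fun w => if w = v then β / (u v : ℚ) else 0)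
      have hv1 : av m v (β / (u v : ℚ) - β1) ≤ 1 := by
        have := h1 v
        rwa [if_pos rfl] at this
      have hw1 : ∀ w, w ≠ v → av m w β1 ≤ 1 := by
        intro w hwv
        have := h1 w
        rw [if_neg hwv, zero_sub, (av m w).map_neg] at this
        exact this
      have hune : (u v : ℚ) ≠ 0 := Units.ne_zero _
      have huv : 0 < av m v (u v : ℚ) := lt_of_lt_of_le (by norm_num) (hu4 v)
      have hb1 : av m v β1 ≤ 2 ^ (k + 1) := by
        have e1 : β1 = β / (u v : ℚ) + -(β / (u v : ℚ) - β1) := by ring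
        have e2 : av m v β1 ≤ av m v (β / (u v : ℚ)) + av m v (β / (u v : ℚ) - β1) := by
          calc av m v β1 = av m v (β / (u v : ℚ) + -(β / (u v : ℚ) - β1)) := by rw [← e1]
            _ ≤ av m v (β / (u v : ℚ)) + av m v (-(β / (u v : ℚ) - β1)) := (av m v).add_le _ _
            _ = _ := by rw [(av m v).map_neg]
        have e3 : av m v (β / (u v : ℚ)) ≤ 2 ^ (k + 1 + 1) / 4 := by
          rw [map_div₀]
          exact div_le_div₀ (by positivity) hv (by norm_num) (hu4 v)
        have e4 : (2 : ℚ) ^ (k + 1 + 1) / 4 = 2 ^ k := by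
          rw [pow_succ, pow_succ]; ring
        have e5 : (1 : ℚ) ≤ 2 ^ k := one_le_pow₀ (by norm_num)
        rw [e4] at e3
        have e6 : (2 : ℚ) ^ (k + 1) = 2 ^ k + 2 ^ k := by rw [pow_succ]; ring
        rw [e6]
        linarith
      obtain ⟨w1, hw1p, hw1l, hw1s⟩ := ih β1 hβ1 hb1 hw1
      set β0 := β - (u v : ℚ) * β1 with hβ0
      have hβ0B : β0 ∈ Bm m := (Bm m).sub_mem hβ ((Bm m).mul_mem (hu1 v) hβ1)
      have hβ0R : ∀ w, av m w β0 ≤ R := by
        intro w
        have hcp : (0 : ℚ) ≤ (Fintype.card (Pl m) : ℚ) := by positivity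
        by_cases hwv : w = v
        · subst hwv
          have e1 : β0 = (u w : ℚ) * (β / (u w : ℚ) - β1) := by
            rw [hβ0]; field_simp
          rw [e1, map_mul]
          have e2 : av m w (u w : ℚ) * av m w (β / (u w : ℚ) - β1) ≤ av m w (u w : ℚ) * 1 :=
            mul_le_mul_of_nonneg_left hv1 ((av m w).nonneg _)
          have e3 := hR0 w w
          rw [hR]; push_cast
          linarith
        · have e1 : av m w β0 ≤ av m w β + av m w (u v : ℚ) * av m w β1 := by
            calc av m w β0 = av m w (β + -((u v : ℚ) * β1)) := by rw [hβ0, sub_eq_add_neg]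
              _ ≤ av m w β + av m w (-((u v : ℚ) * β1)) := (av m w).add_le _ _
              _ = _ := by rw [(av m w).map_neg, map_mul]
          have e2 : av m w (u v : ℚ) * av m w β1 ≤ av m w (u v : ℚ) * 1 :=
            mul_le_mul_of_nonneg_left (hw1 w hwv) ((av m w).nonneg _)
          have e3 := hR0 v w
          have e4 := hw w hwv
          rw [hR]; push_cast
          linarith
      refine ⟨elmE x y h.ne β0 :: elmT x (u v) :: (w1 ++ [(elmT x (u v))⁻¹]), ?_, ?_, ?_⟩
      · rw [List.prod_cons, List.prod_cons, List.prod_append, hw1p, List.prod_singleton,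
          ← mul_assoc (elmT x (u v)), elm_conj, ← elmE_add]
        congr 1
        rw [hβ0]; ring
      · simp only [List.length_cons, List.length_append, List.length_nil]
        omega
      · intro s hs
        simp only [List.mem_cons, List.mem_append, List.not_mem_nil, or_false] at hs
        rcases hs with rfl | rfl | hs | rfl
        · exact Or.inl ⟨x, y, h, β0, hβ0B, hβ0R, rfl⟩
        · exact Or.inr ⟨x, v, Or.inl rfl⟩
        · exact hw1s s hs
        · exact Or.inr ⟨x, v, Or.inr rfl⟩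
  -- general
  intro k x y β g hxy hβ hk hg
  have hge : g = elmE x y hxy.ne β := by
    apply Units.ext
    rw [hg]
    rfl
  have hbv : ∀ v : Pl m, ∃ γ ∈ Bm m, av m v (β - γ) ≤ 1 ∧ ∀ w, w ≠ v → av m w γ ≤ 1 := by
    intro v
    obtain ⟨γ, hγ, h1⟩ := hA m hm (fun w => if w = v then β else 0)
    refine ⟨γ, hγ, ?_, ?_⟩
    · have := h1 v
      rwa [if_pos rfl] at this
    · intro w hwv
      have := h1 w
      rw [if_neg hwv, zero_sub, (av m w).map_neg] at this
      exact this
  choose γ hγB hγv hγw using hbv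
  have hsum : ∀ s : Finset (Pl m), ∃ w : List (GL (Fin n) ℚ),
      w.prod = elmE x y hxy.ne (∑ v ∈ s, γ v) ∧ w.length ≤ s.card * (3 * k + 1) ∧
        ∀ t ∈ w, t ∈ E ∪ T := by
    intro s
    induction s using Finset.induction_on with
    | empty =>
      refine ⟨[], ?_, by simp, by simp⟩
      rw [Finset.sum_empty, elmE_zero, List.prod_nil]
    | insert v s hvs ih =>
      obtain ⟨w, h1, h2, h3⟩ := ih
      have hvk : av m v (γ v) ≤ 2 ^ (k + 1) := by
        have e2 : av m v (γ v) ≤ av m v β + av m v (β - γ v) := by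
          calc av m v (γ v) = av m v (β + -(β - γ v)) := by congr 1; ring
            _ ≤ av m v β + av m v (-(β - γ v)) := (av m v).add_le _ _
            _ = _ := by rw [(av m v).map_neg]
        have e5 : (1 : ℚ) ≤ 2 ^ k := one_le_pow₀ (by norm_num)
        have e6 : (2 : ℚ) ^ (k + 1) = 2 ^ k + 2 ^ k := by rw [pow_succ]; ring
        have e7 := hk v
        have e8 := hγv v
        rw [e6]
        linarith
      obtain ⟨w', h1', h2', h3'⟩ := one v x y hxy k (γ v) (hγB v) hvk (hγw v)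
      refine ⟨w' ++ w, ?_, ?_, ?_⟩
      · rw [List.prod_append, h1, h1', Finset.sum_insert hvs, elmE_add]
      · rw [List.length_append, Finset.card_insert_of_notMem hvs]
        nlinarith
      · intro t ht
        rcases List.mem_append.mp ht with ht | ht
        · exact h3' t ht
        · exact h3 t ht
  obtain ⟨w, h1, h2, h3⟩ := hsum Finset.univ
  set δ := β - ∑ v : Pl m, γ v with hδ
  have hδB : δ ∈ Bm m := (Bm m).sub_mem hβ ((Bm m).sum_mem fun v _ => hγB v)
  have hδR : ∀ w, av m w δ ≤ R := by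
    intro w
    have e0 : δ = (β - γ w) + -(∑ v ∈ Finset.univ.erase w, γ v) := by
      rw [hδ, ← Finset.add_sum_erase Finset.univ γ (Finset.mem_univ w)]
      ring
    have e1 : av m w δ ≤ av m w (β - γ w) + ∑ v ∈ Finset.univ.erase w, av m w (γ v) := by
      calc av m w δ = av m w ((β - γ w) + -(∑ v ∈ Finset.univ.erase w, γ v)) := by rw [← e0]
        _ ≤ av m w (β - γ w) + av m w (-(∑ v ∈ Finset.univ.erase w, γ v)) := (av m w).add_le _ _
        _ = av m w (β - γ w) + av m w (∑ v ∈ Finset.univ.erase w, γ v) := by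
            rw [(av m w).map_neg]
        _ ≤ _ := by
            gcongr
            exact (av m w).sum_le _ _
    have e2 : ∑ v ∈ Finset.univ.erase w, av m w (γ v) ≤
        ∑ v ∈ Finset.univ.erase w, (1 : ℚ) := by
      apply Finset.sum_le_sum
      intro v hv
      exact hγw v w (Finset.ne_of_mem_erase hv).symm
    have e3 : ∑ v ∈ Finset.univ.erase w, (1 : ℚ) ≤ Fintype.card (Pl m) := by
      rw [Finset.sum_const, nsmul_eq_mul, mul_one]
      exact_mod_cast (Finset.card_le_card (Finset.erase_subset _ _))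
    have e4 := hγv w
    rw [hR]; push_cast
    have : (0 : ℚ) ≤ (R0 : ℚ) := by positivity
    linarith
  refine ⟨elmE x y hxy.ne δ :: w, ?_, ?_, ?_⟩
  · rw [List.prod_cons, h1, ← elmE_add, hge]
    congr 1
    rw [hδ]; ring
  · rw [List.length_cons]
    rw [Finset.card_univ] at h2
    nlinarith [Nat.zero_le (Fintype.card (Pl m))]
  · intro t ht
    rcases List.mem_cons.mp ht with rfl | ht
    · exact Or.inl ⟨x, y, hxy, δ, hδB, hδR, rfl⟩
    · exact h3 t ht

end QN
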