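import Pool.Agent.Helper87.QN.GEO

set_option autoImplicit false

/-! Row FIL: quadratic fillings of null words. -/

namespace QN

open QD

/-! ### Words -/

section words

variable {G : Type} [Group G] {S : Set G} {c : ℕ}

theorem fil_ones (hc : 1 ≤ c) (h1 : (1 : G) ∈ S) (u : List G) (k : ℕ) :
    Ar S c k (u ++ List.replicate k 1) u := by
  induction k with
  | zero => simpa using Ar.refl _ _
  | succ k ih =>
    have h2 : Ar S c 1 [(1 : G)] [] := by
      apply Ar.whole
      · simp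
      · simpa using hc
      · simp
      · intro x hx
        rw [List.mem_singleton] at hx
        rw [hx]
        exact h1
      · simp
    have h3 := h2.left (u ++ List.replicate k 1)
    have h4 := h3.trans (by simpa using ih)
    rw [List.replicate_succ', ← List.append_assoc]
    exact h4.mono_k (by omega)

theorem fil_cancel (hc : 2 ≤ c) (R : List G) (hR : ∀ g ∈ R, g ∈ S ∧ g⁻¹ ∈ S) :
    Ar S c R.length (R ++ (R.map fun g => g⁻¹).reverse) [] := by
  induction R with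
  | nil => exact Ar.refl _ _
  | cons g R ih =>
    have h1 := (ih (fun x hx => hR x (List.mem_cons_of_mem _ hx))).congr [g] [g⁻¹]
    have h2 : Ar S c 1 [g, g⁻¹] [] := by
      apply Ar.whole
      · simp
      · simpa using hc
      · simp
      · intro x hx
        simp only [List.mem_cons, List.not_mem_nil, or_false] at hx
        rcases hx with rfl | rfl
        · exact (hR x (by simp)).1
        · exact (hR g (by simp)).2
      · simp
    have h3 := h1.trans (by simpa using h2)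
    simp only [List.map_cons, List.reverse_cons, List.length_cons]
    have h4 : g :: R ++ ((R.map fun g => g⁻¹).reverse ++ [g⁻¹])
        = [g] ++ (R ++ (R.map fun g => g⁻¹).reverse) ++ [g⁻¹] := by simp
    rw [h4]
    exact h3

theorem fil_tel (hc : 2 ≤ c) (a b κ : ℕ → G) (ha : ∀ e, a e ∈ S) (hb : ∀ e, b e ∈ S)
    (hκ : ∀ e, κ e ∈ S) (h : ∀ e, κ e * b e = a e * κ (e + 1)) (k : ℕ) :
    Ar S c k (κ 0 :: (List.range k).map b) ((List.range k).map a ++ [κ k]) := by
  induction k with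
  | zero => simpa using Ar.refl _ _
  | succ k ih =>
    have h2 : Ar S c 1 [κ k, b k] [a k, κ (k + 1)] := by
      apply Ar.whole
      · simp [h k]
      · simpa using hc
      · simpa using hc
      · intro x hx
        simp only [List.mem_cons, List.not_mem_nil, or_false] at hx
        rcases hx with rfl | rfl
        · exact hκ _
        · exact hb _
      · intro x hx
        simp only [List.mem_cons, List.not_mem_nil, or_false] at hx
        rcases hx with rfl | rfl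
        · exact ha _
        · exact hκ _
    have h3 := ih.right [b k]
    have h4 := h2.left ((List.range k).map a)
    have h5 : (List.range k).map a ++ [κ k] ++ [b k] = (List.range k).map a ++ [κ k, b k] := by
      simp
    rw [h5] at h3
    have h6 := h3.trans h4
    rw [List.range_succ, List.map_append, List.map_append]
    have h7 : κ 0 :: ((List.range k).map b ++ List.map b [k])
        = κ 0 :: (List.range k).map b ++ [b k] := by simp
    have h8 : (List.range k).map a ++ List.map a [k] ++ [κ (k + 1)]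
        = (List.range k).map a ++ [a k, κ (k + 1)] := by simp
    rw [h7, h8]
    exact h6

theorem fil_getD (w : List G) (n : ℕ) (h : w.length ≤ n) :
    (List.range n).map (fun e => w.getD e 1) = w ++ List.replicate (n - w.length) 1 := by
  apply List.ext_getElem
  · simp
    omega
  · intro i h1 h2
    rw [List.getElem_map, List.getElem_range]
    rcases lt_or_ge i w.length with h3 | h3
    · rw [List.getElem_append_left h3, List.getD_eq_getElem _ _ h3]
    · rw [List.getElem_append_right h3, List.getElem_replicate, List.getD_eq_default _ _ h3]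

theorem fil_take (w : List G) (x : ℕ) :
    (w.take (x + 1)).prod = (w.take x).prod * w.getD x 1 := by
  rcases lt_or_ge x w.length with h3 | h3
  · rw [List.prod_take_succ _ _ h3, List.getD_eq_getElem _ _ h3]
  · rw [List.take_of_length_le (by omega), List.take_of_length_le h3,
      List.getD_eq_default _ _ h3, mul_one]

theorem fil_QAr_mono {T T' : Set G} {c' A A' : ℕ} (hc : c ≤ c') (hA : A ≤ A') (hT : T' ⊆ T)
    (h : QAr S T c A) : QAr S T' c' A' := by
  intro u v hu hv huv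
  refine ((h u v (fun g hg => hT (hu g hg)) (fun g hg => hT (hv g hg)) huv).mono hc
    (le_refl S)).mono_k ?_
  have := Nat.mul_le_mul_right ((u.length + v.length) ^ 2) hA
  omega

theorem fil_QAr_empty {A : ℕ} : QAr S (∅ : Set G) c A := by
  intro u v hu hv _
  have h1 : u = [] := List.eq_nil_iff_forall_not_mem.2 fun g hg => hu g hg
  have h2 : v = [] := List.eq_nil_iff_forall_not_mem.2 fun g hg => hv g hg
  rw [h1, h2]
  exact Ar.refl _ _

end words

/-! ### Norm families -/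

variable {m n : ℕ}

theorem fil_close_mono {N N' : Pl m → (Fin n → ℚ) → ℚ} (hN : IsNF m n N) (hN' : IsNF m n N')
    {r r' : ℕ} (hr : r ≤ r') (h : Close r N N') : Close r' N N' := by
  intro v x
  have h1 : (2 : ℚ) ^ r ≤ 2 ^ r' := pow_le_pow_right₀ one_le_two hr
  refine ⟨(h v x).1.trans ?_, (h v x).2.trans ?_⟩
  · exact mul_le_mul_of_nonneg_right h1 (geo_nonneg hN' v x)
  · exact mul_le_mul_of_nonneg_right h1 (geo_nonneg hN v x)

theorem fil_close_trans {N N' N'' : Pl m → (Fin n → ℚ) → ℚ} {r s : ℕ} (h : Close r N N')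
    (h' : Close s N' N'') : Close (r + s) N N'' := by
  intro v x
  constructor
  · calc N v x ≤ 2 ^ r * N' v x := (h v x).1
      _ ≤ 2 ^ r * (2 ^ s * N'' v x) := by
          apply mul_le_mul_of_nonneg_left (h' v x).1 (by positivity)
      _ = 2 ^ (r + s) * N'' v x := by rw [pow_add]; ring
  · calc N'' v x ≤ 2 ^ s * N' v x := (h' v x).2
      _ ≤ 2 ^ s * (2 ^ r * N v x) := by
          apply mul_le_mul_of_nonneg_left (h v x).2 (by positivity)
      _ = 2 ^ (r + s) * N v x := by rw [pow_add]; ring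

theorem fil_close_refl (N : Pl m → (Fin n → ℚ) → ℚ) : Close 0 N N := by
  intro v x
  simp

theorem fil_line {B : ℕ} (f : ℕ → Pl m → (Fin n → ℚ) → ℚ) (hf : ∀ i, Close B (f i) (f (i + 1)))
    (i k : ℕ) : Close (B * k) (f i) (f (i + k)) := by
  induction k with
  | zero => simpa using fil_close_refl (f i)
  | succ k ih =>
    have h1 := fil_close_trans ih (hf (i + k))
    have h2 : B * k + B = B * (k + 1) := by ring
    rw [h2] at h1
    exact h1

theorem fil_line' {B : ℕ} (f : ℕ → Pl m → (Fin n → ℚ) → ℚ) (hf : ∀ i, Close B (f i) (f (i + 1)))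
    (i j : ℕ) : Close (B * ((i - j) + (j - i))) (f i) (f j) := by
  rcases le_total i j with h | h
  · have h1 := fil_line f hf i (j - i)
    have h2 : i + (j - i) = j := by omega
    have h3 : i - j + (j - i) = j - i := by omega
    rw [h2] at h1
    rw [h3]
    exact h1
  · have h1 := geo_symm (fil_line f hf j (i - j))
    have h2 : j + (i - j) = i := by omega
    have h3 : i - j + (j - i) = i - j := by omega
    rw [h2] at h1
    rw [h3]
    exact h1

theorem fil_grid {B : ℕ} (N : ℕ → ℕ → Pl m → (Fin n → ℚ) → ℚ)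
    (hx : ∀ x y, Close B (N x y) (N (x + 1) y)) (hy : ∀ x y, Close B (N x y) (N x (y + 1)))
    (x y x' y' : ℕ) : Close (B * gd x y x' y') (N x y) (N x' y') := by
  have h1 := fil_line' (fun i => N i y) (fun i => hx i y) x x'
  have h2 := fil_line' (fun i => N x' i) (fun i => hy x' i) y y'
  have h3 := fil_close_trans h1 h2
  have h4 : B * ((x - x') + (x' - x)) + B * ((y - y') + (y' - y)) = B * gd x y x' y' := by
    unfold gd
    ring
  rw [h4] at h3
  exact h3

theorem fil_size_ex (g : GL (Fin n) ℚ) : ∃ k, SizeLe m k g := by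
  -- a common bound for finitely many numbers
  have hb : ∀ r : ℚ, ∃ k : ℕ, r ≤ 2 ^ k := by
    intro r
    obtain ⟨k, hk⟩ := pow_unbounded_of_one_lt r (one_lt_two : (1 : ℚ) < 2)
    exact ⟨k, hk.le⟩
  choose f hf using hb
  refine ⟨∑ v : Pl m, ∑ x : Fin n, ∑ y : Fin n, (f (av m v (g.1 x y)) + f (av m v ((g⁻¹).1 x y))),
    fun v x y => ?_⟩
  have h1 : f (av m v (g.1 x y)) + f (av m v ((g⁻¹).1 x y)) ≤
      ∑ v : Pl m, ∑ x : Fin n, ∑ y : Fin n,
        (f (av m v (g.1 x y)) + f (av m v ((g⁻¹).1 x y))) := by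
    calc f (av m v (g.1 x y)) + f (av m v ((g⁻¹).1 x y))
        ≤ ∑ y : Fin n, (f (av m v (g.1 x y)) + f (av m v ((g⁻¹).1 x y))) :=
          Finset.single_le_sum (f := fun y => f (av m v (g.1 x y)) + f (av m v ((g⁻¹).1 x y)))
            (fun _ _ => Nat.zero_le _) (Finset.mem_univ y)
      _ ≤ ∑ x : Fin n, ∑ y : Fin n, (f (av m v (g.1 x y)) + f (av m v ((g⁻¹).1 x y))) :=
          Finset.single_le_sum (f := fun x => ∑ y : Fin n, (f (av m v (g.1 x y)) +
            f (av m v ((g⁻¹).1 x y)))) (fun _ _ => Nat.zero_le _) (Finset.mem_univ x)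
      _ ≤ _ := Finset.single_le_sum (f := fun v => ∑ x : Fin n, ∑ y : Fin n,
            (f (av m v (g.1 x y)) + f (av m v ((g⁻¹).1 x y))))
            (fun _ _ => Nat.zero_le _) (Finset.mem_univ v)
  constructor
  · exact (hf _).trans (pow_le_pow_right₀ one_le_two (by omega))
  · exact (hf _).trans (pow_le_pow_right₀ one_le_two (by omega))

theorem fil_size_set {S : Set (GL (Fin n) ℚ)} (hS : S.Finite) : ∃ k, ∀ s ∈ S, SizeLe m k s := by
  choose f hf using fun g : GL (Fin n) ℚ => fil_size_ex (m := m) g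
  obtain ⟨k, hk⟩ := (hS.image f).bddAbove
  exact ⟨k, fun s hs => geo_size_mono (hk (Set.mem_image_of_mem f hs)) (hf s)⟩

/-- finitely many matrices of bounded size -/
theorem fil_fin (hNTB : ST_NTB) (hm : 0 < m) (k : ℕ) :
    {g : GL (Fin n) ℚ | g ∈ GLB (Bm m) ∧ SizeLe m k g}.Finite := by
  have hF := hNTB m (2 ^ k) hm
  set F : Set ℚ := {β : ℚ | β ∈ Bm m ∧ ∀ i, av m i β ≤ ((2 ^ k : ℕ) : ℚ)} with hFdef
  have h0 : {f : Fin n → ℚ | ∀ i, f i ∈ F}.Finite := Set.Finite.pi' fun _ => hF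
  have h1 : {M : Fin n → Fin n → ℚ | ∀ x, M x ∈ {f : Fin n → ℚ | ∀ i, f i ∈ F}}.Finite :=
    Set.Finite.pi' fun _ => h0
  refine Set.Finite.of_finite_image (f := fun g : GL (Fin n) ℚ => g.1) (h1.subset ?_) ?_
  · rintro M ⟨g, hg, rfl⟩ x y
    refine ⟨hg.1.1 x y, fun v => ?_⟩
    have := (hg.2 v x y).1
    push_cast
    exact this
  · intro a _ b _ hab
    exact Units.ext hab

/-- the norm families of the grid -/
noncomputable def filN (m : ℕ) {n : ℕ} (w : List (GL (Fin n) ℚ)) (K' : ℕ) (x y : ℕ) :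
    Pl m → (Fin n → ℚ) → ℚ :=
  maxN (actN 0 (w.take x).prod (N0 m n)) (actN ((y : ℤ) - K') 1 (N0 m n))

theorem fil_exp (H : ℕ) (hH : 1 ≤ H) : ∃ K : ℕ, H ≤ 2 ^ K ∧ 2 ^ K ≤ 2 * H := by
  refine ⟨Nat.clog 2 H, Nat.le_pow_clog (by norm_num) H, ?_⟩
  rcases Nat.lt_or_ge 1 H with h | h
  · have h1 := Nat.pow_pred_clog_lt_self (b := 2) (by norm_num) h
    have h2 : 0 < Nat.clog 2 H := Nat.clog_pos (by norm_num) (by omega)
    obtain ⟨k, hk⟩ := Nat.exists_eq_succ_of_ne_zero h2.ne'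
    rw [hk] at h1 ⊢
    simp only [Nat.pred_succ] at h1
    rw [pow_succ]
    omega
  · have : H = 1 := by omega
    subst this
    simp

/-- the facts about the families of the grid -/
theorem fil_facts (hNRM : ST_NRM) (m n : ℕ) : ∃ e : ℕ, ∀ (κ : ℕ)
    (w : List (GL (Fin n) ℚ)), (∀ s ∈ w, SizeLe m κ s) → SizeLe m κ (1 : GL (Fin n) ℚ) →
    ∀ K' : ℕ, (κ + e + 1) * (w.length + 1) ≤ K' →
    (∀ x y, IsNF m n (filN m w K' x y)) ∧
    (∀ x y, Close (κ + e + 1) (filN m w K' x y) (filN m w K' (x + 1) y)) ∧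
    (∀ x y, Close (κ + e + 1) (filN m w K' x y) (filN m w K' x (y + 1))) ∧
    (∀ x, filN m w K' x 0 = actN 0 (w.take x).prod (N0 m n)) ∧
    (∀ x y, 2 * K' ≤ y → filN m w K' x y = actN ((y : ℤ) - K') 1 (N0 m n)) ∧
    (∀ y, ∃ t : ℤ, filN m w K' 0 y = actN t 1 (N0 m n)) := by
  obtain ⟨f1, f2, f3, -, -, -, f7, f8, ⟨e, f9⟩, f10⟩ := hNRM m n
  refine ⟨e, fun κ w hw h1 K' hK' => ?_⟩
  have hs : ∀ x, SizeLe m κ (w.getD x 1) := by
    intro x
    rcases lt_or_ge x w.length with h3 | h3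
    · rw [List.getD_eq_getElem _ _ h3]
      exact hw _ (List.getElem_mem h3)
    · rw [List.getD_eq_default _ _ h3]
      exact h1
  have hnf : ∀ (t : ℤ) (g : GL (Fin n) ℚ), IsNF m n (actN t g (N0 m n)) := fun t g => f2 _ t g f1
  have hstep : ∀ (t : ℤ) (x : ℕ), Close (κ + e) (actN t (w.take x).prod (N0 m n))
      (actN t (w.take (x + 1)).prod (N0 m n)) := by
    intro t x
    rw [fil_take]
    exact f9 t _ _ κ (hs x)
  have hfar : ∀ (t : ℤ) (x : ℕ), Close ((κ + e) * w.length) (actN t 1 (N0 m n))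
      (actN t (w.take x).prod (N0 m n)) := by
    intro t x
    have h2 : ∀ x, Close ((κ + e) * x) (actN t 1 (N0 m n)) (actN t (w.take x).prod (N0 m n)) := by
      intro x
      have := fil_line (fun i => actN t (w.take i).prod (N0 m n)) (hstep t) 0 x
      simpa using this
    rcases le_total x w.length with h3 | h3
    · exact fil_close_mono (hnf _ _) (hnf _ _) (Nat.mul_le_mul_left _ h3) (h2 x)
    · have h4 := h2 w.length
      rw [List.take_length] at h4
      rw [List.take_of_length_le h3]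
      exact h4
  have hM0 : (κ + e) * w.length ≤ K' := by
    refine le_trans ?_ hK'
    exact Nat.mul_le_mul (by omega) (by omega)
  refine ⟨fun x y => f3 _ _ (hnf _ _) (hnf _ _), fun x y => ?_, fun x y => ?_, fun x => ?_,
    fun x y hy => ?_, fun y => ?_⟩
  · apply f7
    · exact fil_close_mono (hnf _ _) (hnf _ _) (by omega) (hstep 0 x)
    · exact fil_close_mono (hnf _ _) (hnf _ _) (Nat.zero_le _) (fil_close_refl _)
  · apply f7
    · exact fil_close_mono (hnf _ _) (hnf _ _) (Nat.zero_le _) (fil_close_refl _)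
    · have h2 := f8 (N0 m n) f1 ((y : ℤ) - K') 1
      have h3 : ((y : ℤ) - K') + 1 = ((y + 1 : ℕ) : ℤ) - K' := by push_cast; ring
      rw [h3] at h2
      exact fil_close_mono (hnf _ _) (hnf _ _) (by omega) h2
  · unfold filN
    apply f10 0 _ _ _ ((κ + e) * w.length)
    · exact geo_symm (hfar 0 x)
    · push_cast
      have : (((κ + e) * w.length : ℕ) : ℤ) ≤ K' := by exact_mod_cast hM0
      push_cast at this
      linarith
  · unfold filN
    have hcomm : ∀ N N' : Pl m → (Fin n → ℚ) → ℚ, maxN N N' = maxN N' N := by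
      intro N N'
      funext v x
      exact max_comm _ _
    rw [hcomm]
    apply f10 ((y : ℤ) - K') _ _ _ ((κ + e) * w.length)
    · exact hfar _ x
    · have : (((κ + e) * w.length : ℕ) : ℤ) ≤ K' := by exact_mod_cast hM0
      push_cast at this ⊢
      have h2 : (2 * K' : ℤ) ≤ y := by exact_mod_cast hy
      linarith
  · unfold filN
    have hcomm : ∀ N N' : Pl m → (Fin n → ℚ) → ℚ, maxN N N' = maxN N' N := by
      intro N N'
      funext v x
      exact max_comm _ _
    have hr : ∀ (s t : ℤ), t ≤ s → maxN (actN (m := m) s (1 : GL (Fin n) ℚ) (N0 m n))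
        (actN t 1 (N0 m n)) = actN s 1 (N0 m n) := by
      intro s t hst
      apply f10 s t 1 1 0 (fil_close_refl _)
      push_cast
      linarith
    rw [List.take_zero, List.prod_nil]
    rcases le_total (0 : ℤ) ((y : ℤ) - K') with h2 | h2
    · refine ⟨(y : ℤ) - K', ?_⟩
      rw [hcomm]
      exact hr _ _ h2
    · exact ⟨0, hr _ _ h2⟩

theorem fil_count {M K B l : ℕ} (h9 : 2 ^ K ≤ 4 * (B * (l + 1))) :
    (2 ^ K - l) + (1 + (2 ^ K + ((2 ^ K + (M * 4 ^ K + (2 ^ K + 2 ^ K))) + 1)))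
      ≤ (M + 7) * 32 * B ^ 2 * l ^ 2 + (M + 7) * 32 * B ^ 2 := by
  have hK4 : (4 : ℕ) ^ K = (2 ^ K) ^ 2 := by
    rw [← pow_mul, mul_comm, pow_mul]
    norm_num
  have hK5 : 2 ^ K ≤ 4 ^ K := Nat.pow_le_pow_left (by norm_num) K
  have hK6 : 1 ≤ 4 ^ K := Nat.one_le_pow _ _ (by norm_num)
  have h8 : 4 ^ K ≤ 32 * B ^ 2 * (l ^ 2 + 1) := by
    calc 4 ^ K = (2 ^ K) ^ 2 := hK4
      _ ≤ (4 * (B * (l + 1))) ^ 2 := Nat.pow_le_pow_left h9 2
      _ = 16 * B ^ 2 * (l + 1) ^ 2 := by ring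
      _ ≤ 16 * B ^ 2 * (2 * (l ^ 2 + 1)) := by
          apply Nat.mul_le_mul_left
          have : 2 * l ≤ l ^ 2 + 1 := by
            have h11 : (2 * (l : ℤ)) ≤ (l : ℤ) ^ 2 + 1 := by
              nlinarith [sq_nonneg ((l : ℤ) - 1)]
            exact_mod_cast h11
          nlinarith
      _ = 32 * B ^ 2 * (l ^ 2 + 1) := by ring
  calc (2 ^ K - l) + (1 + (2 ^ K + ((2 ^ K + (M * 4 ^ K + (2 ^ K + 2 ^ K))) + 1)))
      ≤ (M + 7) * 4 ^ K := by
        have : (M + 7) * 4 ^ K = M * 4 ^ K + 7 * 4 ^ K := by ring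
        omega
    _ ≤ (M + 7) * (32 * B ^ 2 * (l ^ 2 + 1)) := Nat.mul_le_mul_left _ h8
    _ = (M + 7) * 32 * B ^ 2 * l ^ 2 + (M + 7) * 32 * B ^ 2 := by ring

theorem st_FIL (hGEO : ST_GEO) (hNRM : ST_NRM) (hPAR : ST_PAR) (h0 : ST_GRD0) (h2 : ST_GRD2)
    (hNTB : ST_NTB) : ST_FIL := by
  intro m n hm h6 hn hMain S₁ C hS₁f h1S₁ hS₁inv hS₁B hW₁
  obtain ⟨Cg, ρ, D, g1, g2, g3, g4, g5⟩ := hGEO m n hm h6 hn
  obtain ⟨κ, hκ⟩ := fil_size_set (m := m) hS₁f
  obtain ⟨e, he⟩ := fil_facts hNRM m n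
  -- the sets of the parabolic subgroups
  have hpar : ∀ i : ℕ, ∃ T : Set (GL (Fin n) ℚ), T.Finite ∧ (∀ s ∈ T, s ∈ GLB (Bm m)) ∧
      (0 < i → i < n → ∀ S : Set (GL (Fin n) ℚ), S.Finite → (∀ s ∈ S, s⁻¹ ∈ S) → T ⊆ S →
        (∀ s ∈ S, s ∈ GLB (Bm m)) → ∃ c A : ℕ, QAr S (S ∩ {g | g ∈ Pst i}) c A) := by
    intro i
    by_cases hi : 0 < i ∧ i < n
    · obtain ⟨T, a, b, c⟩ := hPAR m n hm h6 hMain i hi.1 hi.2
      exact ⟨T, a, fun s hs => (b s hs).1, fun _ _ S hS hSi hTS hSB => c S hS hSi hTS hSB⟩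
    · refine ⟨∅, Set.finite_empty, fun s hs => absurd hs (Set.notMem_empty s), fun h1 h2 => ?_⟩
      exact absurd ⟨h1, h2⟩ hi
  choose T hT1 hT2 hT3 using hpar
  set B : ℕ := κ + e + 1 with hB
  set L : ℕ := 2 * B with hL
  set C0 : ℕ := Cg * (B + 1) with hC0
  set E : ℕ := E0 C0 L with hE
  have hEpos : 0 < E := by rw [hE]; unfold E0; omega
  set k1 : ℕ := Cg * (E + B + 1) with hk1
  -- the generating set
  set S0 : Set (GL (Fin n) ℚ) := S₁ ∪ (⋃ i ∈ Finset.range n, T i) ∪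
    {g | g ∈ GLB (Bm m) ∧ SizeLe m k1 g} with hS0
  have hS0f : S0.Finite := by
    refine (hS₁f.union ?_).union (fil_fin hNTB hm k1)
    exact Set.Finite.biUnion (Finset.finite_toSet _) fun i _ => hT1 i
  have hS0B : ∀ s ∈ S0, s ∈ GLB (Bm m) := by
    rintro s ((hs | hs) | hs)
    · exact hS₁B s hs
    · simp only [Set.mem_iUnion] at hs
      obtain ⟨i, -, hs⟩ := hs
      exact hT2 i s hs
    · exact hs.1
  set S : Set (GL (Fin n) ℚ) := S0 ∪ {g | g⁻¹ ∈ S0} with hS
  have hSf : S.Finite := hS0f.union (hS0f.preimage inv_injective.injOn)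
  have hSinv : ∀ s ∈ S, s⁻¹ ∈ S := by
    rintro s (hs | hs)
    · right
      show s⁻¹⁻¹ ∈ S0
      rw [inv_inv]
      exact hs
    · left
      exact hs
  have hSB : ∀ s ∈ S, s ∈ GLB (Bm m) := by
    rintro s (hs | hs)
    · exact hS0B s hs
    · have := (GLB (Bm m)).inv_mem (hS0B _ hs)
      rwa [inv_inv] at this
  have hS₁S : S₁ ⊆ S := fun s hs => Or.inl (Or.inl (Or.inl hs))
  have hTS : ∀ i, i < n → T i ⊆ S := by
    intro i hi s hs
    left; left; right
    simp only [Set.mem_iUnion]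
    exact ⟨i, Finset.mem_range.2 hi, hs⟩
  have hkS : ∀ g, g ∈ GLB (Bm m) → SizeLe m k1 g → g ∈ S := fun g hg hk =>
    Or.inl (Or.inr ⟨hg, hk⟩)
  -- the words
  have hWex : ∀ g : GL (Fin n) ℚ, ∃ w : List (GL (Fin n) ℚ), g ∈ GLB (Bm m) →
      (w.prod = g ∧ (∀ k, SizeLe m k g → w.length ≤ C * (k + 1)) ∧
        ∀ s ∈ w, s ∈ S₁ ∧ ∀ i, g ∈ Pst i → s ∈ Pst i) := by
    intro g
    by_cases hg : g ∈ GLB (Bm m)
    · classical
      obtain ⟨w, a, b, c⟩ := hW₁ (Nat.find (fil_size_ex (m := m) g)) g hg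
        (Nat.find_spec (fil_size_ex (m := m) g))
      refine ⟨w, fun _ => ⟨a, fun k hk => b.trans ?_, c⟩⟩
      exact Nat.mul_le_mul_left _ (Nat.succ_le_succ (Nat.find_min' _ hk))
    · exact ⟨[], fun h => absurd h hg⟩
  choose W hW using hWex
  set P : ℕ → Set (GL (Fin n) ℚ) := fun j => {g | g ∈ GLB (Bm m) ∧ 0 < j ∧ j < n ∧ g ∈ Pst j}
    with hP
  set A : ℕ := C * (Cg * (B + 1) + 1) with hA
  -- quadratic areas in the parabolic subgroups
  have hq : ∀ j, ∃ c A : ℕ, QAr S (S ∩ P j) c A := by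
    intro j
    by_cases hj : 0 < j ∧ j < n
    · obtain ⟨c, A', h⟩ := hT3 j hj.1 hj.2 S hSf hSinv (hTS j hj.2) hSB
      refine ⟨c, A', fil_QAr_mono le_rfl le_rfl ?_ h⟩
      rintro s ⟨hs, hs'⟩
      exact ⟨hs, hs'.2.2.2⟩
    · refine ⟨0, 0, fil_QAr_mono le_rfl le_rfl ?_ (fil_QAr_empty (S := S))⟩
      rintro s ⟨-, hs'⟩
      exact absurd ⟨hs'.2.1, hs'.2.2.1⟩ hj
  choose cj Aj hj using hq
  set cq : ℕ := ∑ j ∈ Finset.range n, cj j with hcq
  set Aq : ℕ := ∑ j ∈ Finset.range n, Aj j with hAq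
  have hq' : ∀ j, QAr S (S ∩ P j) cq Aq := by
    intro j
    by_cases hjn : j < n
    · exact fil_QAr_mono (Finset.single_le_sum (f := cj) (fun _ _ => Nat.zero_le _)
        (Finset.mem_range.2 hjn)) (Finset.single_le_sum (f := Aj) (fun _ _ => Nat.zero_le _)
        (Finset.mem_range.2 hjn)) (le_refl _) (hj j)
    · refine fil_QAr_mono le_rfl le_rfl ?_ (fil_QAr_empty (S := S))
      rintro s ⟨-, hs'⟩
      exact absurd hs'.2.2.1 hjn
  obtain ⟨M, c, hM⟩ := h2 A C0 L 0 cq Aq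
  refine ⟨S, max c 2, (M + 7) * 32 * B ^ 2, hSf, hS₁S, hSinv, hSB, fun w hw hw1 => ?_⟩
  have hc2 : 2 ≤ max c 2 := le_max_right _ _
  have hc1 : 1 ≤ max c 2 := by omega
  set K' : ℕ := B * (w.length + 1) with hK'
  obtain ⟨hnf, hxx, hyy, hb0, htp, hlf⟩ := he κ w (fun s hs => hκ s (hw s hs)) (hκ 1 h1S₁) K' le_rfl
  obtain ⟨K, hK1, hK2⟩ := fil_exp (2 * K') (by
    rw [hK', hB]
    have : 0 < (κ + e + 1) * (w.length + 1) := by positivity
    omega)
  have hlK : w.length ≤ 2 ^ K := by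
    have h3 : w.length + 1 ≤ K' := by
      rw [hK']
      exact Nat.le_mul_of_pos_left _ (by rw [hB]; omega)
    omega
  set N : ℕ → ℕ → Pl m → (Fin n → ℚ) → ℚ := filN m w K' with hN
  have hcl : ∀ x y x' y', Close (B * gd x y x' y') (N x y) (N x' y') :=
    fil_grid N hxx hyy
  set R : ℕ → ℕ → GL (Fin n) ℚ := fun x y => ρ (N x y) with hR
  set DD : ℕ → ℕ → ℕ := fun x y => D (N x y) with hDD
  have hRB : ∀ x y x' y', (R x y)⁻¹ * R x' y' ∈ GLB (Bm m) := fun x y x' y' =>
    (GLB (Bm m)).mul_mem ((GLB (Bm m)).inv_mem (g1 _ (hnf x y))) (g1 _ (hnf x' y'))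
  have hgrid : Grid (GL (Fin n) ℚ) ℕ S P W A C0 L R DD := by
    constructor
    · rintro g ⟨j, hj⟩
      obtain ⟨a, -, c'⟩ := hW g hj.1
      exact ⟨a, fun s hs => hS₁S (c' s hs).1, fun j' hj' s hs =>
        ⟨hS₁B _ (c' s hs).1, hj'.2.1, hj'.2.2.1, (c' s hs).2 j' hj'.2.2.2⟩⟩
    · rintro x y x' y' ⟨j, hj⟩
      have h3 := (hW _ hj.1).2.1 _ (g3 _ _ _ (hnf x y) (hnf x' y') (hcl x y x' y'))
      refine h3.trans ?_
      have h4 : Cg * (D (N x y) + B * gd x y x' y' + 1) + 1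
          ≤ (Cg * (B + 1) + 1) * (D (N x y) + gd x y x' y' + 1) := by
        have h5 : D (N x y) + B * gd x y x' y' + 1
            ≤ (B + 1) * (D (N x y) + gd x y x' y' + 1) := by nlinarith
        have h6 := Nat.mul_le_mul_left Cg h5
        nlinarith
      calc C * (Cg * (D (N x y) + B * gd x y x' y' + 1) + 1)
          ≤ C * ((Cg * (B + 1) + 1) * (D (N x y) + gd x y x' y' + 1)) :=
            Nat.mul_le_mul_left _ h4
        _ = A * (DD x y + gd x y x' y' + 1) := by rw [hA]; ring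
    · intro x y x' y'
      have h3 := g2 _ _ _ (hnf x y) (hnf x' y') (hcl x y x' y')
      calc DD x' y' ≤ DD x y + 2 * (B * gd x y x' y') := h3
        _ = DD x y + L * gd x y x' y' := by rw [hL]; ring
    · intro x y r hr
      have h3 : Cg * (B * r + 1) ≤ D (N x y) := by
        refine le_trans ?_ hr
        rw [hC0]
        have : B * r + 1 ≤ (B + 1) * (r + 1) := by nlinarith
        calc Cg * (B * r + 1) ≤ Cg * ((B + 1) * (r + 1)) := Nat.mul_le_mul_left _ this
          _ = Cg * (B + 1) * (r + 1) := by ring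
      obtain ⟨i, hi0, hin, hall⟩ := g4 (N x y) (B * r) (hnf x y) h3
      refine ⟨i, fun x₁ y₁ x₂ y₂ h4 h5 => ⟨hRB _ _ _ _, hi0, hin, ?_⟩⟩
      exact hall _ _ (hnf _ _) (hnf _ _)
        (fil_close_mono (hnf _ _) (hnf _ _) (Nat.mul_le_mul_left _ h4) (hcl x y x₁ y₁))
        (fil_close_mono (hnf _ _) (hnf _ _) (Nat.mul_le_mul_left _ h5) (hcl x y x₂ y₂))
    · intro x y x' y' h4 h5
      apply hkS _ (hRB _ _ _ _)
      refine geo_size_mono ?_ (g3 _ _ _ (hnf x y) (hnf x' y') (hcl x y x' y'))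
      rw [hk1]
      apply Nat.mul_le_mul_left
      have h7 : B * gd x y x' y' ≤ B * 1 := Nat.mul_le_mul_left _ h4
      have h8 : D (N x y) < E := h5
      omega
  -- the boundary
  have hwB : ∀ x, (w.take x).prod ∈ GLB (Bm m) := by
    intro x
    apply Subgroup.list_prod_mem
    intro s hs
    exact hS₁B s (hw s (List.mem_of_mem_take hs))
  have hD0 : ∀ x, DD x 0 = 0 := by
    intro x
    show D (N x 0) = 0
    rw [hb0 x]
    exact (g5 _ 0 (hwB x)).1
  have hDt : ∀ x, DD x (2 ^ K) = 0 := by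
    intro x
    show D (N x (2 ^ K)) = 0
    rw [htp x _ hK1]
    exact (g5 _ _ (GLB (Bm m)).one_mem).1
  have hDl : ∀ y, DD 0 y = 0 := by
    intro y
    obtain ⟨t, ht⟩ := hlf y
    show D (N 0 y) = 0
    rw [ht]
    exact (g5 _ _ (GLB (Bm m)).one_mem).1
  have hNr : ∀ y, N (2 ^ K) y = N 0 y := by
    intro y
    show filN m w K' (2 ^ K) y = filN m w K' 0 y
    unfold filN
    rw [List.take_of_length_le hlK, hw1, List.take_zero, List.prod_nil]
  have hDr : ∀ y, DD (2 ^ K) y = 0 := by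
    intro y
    show D (N (2 ^ K) y) = 0
    rw [hNr]
    exact hDl y
  have hbot : ew W E R DD 1 0 K 0 0 = (List.range (2 ^ K)).map
      (fun x => (R x 0)⁻¹ * R (x + 1) 0) := by
    have h3 := (h0 _ _ S P W A C0 L R DD hgrid 1 0 rfl K 0 0).2.2 (by
      intro x _
      have h4 : 0 + x * 0 = 0 := by ring
      rw [h4, hD0]
      exact hEpos)
    rw [← hE] at h3
    rw [h3]
    apply List.map_congr_left
    intro x _
    simp
  have htop : ew W E R DD 1 0 K 0 (0 + 2 ^ K) = List.replicate (2 ^ K) 1 := by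
    have h3 := (h0 _ _ S P W A C0 L R DD hgrid 1 0 rfl K 0 (0 + 2 ^ K)).2.2 (by
      intro x _
      have h4 : 0 + 2 ^ K + x * 0 = 2 ^ K := by ring
      rw [h4, hDt]
      exact hEpos)
    rw [← hE] at h3
    rw [h3, List.eq_replicate_iff]
    refine ⟨by simp, ?_⟩
    intro b hb
    rw [List.mem_map] at hb
    obtain ⟨x, -, rfl⟩ := hb
    have h5 : R (0 + x * 1) (0 + 2 ^ K + x * 0) = R (0 + (x + 1) * 1) (0 + 2 ^ K + (x + 1) * 0) := by
      show ρ (N _ _) = ρ (N _ _)
      have h4 : 0 + 2 ^ K + x * 0 = 2 ^ K := by ring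
      have h4' : 0 + 2 ^ K + (x + 1) * 0 = 2 ^ K := by ring
      rw [h4, h4', htp _ _ hK1, htp _ _ hK1]
    rw [h5, inv_mul_cancel]
  have hleft : ew W E R DD 0 1 K 0 0 = (List.range (2 ^ K)).map
      (fun y => (R 0 y)⁻¹ * R 0 (y + 1)) := by
    have h3 := (h0 _ _ S P W A C0 L R DD hgrid 0 1 rfl K 0 0).2.2 (by
      intro x _
      have h4 : 0 + x * 0 = 0 := by ring
      rw [h4, hDl]
      exact hEpos)
    rw [← hE] at h3
    rw [h3]
    apply List.map_congr_left
    intro x _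
    simp
  have hright : ew W E R DD 0 1 K (0 + 2 ^ K) 0 = (List.range (2 ^ K)).map
      (fun y => (R 0 y)⁻¹ * R 0 (y + 1)) := by
    have h3 := (h0 _ _ S P W A C0 L R DD hgrid 0 1 rfl K (0 + 2 ^ K) 0).2.2 (by
      intro x _
      have h4 : 0 + 2 ^ K + x * 0 = 2 ^ K := by ring
      rw [h4, hDr]
      exact hEpos)
    rw [← hE] at h3
    rw [h3]
    apply List.map_congr_left
    intro x _
    have h4 : 0 + 2 ^ K + x * 0 = 2 ^ K := by ring
    have h4' : 0 + 2 ^ K + (x + 1) * 0 = 2 ^ K := by ring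
    have h5 : 0 + x * 1 = x := by ring
    have h6 : 0 + (x + 1) * 1 = x + 1 := by ring
    rw [h4, h4', h5, h6]
    show (ρ (N _ _))⁻¹ * ρ (N _ _) = (ρ (N _ _))⁻¹ * ρ (N _ _)
    rw [hNr, hNr]
  set Q : List (GL (Fin n) ℚ) := (List.range (2 ^ K)).map (fun y => (R 0 y)⁻¹ * R 0 (y + 1))
    with hQ
  set bot : List (GL (Fin n) ℚ) := (List.range (2 ^ K)).map (fun x => (R x 0)⁻¹ * R (x + 1) 0)
    with hbotdef
  have hAr := hM (GL (Fin n) ℚ) ℕ S P W R DD hgrid hq' K 0 0 (by
    rw [hD0]; omega)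
  rw [← hE, hbot, hright, hleft, htop] at hAr
  have hQS : ∀ g ∈ Q, g ∈ S ∧ g⁻¹ ∈ S := by
    intro g hg
    have h3 : g ∈ S := by
      rw [← hleft] at hg
      exact (h0 _ _ S P W A C0 L R DD hgrid 0 1 rfl K 0 0).2.1 g hg
    exact ⟨h3, hSinv g h3⟩
  have hQlen : Q.length = 2 ^ K := by rw [hQ]; simp
  have h1S : (1 : GL (Fin n) ℚ) ∈ S := hS₁S h1S₁
  -- the bottom word is null
  have hbnull : Ar S (max c 2) (2 ^ K + (M * 4 ^ K + (2 ^ K + 2 ^ K))) bot [] := by
    have a1 := ((fil_cancel hc2 Q hQS).left bot).symm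
    rw [List.append_nil, hQlen] at a1
    have a2 := (hAr.mono (le_max_left c 2) (le_refl S)).right ((Q.map fun g => g⁻¹).reverse)
    have a3 := (fil_ones hc1 h1S Q (2 ^ K)).right ((Q.map fun g => g⁻¹).reverse)
    have a4 := fil_cancel hc2 Q hQS
    rw [hQlen] at a4
    have a5 := a1.trans (by
      rw [← List.append_assoc]
      exact a2.trans (a3.trans a4))
    exact a5
  -- the word w
  have h7 : (List.range (2 ^ K)).map (fun x => w.getD x 1)
      = w ++ List.replicate (2 ^ K - w.length) 1 := fil_getD w _ hlK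
  have b1 : Ar S (max c 2) (2 ^ K - w.length) w
      ((List.range (2 ^ K)).map (fun x => w.getD x 1)) := by
    rw [h7]
    exact (fil_ones hc1 h1S w _).symm
  have haS : ∀ x, w.getD x 1 ∈ S := by
    intro x
    rcases lt_or_ge x w.length with h3 | h3
    · rw [List.getD_eq_getElem _ _ h3]
      exact hS₁S (hw _ (List.getElem_mem h3))
    · rw [List.getD_eq_default _ _ h3]
      exact h1S
  have hbS : ∀ x, (R x 0)⁻¹ * R (x + 1) 0 ∈ S := by
    intro x
    apply hgrid.hS
    · unfold gd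
      omega
    · rw [hD0]
      exact hEpos
  have hκS : ∀ x, ((w.take x).prod)⁻¹ * R x 0 ∈ S := by
    intro x
    have h3 : R x 0 = ρ (actN 0 (w.take x).prod (N0 m n)) := by
      show ρ (N x 0) = _
      rw [hb0 x]
    apply hkS
    · exact (GLB (Bm m)).mul_mem ((GLB (Bm m)).inv_mem (hwB x)) (g1 _ (hnf x 0))
    · rw [h3]
      refine geo_size_mono ?_ (g5 _ 0 (hwB x)).2
      rw [hk1]
      exact Nat.le_mul_of_pos_right _ (by omega)
  have b2 := fil_tel hc2 (fun x => w.getD x 1) (fun x => (R x 0)⁻¹ * R (x + 1) 0)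
    (fun x => ((w.take x).prod)⁻¹ * R x 0) haS hbS hκS (by
      intro x
      rw [fil_take]
      group) (2 ^ K)
  have hκeq : ((w.take (2 ^ K)).prod)⁻¹ * R (2 ^ K) 0 = ((w.take 0).prod)⁻¹ * R 0 0 := by
    have h3 : R (2 ^ K) 0 = R 0 0 := by
      show ρ (N _ _) = ρ (N _ _)
      rw [hNr]
    rw [List.take_of_length_le hlK, hw1, List.take_zero, List.prod_nil, h3]
  rw [hκeq, ← hbotdef] at b2
  set κ0 : GL (Fin n) ℚ := ((w.take 0).prod)⁻¹ * R 0 0 with hκ0
  set w' : List (GL (Fin n) ℚ) := (List.range (2 ^ K)).map (fun x => w.getD x 1) with hw'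
  have hκ0S : κ0 ∈ S := hκS 0
  have b3 : Ar S (max c 2) 1 [κ0, κ0⁻¹] [] := by
    apply Ar.whole
    · simp
    · simpa using hc2
    · simp
    · intro x hx
      simp only [List.mem_cons, List.not_mem_nil, or_false] at hx
      rcases hx with rfl | rfl
      · exact hκ0S
      · exact hSinv _ hκ0S
    · simp
  have b4 : Ar S (max c 2) 1 w' (w' ++ [κ0] ++ [κ0⁻¹]) := by
    have := (b3.left w').symm
    rw [List.append_nil] at this
    simpa using this
  have b5 : Ar S (max c 2) (2 ^ K) (w' ++ [κ0] ++ [κ0⁻¹]) (κ0 :: bot ++ [κ0⁻¹]) :=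
    b2.symm.right [κ0⁻¹]
  have b6 : Ar S (max c 2) (2 ^ K + (M * 4 ^ K + (2 ^ K + 2 ^ K))) (κ0 :: bot ++ [κ0⁻¹])
      [κ0, κ0⁻¹] := by
    have := hbnull.congr [κ0] [κ0⁻¹]
    simp only [List.singleton_append, List.append_nil] at this
    exact this
  have b7 := b1.trans (b4.trans (b5.trans (b6.trans b3)))
  refine b7.mono_k ?_
  apply fil_count
  have : 2 * (2 * K') = 4 * (B * (w.length + 1)) := by rw [hK']; ring
  omega

end QN
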