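import Pool.Agent.Helper87.QN.Defs

set_option autoImplicit false

/-! Embedding of linear groups over number fields. -/

namespace QN

open QD

namespace FINALm

/-- Reindexing as an isomorphism of general linear groups. -/
def rx {ι κ : Type} [Fintype ι] [DecidableEq ι] [Fintype κ] [DecidableEq κ] (e : ι ≃ κ) :
    GL ι ℚ ≃* GL κ ℚ :=
  Units.mapEquiv (Matrix.reindexAlgEquiv ℚ ℚ e).toMulEquiv

theorem embQD_of {H G : Type} [Group H] [Group G] (hG : QuadDehn G) (f : H →* G)
    (hf : Function.Injective f) : EmbQD H := by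
  obtain ⟨k, rels, hq, ⟨e⟩⟩ := hG
  exact ⟨k, rels, hq, e.toMonoidHom.comp f, e.injective.comp hf⟩

theorem embQD_triv {H : Type} [Group H] (hH : Subsingleton H) : EmbQD H := by
  refine ⟨0, ∅, ⟨0, ?_⟩, 1, Function.injective_of_subsingleton _⟩
  intro w _
  exact ⟨[], by simp, by simp, Subsingleton.elim _ _⟩

end FINALm

open FINALm in
/-- Finitely generated linear groups over number fields embed in groups with quadratic Dehn
function. -/
theorem emb_numberField (hQD : ST_QD) (hS : ST_SCAL) (hD : ST_DEN) (K : Type) [Field K]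
    [NumberField K] (n : ℕ) (H : Subgroup (GL (Fin n) K)) (hH : H.FG) : EmbQD H := by
  obtain ⟨d, f, F, hf, _⟩ := hS K n
  set φ : GL (Fin n) K →* GL (Fin (n * d)) ℚ := (rx finProdFinEquiv).toMonoidHom.comp f with hφ
  have hφi : Function.Injective φ := (rx finProdFinEquiv).injective.comp hf
  rcases Nat.eq_zero_or_pos (n * d) with h0 | hpos
  · refine embQD_triv ⟨fun x y => Subtype.ext (hφi ?_)⟩
    refine Units.ext (Matrix.ext fun i => ?_)
    exact absurd i.2 (by omega)
  · obtain ⟨s, hs⟩ := hH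
    obtain ⟨m, hm, h6, hmem⟩ := hD (Set.range (fun p : s × Fin (n * d) × Fin (n * d) =>
      (φ p.1.1).1 p.2.1 p.2.2) ∪ Set.range (fun p : s × Fin (n * d) × Fin (n * d) =>
      ((φ p.1.1)⁻¹).1 p.2.1 p.2.2)) ((Set.finite_range _).union (Set.finite_range _))
    have hle : H ≤ (GLB (ι := Fin (n * d)) (Bm m)).comap φ := by
      rw [← hs, Subgroup.closure_le]
      intro x hx
      refine ⟨fun i j => hmem _ (Or.inl ⟨(⟨x, hx⟩, i, j), rfl⟩),
        fun i j => hmem _ (Or.inr ⟨(⟨x, hx⟩, i, j), rfl⟩)⟩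
    refine embQD_of (hQD m (n * d) hm h6 hpos)
      ((φ.comp H.subtype).codRestrict _ fun x => hle x.2) ?_
    intro x y hxy
    exact Subtype.ext (hφi (congrArg Subtype.val hxy))

end QN
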