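import Pool.Agent.Helper87.QN.Defs

set_option autoImplicit false

/-! Hermite form over the integers. -/

namespace QN

open QD

theorem hnf_op {n : ℕ} (γ : GL (Fin n) ℤ) (i j : Fin n) (hij : i ≠ j) (c : ℤ) :
    ∃ γ' : GL (Fin n) ℤ, ∀ (Z : Matrix (Fin n) (Fin n) ℤ) x,
      (Z * γ'.1) x j = (Z * γ.1) x j + c * (Z * γ.1) x i ∧
      ∀ y, y ≠ j → (Z * γ'.1) x y = (Z * γ.1) x y := by
  have h1 : Matrix.transvection i j c * Matrix.transvection i j (-c) =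
      (1 : Matrix (Fin n) (Fin n) ℤ) := by
    rw [Matrix.transvection_mul_transvection_same i j hij, add_neg_cancel,
      Matrix.transvection_zero]
  have h2 : Matrix.transvection i j (-c) * Matrix.transvection i j c =
      (1 : Matrix (Fin n) (Fin n) ℤ) := by
    rw [Matrix.transvection_mul_transvection_same i j hij, neg_add_cancel,
      Matrix.transvection_zero]
  refine ⟨γ * ⟨Matrix.transvection i j c, Matrix.transvection i j (-c), h1, h2⟩, ?_⟩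
  intro Z x
  constructor
  · show (Z * (γ.1 * Matrix.transvection i j c)) x j = _
    rw [← Matrix.mul_assoc, Matrix.mul_transvection_apply_same]
  · intro y hy
    show (Z * (γ.1 * Matrix.transvection i j c)) x y = _
    rw [← Matrix.mul_assoc, Matrix.mul_transvection_apply_of_ne _ _ _ _ hy]

theorem hnf_natAbs (a b : ℤ) (hb : b ≠ 0) (h : b.natAbs ≤ a.natAbs) :
    ∃ c : ℤ, (a + c * b).natAbs < a.natAbs := by
  rcases le_total 0 a with ha | ha <;> rcases le_total 0 b with hb' | hb'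
  · exact ⟨-1, by omega⟩
  · exact ⟨1, by omega⟩
  · exact ⟨1, by omega⟩
  · exact ⟨-1, by omega⟩

/-- One row. -/
theorem hnf_step {n : ℕ} (Z : Matrix (Fin n) (Fin n) ℤ) (k : Fin n)
    (hne : ∃ γ : GL (Fin n) ℤ, ∀ x y : Fin n, k < x → y < x → (Z * γ.1) x y = 0) :
    ∃ γ : GL (Fin n) ℤ, ∀ x y : Fin n, k ≤ x → y < x → (Z * γ.1) x y = 0 := by
  let P : Set (GL (Fin n) ℤ) := {γ | ∀ x y : Fin n, k < x → y < x → (Z * γ.1) x y = 0}
  let μ : GL (Fin n) ℤ → ℕ := fun γ => ∑ y ∈ Finset.univ.filter (fun y => y ≤ k),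
    ((Z * γ.1) k y).natAbs
  obtain ⟨γ, hγ, hmin⟩ := (measure μ).wf.has_min P hne
  have hmin' : ∀ γ' ∈ P, μ γ ≤ μ γ' := fun γ' h' => not_lt.1 (hmin γ' h')
  -- at most one non-zero entry
  have hone : ∀ y₁ y₂ : Fin n, y₁ ≤ k → y₂ ≤ k → y₁ ≠ y₂ → (Z * γ.1) k y₂ ≠ 0 →
      ((Z * γ.1) k y₂).natAbs ≤ ((Z * γ.1) k y₁).natAbs → False := by
    intro y₁ y₂ h1 h2 hne h0 hle
    obtain ⟨c, hc⟩ := hnf_natAbs _ _ h0 hle
    obtain ⟨γ', hγ'⟩ := hnf_op γ y₂ y₁ hne.symm c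
    have hP : γ' ∈ P := by
      intro x y hx hy
      rcases eq_or_ne y y₁ with rfl | hyy
      · rw [(hγ' Z x).1, hγ x y hx hy, hγ x y₂ hx (lt_of_le_of_lt h2 hx)]
        simp
      · rw [(hγ' Z x).2 y hyy, hγ x y hx hy]
    have hlt : μ γ' < μ γ := by
      apply Finset.sum_lt_sum
      · intro y hy
        rcases eq_or_ne y y₁ with rfl | hyy
        · rw [(hγ' Z k).1]
          exact hc.le
        · rw [(hγ' Z k).2 y hyy]
      · refine ⟨y₁, by simp [h1], ?_⟩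
        rw [(hγ' Z k).1]
        exact hc
    exact absurd (hmin' γ' hP) (not_le.2 hlt)
  have hone' : ∀ y₁ y₂ : Fin n, y₁ ≤ k → y₂ ≤ k → y₁ ≠ y₂ → (Z * γ.1) k y₁ ≠ 0 →
      (Z * γ.1) k y₂ = 0 := by
    intro y₁ y₂ h1 h2 hne h0
    by_contra h3
    rcases le_total ((Z * γ.1) k y₂).natAbs ((Z * γ.1) k y₁).natAbs with h | h
    · exact hone y₁ y₂ h1 h2 hne h3 h
    · exact hone y₂ y₁ h2 h1 hne.symm h0 h
  by_cases hall : ∀ y : Fin n, y < k → (Z * γ.1) k y = 0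
  · refine ⟨γ, ?_⟩
    intro x y hx hy
    rcases eq_or_lt_of_le hx with rfl | hx
    · exact hall y hy
    · exact hγ x y hx hy
  · push Not at hall
    obtain ⟨y₀, hy₀, h0⟩ := hall
    obtain ⟨γ₁, hγ₁⟩ := hnf_op γ y₀ k hy₀.ne 1
    obtain ⟨γ₂, hγ₂⟩ := hnf_op γ₁ k y₀ hy₀.ne' (-1)
    refine ⟨γ₂, ?_⟩
    intro x y hx hy
    rcases eq_or_lt_of_le hx with rfl | hx
    · rcases eq_or_ne y y₀ with rfl | hyy
      · rw [(hγ₂ Z _).1, (hγ₁ Z _).1, (hγ₁ Z _).2 y hy₀.ne, hone' y k hy₀.le le_rfl hy₀.ne h0]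
        ring
      · rw [(hγ₂ Z _).2 y hyy, (hγ₁ Z _).2 y hy.ne]
        exact hone' y₀ y hy₀.le hy.le hyy.symm h0
    · have hz : ∀ y : Fin n, y < x → (Z * γ₁.1) x y = 0 := by
        intro y hy
        rcases eq_or_ne y k with rfl | hyk
        · rw [(hγ₁ Z _).1, hγ x y hx hy, hγ x y₀ hx (hy₀.trans hx)]
          simp
        · rw [(hγ₁ Z _).2 y hyk, hγ x y hx hy]
      rcases eq_or_ne y y₀ with rfl | hyy
      · rw [(hγ₂ Z _).1, hz y hy, hz k hx]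
        simp
      · rw [(hγ₂ Z _).2 y hyy, hz y hy]

theorem hnf_int {n : ℕ} (Z : Matrix (Fin n) (Fin n) ℤ) :
    ∃ γ : GL (Fin n) ℤ, ∀ x y : Fin n, y < x → (Z * γ.1) x y = 0 := by
  have key : ∀ d : ℕ, ∃ γ : GL (Fin n) ℤ, ∀ x y : Fin n, n ≤ (x : ℕ) + d → y < x →
      (Z * γ.1) x y = 0 := by
    intro d
    induction d with
    | zero => exact ⟨1, fun x y hx => absurd x.2 (by omega)⟩
    | succ d ih =>
      by_cases hd : d < n
      · let k : Fin n := ⟨n - (d + 1), by omega⟩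
        obtain ⟨γ, hγ⟩ := ih
        obtain ⟨γ', hγ'⟩ := hnf_step Z k ⟨γ, fun x y hx hy => hγ x y (by
          have : (k : ℕ) < x := hx
          have hk : (k : ℕ) = n - (d + 1) := rfl
          omega) hy⟩
        refine ⟨γ', fun x y hx hy => hγ' x y ?_ hy⟩
        show n - (d + 1) ≤ (x : ℕ)
        omega
      · obtain ⟨γ, hγ⟩ := ih
        exact ⟨γ, fun x y hx hy => hγ x y (by omega) hy⟩
  obtain ⟨γ, hγ⟩ := key n
  exact ⟨γ, fun x y hy => hγ x y (by omega) hy⟩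

theorem hnf_den {n : ℕ} (M : Matrix (Fin n) (Fin n) ℚ) : ∃ D : ℤ, D ≠ 0 ∧
    ∃ Z : Matrix (Fin n) (Fin n) ℤ, ∀ x y, (Z x y : ℚ) = D * M x y := by
  let D : ℤ := ∏ p : Fin n × Fin n, ((M p.1 p.2).den : ℤ)
  refine ⟨D, Finset.prod_ne_zero_iff.2 fun p _ => by
    exact_mod_cast (M p.1 p.2).den_nz, ?_⟩
  have h1 : ∀ x y, ∃ z : ℤ, (z : ℚ) = D * M x y := by
    intro x y
    obtain ⟨e, he⟩ : ((M x y).den : ℤ) ∣ D :=
      Finset.dvd_prod_of_mem (fun p : Fin n × Fin n => ((M p.1 p.2).den : ℤ))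
        (Finset.mem_univ (x, y))
    refine ⟨e * (M x y).num, ?_⟩
    rw [he]
    push_cast
    have h2 : (((M x y).den : ℕ) : ℚ) * M x y = (M x y).num := Rat.den_mul_eq_num _
    rw [← h2]
    ring
  choose z hz using h1
  exact ⟨fun x y => z x y, hz⟩

theorem st_HNF : ST_HNF := by
  intro n X
  obtain ⟨D, hD, Z, hZ⟩ := hnf_den (X⁻¹).1
  obtain ⟨γ, hγ⟩ := hnf_int Z
  let f : GL (Fin n) ℤ →* GL (Fin n) ℚ :=
    Units.map ((Int.castRingHom ℚ).mapMatrix (m := Fin n)).toMonoidHom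
  refine ⟨f γ, ?_, ?_⟩
  · intro B
    refine ⟨fun x y => ?_, fun x y => ?_⟩
    · show ((γ.1 x y : ℤ) : ℚ) ∈ B
      exact intCast_mem B _
    · rw [← map_inv]
      show (((γ⁻¹).1 x y : ℤ) : ℚ) ∈ B
      exact intCast_mem B _
  · intro x y hxy
    have h1 : (((Z * γ.1) x y : ℤ) : ℚ) = D * (X⁻¹ * f γ).1 x y := by
      show _ = (D : ℚ) * ((X⁻¹).1 * (f γ).1) x y
      rw [Matrix.mul_apply, Matrix.mul_apply, Finset.mul_sum, Int.cast_sum]
      refine Finset.sum_congr rfl fun z _ => ?_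
      rw [Int.cast_mul, hZ, mul_assoc]
      rfl
    rw [hγ x y hxy] at h1
    have h2 : (D : ℚ) ≠ 0 := by exact_mod_cast hD
    have h3 : (D : ℚ) * (X⁻¹ * f γ).1 x y = 0 := by rw [← h1, Int.cast_zero]
    exact (mul_eq_zero.1 h3).resolve_left h2

end QN
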