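import Pool.Agent.Helper87.QN.Defs

set_option autoImplicit false

/-! Row LEN: words of logarithmic length; the general construction of the grid. -/

namespace QN

open QD

theorem len_exists_size (m : ℕ) {n : ℕ} (g : GL (Fin n) ℚ) : ∃ k, SizeLe m k g := by
  classical
  obtain ⟨R, hR⟩ := exists_nat_ge (∑ p : Pl m × Fin n × Fin n,
    (av m p.1 (g.1 p.2.1 p.2.2) + av m p.1 ((g⁻¹).1 p.2.1 p.2.2)))
  refine ⟨R, fun v x y => ?_⟩
  have h1 : av m v (g.1 x y) + av m v ((g⁻¹).1 x y) ≤ R :=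
    le_trans (Finset.single_le_sum (f := fun p : Pl m × Fin n × Fin n =>
      (av m p.1 (g.1 p.2.1 p.2.2) + av m p.1 ((g⁻¹).1 p.2.1 p.2.2)))
      (fun p _ => add_nonneg ((av m _).nonneg _) ((av m _).nonneg _))
      (Finset.mem_univ (v, x, y))) hR
  have h2 : (R : ℚ) ≤ 2 ^ R := by exact_mod_cast (Nat.lt_two_pow_self (n := R)).le
  have h3 := (av m v).nonneg (g.1 x y)
  have h4 := (av m v).nonneg ((g⁻¹).1 x y)
  constructor <;> linarith

theorem SizeLe.inv {m n k : ℕ} {g : GL (Fin n) ℚ} (h : SizeLe m k g) : SizeLe m k g⁻¹ := by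
  intro v x y
  refine ⟨(h v x y).2, ?_⟩
  rw [inv_inv]
  exact (h v x y).1

theorem SizeLe.mono {m n k k' : ℕ} {g : GL (Fin n) ℚ} (h : SizeLe m k g) (hk : k ≤ k') :
    SizeLe m k' g := by
  intro v x y
  have h1 : (2 : ℚ) ^ k ≤ 2 ^ k' := pow_le_pow_right₀ (by norm_num) hk
  exact ⟨(h v x y).1.trans h1, (h v x y).2.trans h1⟩

theorem sizeLe_one (m n k : ℕ) : SizeLe m k (1 : GL (Fin n) ℚ) := by
  have key : ∀ (v : Pl m) (x y : Fin n), av m v ((1 : Matrix (Fin n) (Fin n) ℚ) x y) ≤ 2 ^ k := by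
    intro v x y
    have h1 : (1 : ℚ) ≤ 2 ^ k := one_le_pow₀ (by norm_num)
    rw [Matrix.one_apply]
    split_ifs
    · rw [map_one]; exact h1
    · rw [map_zero]; linarith
  intro v x y
  refine ⟨key v x y, ?_⟩
  rw [inv_one]
  exact key v x y

theorem sizeLe_finite (hB : ST_NTB) {m n : ℕ} (hm : 0 < m) (k : ℕ) :
    {g : GL (Fin n) ℚ | g ∈ GLB (Bm m) ∧ SizeLe m k g}.Finite := by
  have hF : {β : ℚ | β ∈ Bm m ∧ ∀ i, av m i β ≤ ((2 ^ k : ℕ) : ℚ)}.Finite := hB m (2 ^ k) hm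
  have hM : {M : Fin n → Fin n → ℚ | ∀ x y, M x y ∈
      {β : ℚ | β ∈ Bm m ∧ ∀ i, av m i β ≤ ((2 ^ k : ℕ) : ℚ)}}.Finite := by
    have h1 : {M : Fin n → Fin n → ℚ | ∀ x y, M x y ∈
        {β : ℚ | β ∈ Bm m ∧ ∀ i, av m i β ≤ ((2 ^ k : ℕ) : ℚ)}} =
        Set.pi Set.univ (fun _ : Fin n => Set.pi Set.univ (fun _ : Fin n =>
          {β : ℚ | β ∈ Bm m ∧ ∀ i, av m i β ≤ ((2 ^ k : ℕ) : ℚ)})) := by
      ext M
      simp only [Set.mem_pi, Set.mem_univ, true_implies]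
      rfl
    rw [h1]
    exact Set.Finite.pi' (fun _ => Set.Finite.pi' (fun _ => hF)) |>.subset
      (by intro M hM x y; exact hM x (Set.mem_univ _) y (Set.mem_univ _))
  apply Set.Finite.of_finite_image (f := fun g : GL (Fin n) ℚ => (g.1 : Fin n → Fin n → ℚ))
  · apply hM.subset
    rintro M ⟨g, ⟨hg, hs⟩, rfl⟩ x y
    refine ⟨hg.1 x y, fun i => ?_⟩
    have := (hs i x y).1
    push_cast
    exact this
  · intro g _ h _ hgh
    exact Units.ext hgh

theorem len_pst_trivial {n i : ℕ} (h : i = 0 ∨ n ≤ i) (g : GL (Fin n) ℚ) : g ∈ Pst (n := n) i := by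
  intro x y hy hx
  have := x.2
  omega

theorem nf_nonneg {m n : ℕ} {N : Pl m → (Fin n → ℚ) → ℚ} (h : IsNF m n N) (v : Pl m)
    (x : Fin n → ℚ) : 0 ≤ N v x := by
  obtain ⟨R, hR⟩ := h.bd
  have h1 : 0 ≤ N0 m n v x := Finset.sum_nonneg fun j _ => (av m v).nonneg _
  have h2 := (hR v x).1
  have h3 : (0 : ℚ) < 2 ^ R := by positivity
  by_contra hneg
  push Not at hneg
  have := mul_neg_of_pos_of_neg h3 hneg
  linarith

theorem close_mono {m n : ℕ} {N N' : Pl m → (Fin n → ℚ) → ℚ} (h : IsNF m n N) (h' : IsNF m n N')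
    {r r' : ℕ} (hr : r ≤ r') (hc : Close r N N') : Close r' N N' := by
  intro v x
  have h1 : (2 : ℚ) ^ r ≤ 2 ^ r' := pow_le_pow_right₀ (by norm_num) hr
  exact ⟨(hc v x).1.trans (mul_le_mul_of_nonneg_right h1 (nf_nonneg h' v x)),
    (hc v x).2.trans (mul_le_mul_of_nonneg_right h1 (nf_nonneg h v x))⟩

/-- words of elements of parabolic subgroups, of length bounded by the size -/
theorem exists_W {m n : ℕ} (S₀ : Set (GL (Fin n) ℚ)) (Cm : ℕ)
    (hM : ∀ k g, g ∈ GLB (Bm m) → SizeLe m k g → (∃ i, 0 < i ∧ i < n ∧ g ∈ Pst i) →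
      ∃ w : List (GL (Fin n) ℚ), w.prod = g ∧ w.length ≤ Cm * (k + 1) ∧
        ∀ s ∈ w, s ∈ S₀ ∧ ∀ i, g ∈ Pst i → s ∈ Pst i) :
    ∃ W : GL (Fin n) ℚ → List (GL (Fin n) ℚ), ∀ g, g ∈ GLB (Bm m) →
      (∃ i, 0 < i ∧ i < n ∧ g ∈ Pst i) → (W g).prod = g ∧
        (∀ k, SizeLe m k g → (W g).length ≤ Cm * (k + 1)) ∧
        ∀ s ∈ W g, s ∈ S₀ ∧ ∀ i, g ∈ Pst i → s ∈ Pst i := by
  classical
  have h : ∀ g : GL (Fin n) ℚ, ∃ w : List (GL (Fin n) ℚ), g ∈ GLB (Bm m) →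
      (∃ i, 0 < i ∧ i < n ∧ g ∈ Pst i) → w.prod = g ∧
        (∀ k, SizeLe m k g → w.length ≤ Cm * (k + 1)) ∧
        ∀ s ∈ w, s ∈ S₀ ∧ ∀ i, g ∈ Pst i → s ∈ Pst i := by
    intro g
    by_cases hg : g ∈ GLB (Bm m) ∧ (∃ i, 0 < i ∧ i < n ∧ g ∈ Pst i)
    · obtain ⟨w, h1, h2, h3⟩ := hM (Nat.find (len_exists_size m g)) g hg.1
        (Nat.find_spec (len_exists_size m g)) hg.2
      refine ⟨w, fun _ _ => ⟨h1, ?_, h3⟩⟩
      intro k hk
      have h4 := Nat.find_min' (len_exists_size m g) hk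
      exact h2.trans (Nat.mul_le_mul_left _ (by omega))
    · refine ⟨[], fun h1 h2 => absurd ⟨h1, h2⟩ hg⟩
  choose W hW using h
  exact ⟨W, hW⟩

/-- the grid of a Lipschitz family of norm families -/
theorem gridOf {m n : ℕ} (C : ℕ) (ρ : (Pl m → (Fin n → ℚ) → ℚ) → GL (Fin n) ℚ)
    (D : (Pl m → (Fin n → ℚ) → ℚ) → ℕ)
    (h1 : ∀ N, IsNF m n N → ρ N ∈ GLB (Bm m))
    (h2 : ∀ N N' r, IsNF m n N → IsNF m n N' → Close r N N' → D N' ≤ D N + 2 * r)
    (h3 : ∀ N N' r, IsNF m n N → IsNF m n N' → Close r N N' →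
      SizeLe m (C * (D N + r + 1)) ((ρ N)⁻¹ * ρ N'))
    (h4 : ∀ N r, IsNF m n N → C * (r + 1) ≤ D N → ∃ i, 0 < i ∧ i < n ∧
      ∀ N' N'', IsNF m n N' → IsNF m n N'' → Close r N N' → Close r N N'' →
        (ρ N')⁻¹ * ρ N'' ∈ Pst i)
    (S₀ S : Set (GL (Fin n) ℚ)) (Cm κ : ℕ) (W : GL (Fin n) ℚ → List (GL (Fin n) ℚ))
    (hW : ∀ g, g ∈ GLB (Bm m) →
      (∃ i, 0 < i ∧ i < n ∧ g ∈ Pst i) → (W g).prod = g ∧
        (∀ k, SizeLe m k g → (W g).length ≤ Cm * (k + 1)) ∧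
        ∀ s ∈ W g, s ∈ S₀ ∧ ∀ i, g ∈ Pst i → s ∈ Pst i)
    (hS0 : S₀ ⊆ S) (hSG : ∀ s ∈ S, s ∈ GLB (Bm m))
    (hS1 : ∀ g, g ∈ GLB (Bm m) →
      SizeLe m (C * (E0 (C * (κ + 1)) (2 * κ) + κ + 1)) g → g ∈ S)
    (N : ℕ → ℕ → Pl m → (Fin n → ℚ) → ℚ) (hN : ∀ x y, IsNF m n (N x y))
    (hcl : ∀ x y x' y', Close (κ * gd x y x' y') (N x y) (N x' y')) :
    Grid (GL (Fin n) ℚ) {i : ℕ // 0 < i ∧ i < n} S
      (fun j => {g | g ∈ GLB (Bm m) ∧ g ∈ Pst j.1}) W (Cm * (C + 1) * (κ + 1)) (C * (κ + 1))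
      (2 * κ) (fun x y => ρ (N x y)) (fun x y => D (N x y)) where
  hW := by
    rintro g ⟨⟨i, hi⟩, hg⟩
    obtain ⟨e1, e2, e3⟩ := hW g hg.1 ⟨i, hi.1, hi.2, hg.2⟩
    refine ⟨e1, fun s hs => hS0 (e3 s hs).1, ?_⟩
    rintro ⟨j, hj⟩ hgj s hs
    exact ⟨hSG s (hS0 (e3 s hs).1), (e3 s hs).2 j hgj.2⟩
  hlen := by
    rintro x y x' y' ⟨⟨i, hi⟩, hg⟩
    obtain ⟨e1, e2, e3⟩ := hW _ hg.1 ⟨i, hi.1, hi.2, hg.2⟩
    have e4 := e2 _ (h3 _ _ _ (hN x y) (hN x' y') (hcl x y x' y'))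
    refine e4.trans ?_
    set d := D (N x y)
    set r := gd x y x' y'
    have e5 : C * (d + κ * r + 1) + 1 ≤ (C + 1) * ((κ + 1) * (d + r + 1)) := by
      have e6 : d + κ * r + 1 ≤ (κ + 1) * (d + r + 1) := by nlinarith [Nat.zero_le (κ * d)]
      have e7 : 1 ≤ (κ + 1) * (d + r + 1) := by nlinarith [Nat.zero_le (κ * (d + r + 1))]
      calc C * (d + κ * r + 1) + 1 ≤ C * ((κ + 1) * (d + r + 1)) + (κ + 1) * (d + r + 1) :=
            Nat.add_le_add (Nat.mul_le_mul_left _ e6) e7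
        _ = _ := by ring
    calc Cm * (C * (d + κ * r + 1) + 1) ≤ Cm * ((C + 1) * ((κ + 1) * (d + r + 1))) :=
          Nat.mul_le_mul_left _ e5
      _ = _ := by ring
  hD := by
    intro x y x' y'
    have := h2 _ _ _ (hN x y) (hN x' y') (hcl x y x' y')
    calc D (N x' y') ≤ D (N x y) + 2 * (κ * gd x y x' y') := this
      _ = _ := by ring
  hP := by
    intro x y r hr
    have e1 : C * (κ * r + 1) ≤ D (N x y) := by
      refine le_trans ?_ hr
      calc C * (κ * r + 1) ≤ C * ((κ + 1) * (r + 1)) :=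
            Nat.mul_le_mul_left _ (by nlinarith [Nat.zero_le κ, Nat.zero_le r])
        _ = _ := by ring
    obtain ⟨i, hi0, hin, hi⟩ := h4 _ (κ * r) (hN x y) e1
    refine ⟨⟨i, hi0, hin⟩, ?_⟩
    intro x₁ y₁ x₂ y₂ hr1 hr2
    refine ⟨mul_mem (inv_mem (h1 _ (hN _ _))) (h1 _ (hN _ _)), ?_⟩
    exact hi _ _ (hN _ _) (hN _ _)
      (close_mono (hN _ _) (hN _ _) (Nat.mul_le_mul_left _ hr1) (hcl _ _ _ _))
      (close_mono (hN _ _) (hN _ _) (Nat.mul_le_mul_left _ hr2) (hcl _ _ _ _))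
  hS := by
    intro x y x' y' hg hd
    have hd' : D (N x y) < E0 (C * (κ + 1)) (2 * κ) := hd
    apply hS1 _ (mul_mem (inv_mem (h1 _ (hN _ _))) (h1 _ (hN _ _)))
    apply (h3 _ _ _ (hN x y) (hN x' y') (hcl x y x' y')).mono
    apply Nat.mul_le_mul_left
    have e1 : κ * gd x y x' y' ≤ κ * 1 := Nat.mul_le_mul_left _ hg
    omega

theorem len_exists_pow_between (a : ℕ) : ∃ K, a ≤ 2 ^ K ∧ 2 ^ K ≤ 2 * a + 1 := by
  induction a with
  | zero => exact ⟨0, by simp, by simp⟩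
  | succ a ih =>
    obtain ⟨K, h1, h2⟩ := ih
    by_cases h : a + 1 ≤ 2 ^ K
    · exact ⟨K, h, by omega⟩
    · refine ⟨K + 1, ?_, ?_⟩
      · have : 1 ≤ 2 ^ K := Nat.one_le_two_pow
        rw [pow_succ]; omega
      · rw [pow_succ]; omega

theorem len_actN_zero_one {m n : ℕ} (N : Pl m → (Fin n → ℚ) → ℚ) : actN (m := m) 0 1 N = N := by
  funext v x
  unfold actN
  have : ((1 : GL (Fin n) ℚ)⁻¹).1 = 1 := by rw [inv_one]; rfl
  rw [this, Matrix.one_mulVec, zpow_zero, one_mul]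

theorem len_maxN_comm {m n : ℕ} (N N' : Pl m → (Fin n → ℚ) → ℚ) : maxN N N' = maxN N' N := by
  funext v x
  unfold maxN
  exact max_comm _ _

theorem st_LEN (hGEO : ST_GEO) (hNRM : ST_NRM) (hMPAR : ST_MPAR) (hG0 : ST_GRD0) (hG1 : ST_GRD1)
    (hB : ST_NTB) : ST_LEN := by
  intro m n hm h6 hn hmain
  obtain ⟨C, ρ, D, g1, g2, g3, g4, g5⟩ := hGEO m n hm h6 hn
  obtain ⟨n1, n2, n3, n4, n5, n6, n7, n8, ⟨e, n9⟩, n10⟩ := hNRM m n
  obtain ⟨S₀, Cm, hS0f, hS0G, hMP⟩ := hMPAR m n hm h6 hmain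
  obtain ⟨W, hW⟩ := exists_W S₀ Cm hMP
  set k1 := C * (E0 (C * (1 + 1)) (2 * 1) + 1 + 1) with hk1
  set S : Set (GL (Fin n) ℚ) := {s | s ∈ S₀ ∨ s⁻¹ ∈ S₀} ∪
    {g | g ∈ GLB (Bm m) ∧ SizeLe m (k1 + C) g} with hS
  obtain ⟨M, hM⟩ := hG1 (Cm * (C + 1) * (1 + 1)) (C * (1 + 1)) (2 * 1) 0
  have hSG : ∀ s ∈ S, s ∈ GLB (Bm m) := by
    rintro s ((h | h) | h)
    · exact hS0G s h
    · have := inv_mem (hS0G _ h)
      rwa [inv_inv] at this
    · exact h.1
  refine ⟨S, Cm + (M * (4 * e + 5) + 2), ?_, ?_, ?_, hSG, ?_⟩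
  · refine Set.Finite.union ?_ (sizeLe_finite hB hm _)
    have h1 : {s : GL (Fin n) ℚ | s ∈ S₀ ∨ s⁻¹ ∈ S₀} = S₀ ∪ (fun s => s⁻¹) '' S₀ := by
      ext s
      simp only [Set.mem_union, Set.mem_image]
      constructor
      · rintro (h | h)
        · exact Or.inl h
        · exact Or.inr ⟨s⁻¹, h, inv_inv s⟩
      · rintro (h | ⟨t, ht, rfl⟩)
        · exact Or.inl h
        · right; rw [inv_inv]; exact ht
    rw [h1]
    exact hS0f.union (hS0f.image _)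
  · exact Or.inr ⟨one_mem _, sizeLe_one _ _ _⟩
  · rintro s ((h | h) | h)
    · left; right; rw [inv_inv]; exact h
    · left; left; exact h
    · right; exact ⟨inv_mem h.1, h.2.inv⟩
  · intro k g hg hk
    by_cases hpar : ∃ i, 0 < i ∧ i < n ∧ g ∈ Pst i
    · obtain ⟨w, w1, w2, w3⟩ := hMP k g hg hk hpar
      refine ⟨w, w1, w2.trans (Nat.mul_le_mul_right _ (by omega)), ?_⟩
      intro s hs
      exact ⟨Or.inl (Or.inl (w3 s hs).1), (w3 s hs).2⟩
    · have htriv : ∀ i, g ∈ Pst i → ∀ s : GL (Fin n) ℚ, s ∈ Pst i := by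
        intro i hi s
        apply len_pst_trivial
        by_contra hcon
        push Not at hcon
        exact hpar ⟨i, by omega, hcon.2, hi⟩
      -- the path of norm families
      set k' : ℕ := k + e with hk'
      let Nf : ℕ → ℕ → Pl m → (Fin n → ℚ) → ℚ := fun x _ =>
        maxN (N0 m n) (actN ((x : ℤ) - k') g (N0 m n))
      have hNf : ∀ x y, IsNF m n (Nf x y) := fun x y => n3 _ _ n1 (n2 _ _ _ n1)
      have hc00 : Close 1 (N0 m n) (N0 m n) := close_mono n1 n1 (Nat.zero_le 1) (n4 _)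
      have hstep : ∀ x y, Close 1 (Nf x y) (Nf (x + 1) y) := by
        intro x y
        apply n7 _ _ _ _ 1 hc00
        have := n8 (N0 m n) n1 ((x : ℤ) - k') g
        have e1 : ((x + 1 : ℕ) : ℤ) - (k' : ℤ) = ((x : ℤ) - k') + 1 := by push_cast; ring
        rw [e1]
        exact this
      have hpath : ∀ x r y, Close r (Nf x y) (Nf (x + r) y) := by
        intro x r y
        induction r with
        | zero => exact n4 _
        | succ r ih => exact n6 _ _ _ r 1 ih (hstep (x + r) y)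
      have hcl : ∀ x y x' y', Close (1 * gd x y x' y') (Nf x y) (Nf x' y') := by
        intro x y x' y'
        rw [one_mul]
        rcases le_total x x' with h | h
        · obtain ⟨r, rfl⟩ := Nat.exists_eq_add_of_le h
          refine close_mono (hNf x y) (hNf (x + r) y) ?_ (hpath x r y)
          unfold gd
          omega
        · obtain ⟨r, rfl⟩ := Nat.exists_eq_add_of_le h
          refine close_mono (hNf (x' + r) y) (hNf x' y) ?_ (n5 _ _ _ (hpath x' r y))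
          unfold gd
          omega
      have hgrid := gridOf C ρ D g1 g2 g3 g4 S₀ S Cm 1 W hW
        (fun s hs => Or.inl (Or.inl hs)) hSG
        (fun g' hg' hs => Or.inr ⟨hg', hs.mono (Nat.le_add_right _ _)⟩) Nf hNf hcl
      -- the ends
      have hclg : ∀ s : ℤ, Close k' (actN (m := m) s 1 (N0 m n)) (actN s g (N0 m n)) := by
        intro s
        have := n9 s 1 g k hk
        rwa [one_mul] at this
      have hN00 : Nf 0 0 = actN 0 1 (N0 m n) := by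
        have := n10 0 (-(k' : ℤ)) 1 g k' (hclg 0) (by omega)
        rw [len_actN_zero_one] at this ⊢
        show maxN (N0 m n) (actN (((0 : ℕ) : ℤ) - k') g (N0 m n)) = _
        have e1 : ((0 : ℕ) : ℤ) - (k' : ℤ) = -(k' : ℤ) := by simp
        rw [e1, this]
      have hNK : ∀ X : ℕ, 2 * k' ≤ X → ∀ y, Nf X y = actN ((X : ℤ) - k') g (N0 m n) := by
        intro X hX y
        have := n10 ((X : ℤ) - k') 0 g 1 k' (n5 _ _ _ (hclg _)) (by omega)
        rw [len_actN_zero_one] at this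
        show maxN (N0 m n) (actN ((X : ℤ) - k') g (N0 m n)) = _
        rw [len_maxN_comm, this]
      obtain ⟨K, hK1, hK2⟩ := len_exists_pow_between (2 * k')
      have hD0 : D (Nf 0 0) = 0 := by
        rw [hN00]
        exact (g5 1 0 (one_mem _)).1
      obtain ⟨p1, p2, _⟩ := hG0 _ _ _ _ _ _ _ _ _ _ hgrid 1 0 rfl K 0 0
      have p3 := hM _ _ _ _ _ _ _ hgrid 1 0 rfl K 0 0 (by rw [hD0]; omega)
      set E := ew W (E0 (C * (1 + 1)) (2 * 1)) (fun x y => ρ (Nf x y)) (fun x y => D (Nf x y))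
        1 0 K 0 0 with hE
      have q1 : ρ (Nf 0 0) ∈ S := by
        right
        refine ⟨g1 _ (hNf 0 0), ?_⟩
        have := (g5 1 0 (one_mem _)).2
        rw [inv_one, one_mul, ← hN00] at this
        exact this.mono (by omega)
      have q2 : (ρ (Nf (2 ^ K) 0))⁻¹ * g ∈ S := by
        right
        refine ⟨mul_mem (inv_mem (g1 _ (hNf (2 ^ K) 0))) hg, ?_⟩
        have := ((g5 g (((2 ^ K : ℕ) : ℤ) - k') hg).2).inv
        rw [← hNK (2 ^ K) (by omega) 0, mul_inv_rev, inv_inv] at this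
        exact this.mono (by omega)
      refine ⟨ρ (Nf 0 0) :: (E ++ [(ρ (Nf (2 ^ K) 0))⁻¹ * g]), ?_, ?_, ?_⟩
      · rw [List.prod_cons, List.prod_append, p1, List.prod_singleton]
        simp only [zero_add, mul_one, mul_zero]
        group
      · rw [List.length_cons, List.length_append, List.length_singleton]
        have h5 : M * 2 ^ K ≤ M * (4 * (k + e) + 1) := Nat.mul_le_mul_left _ (by omega)
        have h6' : M * (4 * (k + e) + 1) + 2 ≤ (M * (4 * e + 5) + 2) * (k + 1) := by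
          have h7 : 4 * (k + e) + 1 ≤ (4 * e + 5) * (k + 1) := by nlinarith [Nat.zero_le (e * k)]
          have h8 := Nat.mul_le_mul_left M h7
          nlinarith
        have h9 : (M * (4 * e + 5) + 2) * (k + 1) ≤ (Cm + (M * (4 * e + 5) + 2)) * (k + 1) :=
          Nat.mul_le_mul_right _ (by omega)
        have p3' : E.length ≤ M * 2 ^ K := p3
        omega
      · intro s hs
        refine ⟨?_, fun i hi => htriv i hi s⟩
        simp only [List.mem_cons, List.mem_append, List.not_mem_nil, or_false] at hs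
        rcases hs with rfl | hs | rfl
        · exact q1
        · exact p2 s hs
        · exact q2

end QN
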