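import Pool.Agent.Helper87.QN.Defs

set_option autoImplicit false

/-! Row NRM: operations on norm families. -/

namespace QN

open QD

theorem exists_size (m : ℕ) {n : ℕ} (g : GL (Fin n) ℚ) : ∃ k, SizeLe m k g := by
  have h : ∀ q : Pl m × Fin n × Fin n, ∃ k : ℕ,
      av m q.1 (g.1 q.2.1 q.2.2) ≤ 2 ^ k ∧ av m q.1 ((g⁻¹).1 q.2.1 q.2.2) ≤ 2 ^ k := by
    intro q
    obtain ⟨a, ha⟩ := pow_unbounded_of_one_lt (av m q.1 (g.1 q.2.1 q.2.2))
      (one_lt_two : (1 : ℚ) < 2)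
    obtain ⟨b, hb⟩ := pow_unbounded_of_one_lt (av m q.1 ((g⁻¹).1 q.2.1 q.2.2))
      (one_lt_two : (1 : ℚ) < 2)
    exact ⟨max a b, ha.le.trans (pow_le_pow_right₀ one_le_two (le_max_left _ _)),
      hb.le.trans (pow_le_pow_right₀ one_le_two (le_max_right _ _))⟩
  choose f hf using h
  refine ⟨Finset.univ.sup f, fun v x y => ?_⟩
  have h1 : f (v, x, y) ≤ Finset.univ.sup f := Finset.le_sup (Finset.mem_univ _)
  have h2 : (2 : ℚ) ^ f (v, x, y) ≤ 2 ^ Finset.univ.sup f := pow_le_pow_right₀ one_le_two h1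
  exact ⟨(hf (v, x, y)).1.trans h2, (hf (v, x, y)).2.trans h2⟩

theorem N0_nonneg (m n : ℕ) (v : Pl m) (x : Fin n → ℚ) : 0 ≤ N0 m n v x :=
  Finset.sum_nonneg fun _ _ => AbsoluteValue.nonneg _ _

theorem N0_smul (m n : ℕ) (v : Pl m) (c : ℚ) (x : Fin n → ℚ) :
    N0 m n v (c • x) = av m v c * N0 m n v x := by
  unfold N0
  rw [Finset.mul_sum]
  exact Finset.sum_congr rfl fun j _ => by rw [Pi.smul_apply, smul_eq_mul, map_mul]

theorem N0_add (m n : ℕ) (v : Pl m) (x y : Fin n → ℚ) :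
    N0 m n v (x + y) ≤ N0 m n v x + N0 m n v y := by
  unfold N0
  rw [← Finset.sum_add_distrib]
  exact Finset.sum_le_sum fun j _ => (av m v).add_le _ _

theorem N0_isNF (m n : ℕ) : IsNF m n (N0 m n) :=
  ⟨N0_smul m n, N0_add m n, 0, fun v x => by simp⟩

theorem IsNF.nonneg {m n : ℕ} {N : Pl m → (Fin n → ℚ) → ℚ} (h : IsNF m n N) (v : Pl m)
    (x : Fin n → ℚ) : 0 ≤ N v x := by
  obtain ⟨R, hR⟩ := h.bd
  have h1 := (hR v x).1
  have h2 := N0_nonneg m n v x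
  have h3 : (0 : ℚ) < 2 ^ R := by positivity
  by_contra hc
  push Not at hc
  nlinarith [mul_pos h3 (neg_pos.2 hc)]

theorem natCast_le_two_pow (n : ℕ) : (n : ℚ) ≤ 2 ^ n := by
  have : n ≤ 2 ^ n := Nat.lt_two_pow_self.le
  calc (n : ℚ) ≤ ((2 ^ n : ℕ) : ℚ) := by exact_mod_cast this
    _ = 2 ^ n := by push_cast; ring

theorem N0_mulVec_le (m n : ℕ) (v : Pl m) (A : Matrix (Fin n) (Fin n) ℚ) (M : ℚ)
    (hA : ∀ x y, av m v (A x y) ≤ M) (x : Fin n → ℚ) :
    N0 m n v (A.mulVec x) ≤ n * M * N0 m n v x := by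
  have h1 : ∀ i, av m v (A.mulVec x i) ≤ M * N0 m n v x := by
    intro i
    unfold N0
    rw [Finset.mul_sum]
    show av m v (∑ j, A i j * x j) ≤ _
    refine ((av m v).sum_le _ _).trans (Finset.sum_le_sum fun j _ => ?_)
    rw [map_mul]
    exact mul_le_mul_of_nonneg_right (hA i j) (AbsoluteValue.nonneg _ _)
  calc N0 m n v (A.mulVec x) ≤ ∑ _i : Fin n, M * N0 m n v x := Finset.sum_le_sum fun i _ => h1 i
    _ = n * M * N0 m n v x := by
      rw [Finset.sum_const, Finset.card_univ, Fintype.card_fin, nsmul_eq_mul, mul_assoc]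

theorem N0_GL_le {m n k : ℕ} {g : GL (Fin n) ℚ} (hg : SizeLe m k g) (v : Pl m)
    (x : Fin n → ℚ) :
    N0 m n v (g.1.mulVec x) ≤ 2 ^ (k + n) * N0 m n v x ∧
    N0 m n v ((g⁻¹).1.mulVec x) ≤ 2 ^ (k + n) * N0 m n v x := by
  have h1 := N0_mulVec_le m n v g.1 (2 ^ k) (fun a b => (hg v a b).1) x
  have h2 := N0_mulVec_le m n v (g⁻¹).1 (2 ^ k) (fun a b => (hg v a b).2) x
  have h3 : (n : ℚ) * 2 ^ k ≤ 2 ^ (k + n) := by
    rw [pow_add, mul_comm]
    exact mul_le_mul_of_nonneg_left (natCast_le_two_pow n) (by positivity)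
  have h4 := mul_le_mul_of_nonneg_right h3 (N0_nonneg m n v x)
  exact ⟨h1.trans h4, h2.trans h4⟩

theorem GL_mulVec_inv {n : ℕ} (g : GL (Fin n) ℚ) (x : Fin n → ℚ) :
    g.1.mulVec ((g⁻¹).1.mulVec x) = x := by
  rw [Matrix.mulVec_mulVec, ← Units.val_mul, mul_inv_cancel, Units.val_one, Matrix.one_mulVec]

theorem N0_GL_ge {m n k : ℕ} {g : GL (Fin n) ℚ} (hg : SizeLe m k g) (v : Pl m)
    (x : Fin n → ℚ) :
    N0 m n v x ≤ 2 ^ (k + n) * N0 m n v ((g⁻¹).1.mulVec x) := by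
  have h := (N0_GL_le hg v ((g⁻¹).1.mulVec x)).1
  rwa [GL_mulVec_inv] at h

theorem zpow_le_natAbs (t : ℤ) : (2 : ℚ) ^ t ≤ 2 ^ t.natAbs ∧ 1 ≤ (2 : ℚ) ^ t.natAbs * 2 ^ t := by
  constructor
  · rw [← zpow_natCast]
    exact zpow_le_zpow_right₀ one_le_two (by omega)
  · rw [← zpow_natCast, ← zpow_add₀ two_ne_zero]
    exact one_le_zpow₀ one_le_two (by omega)

theorem actN_isNF {m n : ℕ} {N : Pl m → (Fin n → ℚ) → ℚ} (hN : IsNF m n N) (t : ℤ)
    (g : GL (Fin n) ℚ) : IsNF m n (actN t g N) := by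
  refine ⟨fun v c x => ?_, fun v x y => ?_, ?_⟩
  · unfold actN
    rw [Matrix.mulVec_smul, hN.smul]
    ring
  · unfold actN
    rw [Matrix.mulVec_add]
    have := hN.add v ((g⁻¹).1.mulVec x) ((g⁻¹).1.mulVec y)
    have h2 : (0 : ℚ) ≤ 2 ^ t := by positivity
    nlinarith [mul_le_mul_of_nonneg_left this h2]
  · obtain ⟨k, hk⟩ := exists_size m g
    obtain ⟨R, hR⟩ := hN.bd
    refine ⟨R + (k + n) + t.natAbs, fun v x => ?_⟩
    obtain ⟨ht1, ht2⟩ := zpow_le_natAbs t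
    have hNn := hN.nonneg v ((g⁻¹).1.mulVec x)
    have hN0 := N0_nonneg m n v x
    have hN0' := N0_nonneg m n v ((g⁻¹).1.mulVec x)
    have hR1 := (hR v ((g⁻¹).1.mulVec x)).1
    have hR2 := (hR v ((g⁻¹).1.mulVec x)).2
    have hg1 := N0_GL_ge hk v x
    have hg2 := (N0_GL_le hk v x).2
    unfold actN
    constructor
    · calc N0 m n v x ≤ 2 ^ (k + n) * N0 m n v ((g⁻¹).1.mulVec x) := hg1
        _ ≤ 2 ^ (k + n) * (2 ^ R * N v ((g⁻¹).1.mulVec x)) :=
          mul_le_mul_of_nonneg_left hR1 (by positivity)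
        _ = 1 * (2 ^ (k + n) * (2 ^ R * N v ((g⁻¹).1.mulVec x))) := by ring
        _ ≤ ((2 : ℚ) ^ t.natAbs * 2 ^ t) * (2 ^ (k + n) * (2 ^ R * N v ((g⁻¹).1.mulVec x))) :=
          mul_le_mul_of_nonneg_right ht2 (by positivity)
        _ = 2 ^ (R + (k + n) + t.natAbs) * (2 ^ t * N v ((g⁻¹).1.mulVec x)) := by
          rw [pow_add 2 (R + (k + n)) t.natAbs, pow_add 2 R (k + n)]; ring
    · calc (2 : ℚ) ^ t * N v ((g⁻¹).1.mulVec x)
          ≤ 2 ^ t.natAbs * N v ((g⁻¹).1.mulVec x) := mul_le_mul_of_nonneg_right ht1 hNn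
        _ ≤ 2 ^ t.natAbs * (2 ^ R * N0 m n v ((g⁻¹).1.mulVec x)) :=
          mul_le_mul_of_nonneg_left hR2 (by positivity)
        _ ≤ 2 ^ t.natAbs * (2 ^ R * (2 ^ (k + n) * N0 m n v x)) :=
          mul_le_mul_of_nonneg_left (mul_le_mul_of_nonneg_left hg2 (by positivity))
            (by positivity)
        _ = 2 ^ (R + (k + n) + t.natAbs) * N0 m n v x := by
          rw [pow_add 2 (R + (k + n)) t.natAbs, pow_add 2 R (k + n)]; ring

theorem maxN_isNF {m n : ℕ} {N N' : Pl m → (Fin n → ℚ) → ℚ} (hN : IsNF m n N)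
    (hN' : IsNF m n N') : IsNF m n (maxN N N') := by
  refine ⟨fun v c x => ?_, fun v x y => ?_, ?_⟩
  · unfold maxN
    rw [hN.smul, hN'.smul, mul_max_of_nonneg _ _ (AbsoluteValue.nonneg _ _)]
  · unfold maxN
    exact max_le ((hN.add v x y).trans (add_le_add (le_max_left _ _) (le_max_left _ _)))
      ((hN'.add v x y).trans (add_le_add (le_max_right _ _) (le_max_right _ _)))
  · obtain ⟨R, hR⟩ := hN.bd
    obtain ⟨R', hR'⟩ := hN'.bd
    refine ⟨R + R', fun v x => ?_⟩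
    have h0 := N0_nonneg m n v x
    have hn := hN.nonneg v x
    have hmx : 0 ≤ max (N v x) (N' v x) := hn.trans (le_max_left _ _)
    have p1 : (2 : ℚ) ^ R ≤ 2 ^ (R + R') := pow_le_pow_right₀ one_le_two (by omega)
    have p2 : (2 : ℚ) ^ R' ≤ 2 ^ (R + R') := pow_le_pow_right₀ one_le_two (by omega)
    unfold maxN
    constructor
    · calc N0 m n v x ≤ 2 ^ R * N v x := (hR v x).1
        _ ≤ 2 ^ R * max (N v x) (N' v x) :=
          mul_le_mul_of_nonneg_left (le_max_left _ _) (by positivity)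
        _ ≤ _ := mul_le_mul_of_nonneg_right p1 hmx
    · exact max_le ((hR v x).2.trans (mul_le_mul_of_nonneg_right p1 h0))
        ((hR' v x).2.trans (mul_le_mul_of_nonneg_right p2 h0))

theorem Close.mono {m n r r' : ℕ} {N N' : Pl m → (Fin n → ℚ) → ℚ} (h : Close r N N')
    (hr : r ≤ r') (hN : IsNF m n N) (hN' : IsNF m n N') : Close r' N N' := by
  intro v x
  have hp : (2 : ℚ) ^ r ≤ 2 ^ r' := pow_le_pow_right₀ one_le_two hr
  exact ⟨(h v x).1.trans (mul_le_mul_of_nonneg_right hp (hN'.nonneg v x)),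
    (h v x).2.trans (mul_le_mul_of_nonneg_right hp (hN.nonneg v x))⟩

theorem maxN_comm {m n : ℕ} (N N' : Pl m → (Fin n → ℚ) → ℚ) : maxN N N' = maxN N' N := by
  funext v x
  exact max_comm _ _

theorem maxN_self {m n : ℕ} (N : Pl m → (Fin n → ℚ) → ℚ) : maxN N N = N := by
  funext v x
  exact max_self _

theorem actN_zero_one {m n : ℕ} (N : Pl m → (Fin n → ℚ) → ℚ) : actN 0 1 N = N := by
  funext v x
  unfold actN
  rw [inv_one, Units.val_one, Matrix.one_mulVec, zpow_zero, one_mul]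

theorem st_NRM : ST_NRM := by
  intro m n
  refine ⟨N0_isNF m n, fun N t g hN => actN_isNF hN t g, fun N N' h h' => maxN_isNF h h',
    fun N v x => by simp, fun N N' r h v x => ⟨(h v x).2, (h v x).1⟩, ?_, ?_, ?_, ?_, ?_⟩
  · intro N N' N'' r s h h' v x
    constructor
    · calc N v x ≤ 2 ^ r * N' v x := (h v x).1
        _ ≤ 2 ^ r * (2 ^ s * N'' v x) := mul_le_mul_of_nonneg_left (h' v x).1 (by positivity)
        _ = 2 ^ (r + s) * N'' v x := by rw [pow_add]; ring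
    · calc N'' v x ≤ 2 ^ s * N' v x := (h' v x).2
        _ ≤ 2 ^ s * (2 ^ r * N v x) := mul_le_mul_of_nonneg_left (h v x).2 (by positivity)
        _ = 2 ^ (r + s) * N v x := by rw [pow_add]; ring
  · intro N₁ N₂ N₁' N₂' r h1 h2 v x
    unfold maxN
    constructor
    · exact max_le ((h1 v x).1.trans (mul_le_mul_of_nonneg_left (le_max_left _ _) (by positivity)))
        ((h2 v x).1.trans (mul_le_mul_of_nonneg_left (le_max_right _ _) (by positivity)))
    · exact max_le ((h1 v x).2.trans (mul_le_mul_of_nonneg_left (le_max_left _ _) (by positivity)))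
        ((h2 v x).2.trans (mul_le_mul_of_nonneg_left (le_max_right _ _) (by positivity)))
  · intro N hN t g v x
    have hn := hN.nonneg v ((g⁻¹).1.mulVec x)
    have ht : (0 : ℚ) < 2 ^ t := by positivity
    have ht1 : (2 : ℚ) ^ (t + 1) = 2 * 2 ^ t := by
      rw [zpow_add₀ two_ne_zero, zpow_one]; ring
    unfold actN
    rw [ht1]
    have := mul_nonneg ht.le hn
    constructor <;> nlinarith
  · refine ⟨n, fun t g h k hk v x => ?_⟩
    have ht : (0 : ℚ) ≤ 2 ^ t := by positivity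
    have e : ((g * h)⁻¹).1.mulVec x = (h⁻¹).1.mulVec ((g⁻¹).1.mulVec x) := by
      rw [Matrix.mulVec_mulVec, ← Units.val_mul, mul_inv_rev]
    have h1 := N0_GL_ge hk v ((g⁻¹).1.mulVec x)
    have h2 := (N0_GL_le hk v ((g⁻¹).1.mulVec x)).2
    unfold actN
    rw [e]
    constructor
    · calc _ ≤ 2 ^ t * (2 ^ (k + n) * N0 m n v ((h⁻¹).1.mulVec ((g⁻¹).1.mulVec x))) :=
          mul_le_mul_of_nonneg_left h1 ht
        _ = _ := by ring
    · calc _ ≤ 2 ^ t * (2 ^ (k + n) * N0 m n v ((g⁻¹).1.mulVec x)) :=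
          mul_le_mul_of_nonneg_left h2 ht
        _ = _ := by ring
  · intro s t g h r hc hts
    funext v x
    have h1 := (hc v x).2
    unfold maxN
    unfold actN at h1 ⊢
    refine max_eq_left ?_
    have h0 := N0_nonneg m n v ((g⁻¹).1.mulVec x)
    have hs : (0 : ℚ) < 2 ^ s := by positivity
    have e1 : (2 : ℚ) ^ t = 2 ^ (t - s) * 2 ^ s := by
      rw [← zpow_add₀ two_ne_zero]; congr 1; ring
    have e2 : (2 : ℚ) ^ (t - s) * 2 ^ r ≤ 1 := by
      rw [← zpow_natCast, ← zpow_add₀ two_ne_zero]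
      exact zpow_le_one_of_nonpos₀ one_le_two (by omega)
    have hts' : (0 : ℚ) ≤ 2 ^ (t - s) := by positivity
    calc (2 : ℚ) ^ t * N0 m n v ((h⁻¹).1.mulVec x)
        = 2 ^ (t - s) * (2 ^ s * N0 m n v ((h⁻¹).1.mulVec x)) := by rw [e1]; ring
      _ ≤ 2 ^ (t - s) * (2 ^ r * (2 ^ s * N0 m n v ((g⁻¹).1.mulVec x))) :=
        mul_le_mul_of_nonneg_left h1 hts'
      _ = (2 ^ (t - s) * 2 ^ r) * (2 ^ s * N0 m n v ((g⁻¹).1.mulVec x)) := by ring
      _ ≤ 1 * (2 ^ s * N0 m n v ((g⁻¹).1.mulVec x)) :=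
        mul_le_mul_of_nonneg_right e2 (by positivity)
      _ = _ := by ring

end QN
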