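import Pool.Agent.Helper87.QN.Defs

set_option autoImplicit false

/-! Row PF: a non-zero element of `ℤ[1/m]` is large at some place. -/

namespace QN

open QD

theorem not_dvd_den_of_padicNorm_le {p : ℕ} (hp : p.Prime) (β : ℚ) (h : padicNorm p β ≤ 1) :
    ¬ p ∣ β.den := by
  have : Fact p.Prime := ⟨hp⟩
  intro hd
  have h1 : ¬ (p : ℤ) ∣ β.num := by
    intro hn
    have hn' : p ∣ β.num.natAbs := Int.natCast_dvd.1 hn
    have hc := Nat.dvd_gcd hn' hd
    rw [β.reduced.gcd_eq_one] at hc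
    exact hp.one_lt.ne' (Nat.dvd_one.1 hc)
  have h2 : padicNorm p (β.num : ℚ) = 1 := padicNorm.int_eq_one_iff β.num |>.2 h1
  have h3 : padicNorm p ((β.den : ℕ) : ℚ) < 1 := padicNorm.nat_lt_one_iff β.den |>.2 hd
  have h4 : β * (β.den : ℚ) = (β.num : ℚ) := Rat.mul_den_eq_num β
  have h5 : padicNorm p β * padicNorm p ((β.den : ℕ) : ℚ) = 1 := by
    rw [← padicNorm.mul, h4, h2]
  have h6 : padicNorm p β * padicNorm p ((β.den : ℕ) : ℚ) ≤ 1 * padicNorm p ((β.den : ℕ) : ℚ) :=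
    mul_le_mul_of_nonneg_right h (padicNorm.nonneg _)
  linarith

theorem one_le_abs_of_padicNorm_le (β : ℚ) (hβ : β ≠ 0)
    (h : ∀ p : ℕ, p.Prime → padicNorm p β ≤ 1) : 1 ≤ |β| := by
  have hden : β.den = 1 := by
    by_contra hne
    obtain ⟨p, hp, hpd⟩ := Nat.exists_prime_and_dvd hne
    exact not_dvd_den_of_padicNorm_le hp β (h p hp) hpd
  have h1 : β = (β.num : ℚ) := (Rat.coe_int_num_of_den_eq_one hden).symm
  have h2 : β.num ≠ 0 := Rat.num_ne_zero.2 hβ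
  have h3 : (1 : ℤ) ≤ |β.num| := Int.one_le_abs h2
  rw [h1]
  exact_mod_cast h3

theorem st_PF : ST_PF := by
  intro m β hm hβ hβ0
  by_cases hex : ∃ p : {p : ℕ // p ∈ m.primeFactors}, 1 ≤ av m (some p) β
  · obtain ⟨p, hp⟩ := hex
    exact ⟨some p, hp⟩
  · refine ⟨none, ?_⟩
    show 1 ≤ |β|
    refine one_le_abs_of_padicNorm_le β hβ0 ?_
    intro p hp
    by_cases hpm : p ∣ m
    · by_contra hlt
      refine hex ⟨⟨p, Nat.mem_primeFactors.2 ⟨hp, hpm, hm.ne'⟩⟩, ?_⟩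
      show 1 ≤ padicNorm p β
      exact (not_le.1 hlt).le
    · exact hβ p hp hpm

end QN
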