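import Pool.Agent.Helper87.QN.Defs

set_option autoImplicit false

/-! Row PRD (typed by helper63): two commuting groups. -/

namespace QN

open QD

/-- the word of the inverses in reverse order -/
theorem prd_inv {G : Type} [Group G] {S : Set G} (hS : ∀ s ∈ S, s⁻¹ ∈ S) (u : List G)
    (hu : ∀ s ∈ u, s ∈ S) : ∃ w : List G, (∀ s ∈ w, s ∈ S) ∧ w.prod = u.prod⁻¹ := by
  refine ⟨(u.map fun s => s⁻¹).reverse, ?_, ?_⟩
  · intro s hs
    rw [List.mem_reverse, List.mem_map] at hs
    obtain ⟨t, ht, rfl⟩ := hs
    exact hS t (hu t ht)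
  · rw [List.prod_inv_reverse]

/-- sorting a word: letters of `S` first -/
theorem prd_sort {G : Type} [Group G] {S T : Set G} {c : ℕ} (hc : 2 ≤ c)
    (hST : ∀ s ∈ S, ∀ t ∈ T, s * t = t * s) (u : List G) (hu : ∀ s ∈ u, s ∈ S ∪ T) :
    ∃ uS uT : List G, (∀ s ∈ uS, s ∈ S) ∧ (∀ t ∈ uT, t ∈ T) ∧ uS.length + uT.length = u.length ∧
      Ar (S ∪ T) c (u.length ^ 2) u (uS ++ uT) := by
  induction u with
  | nil => exact ⟨[], [], by simp, by simp, rfl, Ar.refl _ _⟩
  | cons g u ih =>
    obtain ⟨uS, uT, h1, h2, h3, h4⟩ := ih (fun s hs => hu s (by simp [hs]))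
    have h5 := h4.cons g
    rcases hu g (by simp) with hg | hg
    · refine ⟨g :: uS, uT, ?_, h2, ?_, ?_⟩
      · intro s hs
        rcases List.mem_cons.mp hs with rfl | hs
        · exact hg
        · exact h1 s hs
      · simp only [List.length_cons]; omega
      · refine h5.mono_k ?_
        simp only [List.length_cons]
        exact Nat.pow_le_pow_left (Nat.le_succ _) 2
    · refine ⟨uS, g :: uT, h1, ?_, ?_, ?_⟩
      · intro s hs
        rcases List.mem_cons.mp hs with rfl | hs
        · exact hg
        · exact h2 s hs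
      · simp only [List.length_cons]; omega
      · have h6 : Ar (S ∪ T) c uS.length (g :: uS) (uS ++ [g]) :=
          Ar.comm_letter hc g (Or.inr hg) uS (fun h hh => Or.inl (h1 h hh))
            (fun h hh => (hST h (h1 h hh) g hg).symm)
        have h7 := h5.trans (h6.right uT)
        simp only [List.append_assoc, List.cons_append, List.nil_append] at h7
        refine h7.mono_k ?_
        simp only [List.length_cons]
        nlinarith [h3]

theorem st_PRD : ST_PRD := by
  intro G _ S T c A _ hS hT hST hcap hSi hTi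
  refine ⟨max c 2, 2 * A + 1, ?_⟩
  intro u v hu hv huv
  obtain ⟨uS, uT, a1, a2, a3, a4⟩ := prd_sort (c := max c 2) (le_max_right _ _) hST u hu
  obtain ⟨vS, vT, b1, b2, b3, b4⟩ := prd_sort (c := max c 2) (le_max_right _ _) hST v hv
  have e1 : uS.prod * uT.prod = vS.prod * vT.prod := by
    rw [← List.prod_append, ← List.prod_append, ← a4.prod_eq, ← b4.prod_eq, huv]
  obtain ⟨x, hx, hxp⟩ := prd_inv hSi vS b1
  obtain ⟨y, hy, hyp⟩ := prd_inv hTi uT a2
  have e2 : (x ++ uS).prod = (vT ++ y).prod := by
    rw [List.prod_append, List.prod_append, hxp, hyp, inv_mul_eq_iff_eq_mul, ← mul_assoc,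
      eq_mul_inv_iff_mul_eq]
    exact e1
  have e3 := hcap (x ++ uS) (vT ++ y) (by
      intro s hs
      rcases List.mem_append.mp hs with hs | hs
      · exact hx s hs
      · exact a1 s hs) (by
      intro s hs
      rcases List.mem_append.mp hs with hs | hs
      · exact b2 s hs
      · exact hy s hs) e2
  have e4 : uS.prod = vS.prod := by
    rw [List.prod_append, hxp, inv_mul_eq_one] at e3
    exact e3.symm
  have e5 : uT.prod = vT.prod := by
    rw [e4] at e1
    exact mul_left_cancel e1
  have f1 := (hS uS vS a1 b1 e4).mono (le_max_left c 2) (Set.subset_union_left (s := S) (t := T))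
  have f2 := (hT uT vT a2 b2 e5).mono (le_max_left c 2) (Set.subset_union_right (s := S) (t := T))
  have f3 := (a4.trans (f1.append f2)).trans b4.symm
  refine f3.mono_k ?_
  have g1 : (uS.length + vS.length) ^ 2 + (uT.length + vT.length) ^ 2 ≤
      (u.length + v.length) ^ 2 := by
    rw [← a3, ← b3]
    nlinarith [Nat.zero_le ((uS.length + vS.length) * (uT.length + vT.length))]
  have g2 : u.length ^ 2 + v.length ^ 2 ≤ (u.length + v.length) ^ 2 := by
    nlinarith [Nat.zero_le (u.length * v.length)]
  have g3 : A * ((uS.length + vS.length) ^ 2 + (uT.length + vT.length) ^ 2) ≤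
      A * (u.length + v.length) ^ 2 := Nat.mul_le_mul_left _ g1
  nlinarith [g1, g2, g3, Nat.zero_le (A * (u.length + v.length) ^ 2)]

end QN
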