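import Pool.Agent.Helper87.QN.BAS
import Pool.Agent.Helper87.QN.BD
import Pool.Agent.Helper87.QN.DEC
import Pool.Agent.Helper87.QN.ELM
import Pool.Agent.Helper87.QN.GEO
import Pool.Agent.Helper87.QN.GRD0
import Pool.Agent.Helper87.QN.GRD1
import Pool.Agent.Helper87.QN.GRD2
import Pool.Agent.Helper87.QN.HNF
import Pool.Agent.Helper87.QN.LEN
import Pool.Agent.Helper87.QN.LEV
import Pool.Agent.Helper87.QN.LVL
import Pool.Agent.Helper87.QN.MPAR
import Pool.Agent.Helper87.QN.NRM
import Pool.Agent.Helper87.QN.PAR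
import Pool.Agent.Helper87.QN.PF
import Pool.Agent.Helper87.QN.PRD
import Pool.Agent.Helper87.QN.SIZ
import Pool.Agent.Helper87.QN.SUPR
import Pool.Agent.Helper87.QN.UNT
import Pool.Agent.Helper87.QN.MAIN
import Pool.Agent.Helper87.QN.QD
import Pool.Agent.Helper87.QN.FIL
import Pool.Agent.Helper87.QN.FINAL
import Pool.Agent.Helper46.QN.FLG
import Pool.Agent.Helper70.QN.MNKr
import Pool.Agent.Helper70.QN.MNKp
import Pool.Agent.Helper24.QD.CORE
import Pool.Agent.Helper24.QD.COVR
import Pool.Agent.Helper24.QD.COV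
import Pool.Agent.Helper24.QD.FNS
import Pool.Agent.Helper24.QD.GEN
import Pool.Agent.Helper24.QD.OBD
import Pool.Agent.Helper24.QD.SET
import Pool.Agent.Helper24.QD.UNQ
import Pool.Agent.Helper24.QD.UNI
import Pool.Agent.Helper24.QD.NTA
import Pool.Agent.Helper24.QD.NTB
import Pool.Agent.Helper24.QD.NTC
import Pool.Agent.Helper24.QD.TRF
import Pool.Agent.Helper24.QD.PRES
import Pool.Agent.Helper24.QD.SCAL
import Pool.Agent.Helper24.QD.RAY
import Pool.Agent.Helper24.QD.CRS
import Pool.Agent.Helper24.QD.NFL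
import Pool.Agent.Helper24.QD.IND

set_option autoImplicit false

/-! Assembly of the modules. -/

namespace QN

open QD

theorem all_GEO : ST_GEO :=
  st_GEO (st_LVL st_PF) st_FLG (st_BAS st_HNF st_UNT st_NTA) (st_SIZ st_MNKr st_MNKp) st_NRM st_PF

theorem all_CORE : ST_CORE :=
  st_CORE st_SET (st_M1 (st_WEX st_R1) (st_WMUL st_R3 (st_CRS st_R2 st_R4)) (st_WPASS st_R5)
    (st_WONE st_R6)) st_UNQ st_TRF st_GEN (st_COVR (st_COV st_NTA st_UNIb)) (st_OBD st_UNIa)
    (st_FNS st_NTB st_UNIa)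

theorem all_MPAR : ST_MPAR := st_MPAR (st_ELM st_NTA st_NTB st_NTC) st_DEC st_BD

theorem all_PAR : ST_PAR :=
  st_PAR (st_LEV st_BD st_SUPR st_PRD) st_BD st_DEC st_SUPR all_CORE st_NTC

theorem all_GRD1 : ST_GRD1 := st_GRD1

theorem all_GRD2 : ST_GRD2 := st_GRD2 st_GRD0 all_GRD1

theorem all_LEN : ST_LEN := st_LEN all_GEO st_NRM all_MPAR st_GRD0 all_GRD1 st_NTB

theorem all_FIL : ST_FIL := st_FIL all_GEO st_NRM all_PAR st_GRD0 all_GRD2 st_NTB

theorem all_MAIN : ST_MAIN := st_MAIN all_LEN all_FIL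

/-- `GL_n(ℤ[1/m])` has a finite presentation with quadratic Dehn function, if `6 ∣ m`. -/
theorem all_QD : ST_QD := st_QD all_MAIN st_PRES

/-- Every finitely generated matrix group over a number field embeds in a finitely presented
group with quadratic Dehn function. -/
theorem numberField (K : Type) [Field K] [NumberField K] (n : ℕ) (H : Subgroup (GL (Fin n) K))
    (hH : H.FG) : EmbQD H := emb_numberField all_QD st_SCAL st_DEN K n H hH

end QN
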