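import Pool.Agent.Helper87.QN.Defs
import Pool.Agent.Helper24.QD.UNI

set_option autoImplicit false

/-! Adapted bases of the lattice. -/

namespace QN

open QD

theorem st_BAS (h1 : ST_HNF) (h2 : ST_UNT) (h3 : ST_NTA) : ST_BAS := by
  intro m n hm X hX
  obtain ⟨γ₀, hγ₀, hT⟩ := h1 n X
  -- `T = X⁻¹ γ₀` is upper triangular, its inverse `R` has entries in `B`
  obtain ⟨T, hTdef⟩ : ∃ T : GL (Fin n) ℚ, T = X⁻¹ * γ₀ := ⟨_, rfl⟩
  rw [← hTdef] at hT
  obtain ⟨A, hA⟩ : ∃ A : Matrix (Fin n) (Fin n) ℚ, A = T.1 := ⟨_, rfl⟩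
  obtain ⟨R, hR⟩ : ∃ R : Matrix (Fin n) (Fin n) ℚ, R = (T⁻¹).1 := ⟨_, rfl⟩
  have hAR : A * R = 1 := by
    rw [hA, hR, ← Units.val_mul, mul_inv_cancel]; rfl
  have hRA : R * A = 1 := by
    rw [hA, hR, ← Units.val_mul, inv_mul_cancel]; rfl
  have hAt : ∀ x y : Fin n, y < x → A x y = 0 := by
    intro x y hxy; rw [hA]; exact hT x y hxy
  have hRB : ∀ x y, R x y ∈ Bm m := by
    intro x y
    have h4 : T⁻¹ = γ₀⁻¹ * X := by rw [hTdef]; group
    rw [hR, h4]
    show ((γ₀⁻¹).1 * X.1) x y ∈ Bm m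
    rw [Matrix.mul_apply]
    exact (Bm m).sum_mem fun z _ => (Bm m).mul_mem ((hγ₀ (Bm m)).2 x z) (hX z y)
  have hRt : ∀ x y : Fin n, y < x → R x y = 0 := by
    have hbt : Matrix.BlockTriangular A (id : Fin n → Fin n) := fun i j hij => hAt i j hij
    have hinv : R = A⁻¹ := (Matrix.inv_eq_right_inv hAR).symm
    have : Invertible A := ⟨R, hRA, hAR⟩
    have hbt' : Matrix.BlockTriangular A⁻¹ (id : Fin n → Fin n) :=
      Matrix.blockTriangular_inv_of_blockTriangular hbt
    intro x y hxy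
    rw [hinv]
    exact hbt' hxy
  have hdiag : ∀ y, A y y * R y y = 1 := by
    intro y
    have h4 : (A * R) y y = 1 := by rw [hAR, Matrix.one_apply_eq]
    rw [Matrix.mul_apply, Finset.sum_eq_single y] at h4
    · exact h4
    · intro z _ hz
      rcases lt_or_gt_of_ne hz with h | h
      · rw [hAt y z h, zero_mul]
      · rw [hRt z y h, mul_zero]
    · intro h; exact absurd (Finset.mem_univ _) h
  -- units
  have hu : ∀ y, ∃ u : ℚ, u ∈ Bm m ∧ u⁻¹ ∈ Bm m ∧ u ≠ 0 ∧ ∀ v, 1 ≤ av m v (R y y * u) := by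
    intro y
    refine h2 m (R y y) hm (hRB y y) ?_
    intro h
    have := hdiag y
    rw [h, mul_zero] at this
    exact zero_ne_one this
  choose u hu1 hu2 hu0 hu3 using hu
  -- corrections
  have hc : ∀ x y : Fin n, ∃ c ∈ Bm m, ∀ v, av m v (A x y * (u y)⁻¹ + c) ≤ 1 := by
    intro x y
    obtain ⟨β, hβ, hβ'⟩ := h3 m hm (fun _ => - (A x y * (u y)⁻¹))
    refine ⟨β, hβ, fun v => ?_⟩
    have h4 := hβ' v
    have h5 : - (A x y * (u y)⁻¹) - β = - (A x y * (u y)⁻¹ + β) := by ring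
    rw [h5, AbsoluteValue.map_neg] at h4
    exact h4
  choose c hcB hc' using hc
  let C : Matrix (Fin n) (Fin n) ℚ := fun x y => if x < y then c x y else 0
  have hCB : ∀ x y, C x y ∈ Bm m := by
    intro x y
    show (if x < y then c x y else 0) ∈ Bm m
    split_ifs
    exacts [hcB x y, (Bm m).zero_mem]
  have hCt : ∀ x y : Fin n, y ≤ x → C x y = 0 := fun x y hxy => if_neg (not_lt.2 hxy)
  -- the diagonal matrix
  let Dm : Matrix (Fin n) (Fin n) ℚ := Matrix.diagonal fun y => (u y)⁻¹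
  let Di : Matrix (Fin n) (Fin n) ℚ := Matrix.diagonal u
  have hD1 : Dm * Di = 1 := by
    show Matrix.diagonal _ * Matrix.diagonal _ = 1
    rw [Matrix.diagonal_mul_diagonal, ← Matrix.diagonal_one]
    congr 1
    funext y
    exact inv_mul_cancel₀ (hu0 y)
  have hD2 : Di * Dm = 1 := by
    show Matrix.diagonal _ * Matrix.diagonal _ = 1
    rw [Matrix.diagonal_mul_diagonal, ← Matrix.diagonal_one]
    congr 1
    funext y
    exact mul_inv_cancel₀ (hu0 y)
  let D : GL (Fin n) ℚ := ⟨Dm, Di, hD1, hD2⟩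
  have hDB : D ∈ GLB (Bm m) := by
    constructor
    · intro x y
      show Matrix.diagonal (fun y => (u y)⁻¹) x y ∈ Bm m
      rw [Matrix.diagonal_apply]
      split_ifs
      exacts [hu2 x, (Bm m).zero_mem]
    · intro x y
      show Matrix.diagonal u x y ∈ Bm m
      rw [Matrix.diagonal_apply]
      split_ifs
      exacts [hu1 x, (Bm m).zero_mem]
  -- the unipotent part
  let N : Matrix (Fin n) (Fin n) ℚ := Di * (R * C)
  have hRCB : ∀ x y, (R * C) x y ∈ Bm m := by
    intro x y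
    rw [Matrix.mul_apply]
    exact (Bm m).sum_mem fun z _ => (Bm m).mul_mem (hRB x z) (hCB z y)
  have hRCt : ∀ x y : Fin n, y ≤ x → (R * C) x y = 0 := by
    intro x y hxy
    rw [Matrix.mul_apply]
    refine Finset.sum_eq_zero fun z _ => ?_
    rcases lt_or_ge z x with h | h
    · rw [hRt x z h, zero_mul]
    · rw [hCt z y (hxy.trans h), mul_zero]
  have hNapp : ∀ x y, N x y = u x * (R * C) x y := by
    intro x y
    show (Matrix.diagonal u * (R * C)) x y = _
    rw [Matrix.diagonal_mul]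
  obtain ⟨W, hW, _, hWB⟩ := st_UNIb (Fin n) (fun x => (x : ℕ)) (Bm m) N
    (fun x y hxy => by rw [hNapp, hRCt x y hxy, mul_zero])
    (fun x y => by rw [hNapp]; exact (Bm m).mul_mem (hu1 x) (hRCB x y))
  refine ⟨γ₀ * D * W, Subgroup.mul_mem _ (Subgroup.mul_mem _ (hγ₀ _) hDB) hWB, ?_⟩
  have hfin : ∀ x y, (X⁻¹ * (γ₀ * D * W)).1 x y = A x y * (u y)⁻¹ + C x y := by
    have h4 : X⁻¹ * (γ₀ * D * W) = T * D * W := by rw [hTdef]; group
    have h5 : (T * D * W).1 = A * Dm + C := by
      show T.1 * Dm * W.1 = _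
      rw [hW, ← hA, Matrix.mul_add, Matrix.mul_one]
      congr 1
      show A * Dm * (Di * (R * C)) = C
      rw [← Matrix.mul_assoc (A * Dm), Matrix.mul_assoc A, hD1, Matrix.mul_one,
        ← Matrix.mul_assoc, hAR, Matrix.one_mul]
    intro x y
    rw [h4, h5, Matrix.add_apply]
    congr 1
    show (A * Matrix.diagonal fun y => (u y)⁻¹) x y = _
    rw [Matrix.mul_diagonal]
  constructor
  · intro x y hxy
    rw [hfin, hAt x y hxy, hCt x y hxy.le]
    simp
  · intro v x y
    rw [hfin]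
    rcases lt_trichotomy x y with h | h | h
    · have h4 : C x y = c x y := if_pos h
      rw [h4]
      exact hc' x y v
    · subst h
      rw [hCt x x le_rfl, add_zero]
      have h4 := hu3 x v
      have h5 : av m v (A x x * (u x)⁻¹) * av m v (R x x * u x) = 1 := by
        rw [← map_mul]
        have h6 : A x x * (u x)⁻¹ * (R x x * u x) = 1 := by
          have h7 : A x x * (u x)⁻¹ * (R x x * u x) = (A x x * R x x) * ((u x)⁻¹ * u x) := by
            ring
          rw [h7, hdiag, inv_mul_cancel₀ (hu0 x), one_mul]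
        rw [h6, map_one]
      by_contra hlt
      push Not at hlt
      have h8 : (0 : ℚ) < av m v (R x x * u x) := lt_of_lt_of_le one_pos h4
      have h9 : 1 < av m v (A x x * (u x)⁻¹) * av m v (R x x * u x) := by
        calc (1 : ℚ) < av m v (A x x * (u x)⁻¹) := hlt
          _ = av m v (A x x * (u x)⁻¹) * 1 := (mul_one _).symm
          _ ≤ _ := by
            apply mul_le_mul_of_nonneg_left h4 (AbsoluteValue.nonneg _ _)
      rw [h5] at h9
      exact lt_irrefl _ h9
    · rw [hAt x y h, hCt x y h.le]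
      simp

end QN
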